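import Pool.Agent.RK.Defs

/-!
Project RK (MP_d404c6_co), RK-13a: reassembling a finite partial tree (helper13).
-/

set_option autoImplicit false

namespace Pool.Agent.RK

open Pool.Agent.RU

section
variable {L : Type}

theorem rk13a_split (gs : List (FT L)) (a b : ℕ) (h : gs.length = a + b) :
    ∃ g1 g2, gs = g1 ++ g2 ∧ g1.length = a ∧ g2.length = b :=
  ⟨gs.take a, gs.drop a, (List.take_append_drop a gs).symm, by
    rw [List.length_take]; omega, by rw [List.length_drop]; omega⟩

theorem rk13a_node (l r : FT L) (g1 g2 : List (FT L)) (h : g1.length = (fr l).length) :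
    asm (FT.node l r) (g1 ++ g2) = FT.node (asm l g1) (asm r g2) := by
  rw [asm, List.take_left' h, List.drop_left' h]

theorem rk13a_one (gs : List (FT L)) (h : gs.length = 1) : ∃ g, gs = [g] :=
  List.length_eq_one_iff.1 h

theorem rk13a_sc_append (g1 g2 : List (FT L)) (d1 d2 : List ℕ) (h : g1.length = d1.length)
    (d : ℕ) : sc (g1 ++ g2) (d1 ++ d2) d = sc g1 d1 d + sc g2 d2 d := by
  rw [sc, sc, sc, List.zipWith_append h, List.sum_append]

theorem rk13a_sc_one (g : FT L) (b d : ℕ) : sc [g] [b] d = g.cnt b d := by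
  simp [sc]

theorem dps_length (t : FT L) (b : ℕ) : (dps t b).length = (fr t).length := by
  induction t generalizing b with
  | leaf x => rfl
  | opn X => rfl
  | node l r ihl ihr => rw [dps, fr, List.length_append, List.length_append, ihl, ihr]

theorem asm_opens (t : FT L) (gs : List (FT L)) (h : gs.length = (fr t).length) :
    (asm t gs).opens = gs.flatMap FT.opens := by
  induction t generalizing gs with
  | leaf x =>
    obtain ⟨g, rfl⟩ := rk13a_one gs h
    simp [asm]
  | opn X =>
    obtain ⟨g, rfl⟩ := rk13a_one gs h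
    simp [asm]
  | node l r ihl ihr =>
    rw [fr, List.length_append] at h
    obtain ⟨g1, g2, rfl, h1, h2⟩ := rk13a_split gs _ _ h
    rw [rk13a_node l r g1 g2 h1, FT.opens, ihl g1 h1, ihr g2 h2, List.flatMap_append]

theorem asm_car (t : FT L) (gs : List (FT L)) (h : gs.length = (fr t).length) :
    (asm t gs).car = {x | ∃ g ∈ gs, x ∈ g.car} := by
  induction t generalizing gs with
  | leaf x =>
    obtain ⟨g, rfl⟩ := rk13a_one gs h
    ext y
    simp [asm]
  | opn X =>
    obtain ⟨g, rfl⟩ := rk13a_one gs h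
    ext y
    simp [asm]
  | node l r ihl ihr =>
    rw [fr, List.length_append] at h
    obtain ⟨g1, g2, rfl, h1, h2⟩ := rk13a_split gs _ _ h
    rw [rk13a_node l r g1 g2 h1, FT.car, ihl g1 h1, ihr g2 h2]
    ext y
    simp only [Set.mem_union, Set.mem_ofPred_eq, List.mem_append]
    constructor
    · rintro (⟨g, hg, hy⟩ | ⟨g, hg, hy⟩)
      · exact ⟨g, Or.inl hg, hy⟩
      · exact ⟨g, Or.inr hg, hy⟩
    · rintro ⟨g, hg | hg, hy⟩
      · exact Or.inl ⟨g, hg, hy⟩
      · exact Or.inr ⟨g, hg, hy⟩

theorem asm_cnt (t : FT L) (gs : List (FT L)) (h : gs.length = (fr t).length) (b d : ℕ) :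
    (asm t gs).cnt b d = sc gs (dps t b) d := by
  induction t generalizing gs b with
  | leaf x =>
    obtain ⟨g, rfl⟩ := rk13a_one gs h
    rw [dps, rk13a_sc_one]
    rfl
  | opn X =>
    obtain ⟨g, rfl⟩ := rk13a_one gs h
    rw [dps, rk13a_sc_one]
    rfl
  | node l r ihl ihr =>
    rw [fr, List.length_append] at h
    obtain ⟨g1, g2, rfl, h1, h2⟩ := rk13a_split gs _ _ h
    rw [rk13a_node l r g1 g2 h1, FT.cnt, ihl g1 h1, ihr g2 h2, dps,
      rk13a_sc_append _ _ _ _ (by rw [dps_length, h1])]

theorem asm_opAt (t : FT L) (gs : List (FT L)) (h : gs.length = (fr t).length) (b n : ℕ)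
    (hg : ∀ q ∈ gs.zip (dps t b), q.1.OpAt q.2 n) : (asm t gs).OpAt b n := by
  induction t generalizing gs b with
  | leaf x =>
    obtain ⟨g, rfl⟩ := rk13a_one gs h
    exact hg (g, b) (by simp [dps])
  | opn X =>
    obtain ⟨g, rfl⟩ := rk13a_one gs h
    exact hg (g, b) (by simp [dps])
  | node l r ihl ihr =>
    rw [fr, List.length_append] at h
    obtain ⟨g1, g2, rfl, h1, h2⟩ := rk13a_split gs _ _ h
    rw [dps, List.zip_append (by rw [dps_length, h1])] at hg
    rw [rk13a_node l r g1 g2 h1]
    exact ⟨ihl g1 h1 (b + 1) fun q hq => hg q (List.mem_append_left _ hq),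
      ihr g2 h2 (b + 1) fun q hq => hg q (List.mem_append_right _ hq)⟩

theorem asm_nn (t : FT L) (gs : List (FT L)) (h : gs.length = (fr t).length) (b n : ℕ)
    (hz : ∀ q ∈ gs.zip (dps t b), nn q.1 q.2 n = 0) : nn (asm t gs) b n = nn t b n := by
  induction t generalizing gs b with
  | leaf x =>
    obtain ⟨g, rfl⟩ := rk13a_one gs h
    exact hz (g, b) (by simp [dps])
  | opn X =>
    obtain ⟨g, rfl⟩ := rk13a_one gs h
    exact hz (g, b) (by simp [dps])
  | node l r ihl ihr =>
    rw [fr, List.length_append] at h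
    obtain ⟨g1, g2, rfl, h1, h2⟩ := rk13a_split gs _ _ h
    rw [dps, List.zip_append (by rw [dps_length, h1])] at hz
    rw [rk13a_node l r g1 g2 h1, nn, nn,
      ihl g1 h1 (b + 1) fun q hq => hz q (List.mem_append_left _ hq),
      ihr g2 h2 (b + 1) fun q hq => hz q (List.mem_append_right _ hq)]

theorem fr_cnt (t : FT L) (b d : ℕ) : t.cnt b d = sc (fr t) (dps t b) d := by
  induction t generalizing b with
  | leaf x => rw [fr, dps, rk13a_sc_one]
  | opn X => rw [fr, dps, rk13a_sc_one]
  | node l r ihl ihr =>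
    rw [fr, dps, rk13a_sc_append _ _ _ _ (dps_length l (b + 1)).symm, FT.cnt, ihl, ihr]

theorem fr_opens (t : FT L) : t.opens = (fr t).flatMap FT.opens := by
  induction t with
  | leaf x => simp [fr, FT.opens]
  | opn X => simp [fr, FT.opens]
  | node l r ihl ihr => rw [fr, FT.opens, List.flatMap_append, ← ihl, ← ihr]

theorem fr_car (t : FT L) : t.car = {x | ∃ g ∈ fr t, x ∈ g.car} := by
  induction t with
  | leaf x => ext y; simp [fr, FT.car]
  | opn X => ext y; simp [fr, FT.car]
  | node l r ihl ihr =>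
    rw [fr, FT.car, ihl, ihr]
    ext y
    simp only [Set.mem_union, Set.mem_ofPred_eq, List.mem_append]
    constructor
    · rintro (⟨g, hg, hy⟩ | ⟨g, hg, hy⟩)
      · exact ⟨g, Or.inl hg, hy⟩
      · exact ⟨g, Or.inr hg, hy⟩
    · rintro ⟨g, hg | hg, hy⟩
      · exact Or.inl ⟨g, hg, hy⟩
      · exact Or.inr ⟨g, hg, hy⟩

theorem fr_isPos {t : FT L} {b n : ℕ} (h : t.OpAt b n) :
    ∀ q ∈ (fr t).zip (dps t b), IsPos n q.1 q.2 := by
  induction t generalizing b with
  | leaf x =>
    intro q hq
    rw [fr, dps] at hq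
    simp only [List.zip_cons_cons, List.zip_nil_right, List.mem_singleton] at hq
    rw [hq]
    exact Or.inl ⟨x, rfl⟩
  | opn X =>
    intro q hq
    rw [fr, dps] at hq
    simp only [List.zip_cons_cons, List.zip_nil_right, List.mem_singleton] at hq
    rw [hq]
    exact Or.inr ⟨⟨X, rfl⟩, h⟩
  | node l r ihl ihr =>
    intro q hq
    rw [fr, dps, List.zip_append (dps_length l (b + 1)).symm, List.mem_append] at hq
    rcases hq with hq | hq
    · exact ihl h.1 q hq
    · exact ihr h.2 q hq

theorem nn_lt (t : FT L) {b n : ℕ} (h : n < b) : nn t b n = 0 := by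
  induction t generalizing b with
  | leaf x => rfl
  | opn X => rfl
  | node l r ihl ihr =>
    rw [nn, ihl (by omega), ihr (by omega), if_neg (by omega)]

end

end Pool.Agent.RK
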