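import Pool.Agent.RK.Defs
import Pool.Agent.RU.FTBasicB

/-!
Project RK (MP_d404c6_co), row RK-13b: reassembled trees, order and end counts (helper49).
-/

set_option autoImplicit false

open Filter

namespace Pool.Agent.RK

open Pool.Agent.RU

section
variable {L : Type}

theorem rk13b_fr_pos (t : FT L) : 0 < (fr t).length := by
  induction t with
  | leaf x => simp [fr]
  | opn X => simp [fr]
  | node l r ihl ihr => simp only [fr, List.length_append]; omega

theorem rk13b_asm_car (t : FT L) (gs : List (FT L)) (h : gs.length = (fr t).length) :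
    (asm t gs).car = {x | ∃ g ∈ gs, x ∈ g.car} := by
  induction t generalizing gs with
  | leaf x =>
    obtain ⟨g, rfl⟩ := List.length_eq_one_iff.1 (h.trans (by simp [fr]))
    simp [asm]
  | opn X =>
    obtain ⟨g, rfl⟩ := List.length_eq_one_iff.1 (h.trans (by simp [fr]))
    simp [asm]
  | node l r ihl ihr =>
    have hl : (gs.take (fr l).length).length = (fr l).length := by
      simp only [fr, List.length_append] at h
      simp only [List.length_take]
      omega
    have hr : (gs.drop (fr l).length).length = (fr r).length := by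
      simp only [fr, List.length_append] at h
      simp only [List.length_drop]
      omega
    simp only [asm, FT.car]
    rw [ihl _ hl, ihr _ hr]
    ext x
    constructor
    · rintro (⟨g, hg, hx⟩ | ⟨g, hg, hx⟩)
      · exact ⟨g, List.mem_of_mem_take hg, hx⟩
      · exact ⟨g, List.mem_of_mem_drop hg, hx⟩
    · rintro ⟨g, hg, hx⟩
      rw [← List.take_append_drop (fr l).length gs, List.mem_append] at hg
      rcases hg with hg | hg
      · exact Or.inl ⟨g, hg, hx⟩
      · exact Or.inr ⟨g, hg, hx⟩

theorem rk13b_fr_car (t : FT L) : t.car = {x | ∃ g ∈ fr t, x ∈ g.car} := by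
  induction t with
  | leaf x => simp [fr]
  | opn X => simp [fr]
  | node l r ihl ihr =>
    simp only [FT.car]
    rw [ihl, ihr]
    ext x
    simp only [fr, List.mem_append, Set.mem_union, Set.mem_setOf_eq]
    constructor
    · rintro (⟨g, hg, hx⟩ | ⟨g, hg, hx⟩)
      · exact ⟨g, Or.inl hg, hx⟩
      · exact ⟨g, Or.inr hg, hx⟩
    · rintro ⟨g, hg | hg, hx⟩
      · exact Or.inl ⟨g, hg, hx⟩
      · exact Or.inr ⟨g, hg, hx⟩

theorem rk13b_opens_nil (t : FT L) {b n : ℕ} (hO : t.OpAt b n) (hb : n < b) :
    t.opens = [] := by
  induction t generalizing b with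
  | leaf x => rfl
  | opn X =>
    have : b = n := hO
    omega
  | node l r ihl ihr =>
    obtain ⟨h1, h2⟩ := hO
    simp only [FT.opens]
    rw [ihl h1 (by omega), ihr h2 (by omega), List.append_nil]

/-- an end position at its own level -/
theorem rk13b_top (t : FT L) {n : ℕ} (hO : t.OpAt n n) :
    t.opens = [] ∨ ∃ X, t = FT.opn X := by
  cases t with
  | leaf x => exact Or.inl rfl
  | opn X => exact Or.inr ⟨X, rfl⟩
  | node l r =>
    obtain ⟨h1, h2⟩ := hO
    left
    simp only [FT.opens]
    rw [rk13b_opens_nil l h1 (by omega), rk13b_opens_nil r h2 (by omega), List.append_nil]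

variable [LinearOrder L]

theorem rk13b_pairwise (gs : List (FT L)) (hw : ∀ g ∈ gs, g.WF)
    (hc : gs.IsChain (fun g g' => Bnd g.car g'.car)) :
    gs.Pairwise (fun g g' => ∀ a ∈ g.car, ∀ b ∈ g'.car, a < b) := by
  induction gs with
  | nil => exact List.Pairwise.nil
  | cons g gs ih =>
    have hc' : gs.IsChain (fun g g' => Bnd g.car g'.car) := hc.tail
    have ih' := ih (fun g' hg' => hw g' (List.mem_cons_of_mem _ hg')) hc'
    refine List.Pairwise.cons ?_ ih'
    cases gs with
    | nil => intro g' hg'; simp at hg'
    | cons g1 gs =>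
      have h1 : Bnd g.car g1.car := hc.rel_head? rfl
      intro g' hg' a ha b hb
      rcases List.mem_cons.1 hg' with rfl | hg'
      · exact h1.1 a ha b hb
      · obtain ⟨c, hcc⟩ := FT.wf_car_nonempty (hw g1 (by simp))
        have h2 := (List.pairwise_cons.1 ih').1 g' hg' c hcc b hb
        exact (h1.1 a ha c hcc).trans h2

theorem asm_wf (t : FT L) (gs : List (FT L)) (h : gs.length = (fr t).length)
    (hw : ∀ g ∈ gs, g.WF) (hc : gs.IsChain (fun g g' => Bnd g.car g'.car)) :
    (asm t gs).WF := by
  induction t generalizing gs with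
  | leaf x =>
    obtain ⟨g, rfl⟩ := List.length_eq_one_iff.1 (h.trans (by simp [fr]))
    simpa [asm] using hw
  | opn X =>
    obtain ⟨g, rfl⟩ := List.length_eq_one_iff.1 (h.trans (by simp [fr]))
    simpa [asm] using hw
  | node l r ihl ihr =>
    obtain ⟨k, hk⟩ : ∃ k, k = (fr l).length := ⟨_, rfl⟩
    have hl : (gs.take k).length = (fr l).length := by
      simp only [fr, List.length_append] at h
      simp only [List.length_take]
      omega
    have hr : (gs.drop k).length = (fr r).length := by
      simp only [fr, List.length_append] at h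
      simp only [List.length_drop]
      omega
    have hP := rk13b_pairwise gs hw hc
    obtain ⟨g1, hg1⟩ : ∃ g1, g1 = gs.take k := ⟨_, rfl⟩
    obtain ⟨g2, hg2⟩ : ∃ g2, g2 = gs.drop k := ⟨_, rfl⟩
    have hgs : gs = g1 ++ g2 := by rw [hg1, hg2, List.take_append_drop]
    simp only [asm]
    rw [← hk, ← hg1, ← hg2]
    rw [← hg1] at hl
    rw [← hg2] at hr
    subst hgs
    rw [List.pairwise_append] at hP
    obtain ⟨hP1, hP2, hP3⟩ := hP
    have hc1 := hc.left_of_append
    have hc2 := hc.right_of_append
    have c1 := rk13b_asm_car l g1 hl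
    have c2 := rk13b_asm_car r g2 hr
    refine ⟨ihl g1 hl (fun g hg => hw g (List.mem_append_left _ hg)) hc1,
      ihr g2 hr (fun g hg => hw g (List.mem_append_right _ hg)) hc2, ?_, ?_⟩
    · rw [c1, c2]
      rintro a ⟨g, hg, ha⟩ b ⟨g', hg', hb⟩
      exact hP3 g hg g' hg' a ha b hb
    · have n1 : g1 ≠ [] := by
        intro h0
        rw [h0] at hl
        have := rk13b_fr_pos l
        simp at hl
        omega
      have n2 : g2 ≠ [] := by
        intro h0
        rw [h0] at hr
        have := rk13b_fr_pos r
        simp at hr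
        omega
      have hb : Bnd (g1.getLast n1).car (g2.head n2).car := hc.rel_getLast_head_of_append n1 n2
      rcases hb.2 with ⟨x, hx⟩ | ⟨x, hx⟩
      · left
        refine ⟨x, ?_, ?_⟩
        · rw [c1]
          exact ⟨_, List.getLast_mem n1, hx.1⟩
        · rw [c1]
          rintro a ⟨g, hg, ha⟩
          rw [← List.dropLast_append_getLast n1] at hg hP1
          rcases List.mem_append.1 hg with hg | hg
          · exact ((List.pairwise_append.1 hP1).2.2 g hg _ (by simp) a ha x hx.1).le
          · simp only [List.mem_singleton] at hg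
            subst hg
            exact hx.2 ha
      · right
        refine ⟨x, ?_, ?_⟩
        · rw [c2]
          exact ⟨_, List.head_mem n2, hx.1⟩
        · rw [c2]
          rintro a ⟨g, hg, ha⟩
          rw [← List.cons_head_tail n2] at hg hP2
          rcases List.mem_cons.1 hg with hg | hg
          · subst hg
            exact hx.2 ha
          · exact ((List.pairwise_cons.1 hP2).1 g hg x hx.1 a ha).le

theorem ord_chain {t : FT L} (h : Ord t) :
    (fr t).Pairwise (fun g g' => ∀ a ∈ g.car, ∀ b ∈ g'.car, a < b) := by
  induction t with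
  | leaf x => simp [fr]
  | opn X => simp [fr]
  | node l r ihl ihr =>
    obtain ⟨h1, h2, h3⟩ := h
    simp only [fr]
    rw [List.pairwise_append]
    refine ⟨ihl h1, ihr h2, ?_⟩
    intro g hg g' hg' a ha b hb
    refine h3 a ?_ b ?_
    · rw [rk13b_fr_car]
      exact ⟨g, hg, ha⟩
    · rw [rk13b_fr_car]
      exact ⟨g', hg', hb⟩

theorem ord_pos {t : FT L} (h : Ord t) (X : Set L) (hX : FT.opn X ∈ fr t) :
    X.Infinite ∧ X.OrdConnected := by
  induction t with
  | leaf x => simp [fr] at hX
  | opn Y =>
    simp only [fr, List.mem_singleton, FT.opn.injEq] at hX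
    subst hX
    exact h
  | node l r ihl ihr =>
    obtain ⟨h1, h2, -⟩ := h
    simp only [fr, List.mem_append] at hX
    rcases hX with hX | hX
    · exact ihl h1 hX
    · exact ihr h2 hX

theorem rk13b_end (X : Set L) (s : Bool) (x : L) (h : IsEnd s X x) : 1 ≤ ei X + zi X := by
  classical
  unfold ei zi
  by_cases hr : Rich X
  · rw [if_pos ⟨hr, s, x, h⟩]
    omega
  · rw [if_neg hr]
    omega

theorem rk13b_ec_append (l l' : List (Set L)) : ec (l ++ l') = ec l + ec l' := by
  simp [ec]

theorem rk13b_zc_append (l l' : List (Set L)) : zc (l ++ l') = zc l + zc l' := by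
  simp [zc]

theorem ec_bound {t : FT L} (hw : t.WF) {b n : ℕ} (hO : t.OpAt b (n + 1)) (hb : b ≤ n) :
    t.opens.length ≤ ec t.opens + zc t.opens + nn t b n := by
  induction t generalizing b with
  | leaf x => simp [FT.opens]
  | opn X =>
    have : b = n + 1 := hO
    omega
  | node l r ihl ihr =>
    obtain ⟨w1, w2, w3, w4⟩ := hw
    obtain ⟨o1, o2⟩ := hO
    simp only [FT.opens, List.length_append, rk13b_ec_append, rk13b_zc_append, nn]
    by_cases hbn : b = n
    · subst hbn
      rw [if_pos rfl]
      rcases rk13b_top l o1 with hl | ⟨A, rfl⟩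
      · rcases rk13b_top r o2 with hr | ⟨B, rfl⟩
        · rw [hl, hr]
          simp
        · rw [hl]
          simp [FT.opens]
          omega
      · rcases rk13b_top r o2 with hr | ⟨B, rfl⟩
        · rw [hr]
          simp [FT.opens]
          omega
        · simp only [FT.opens, FT.car, List.length_singleton, ec, zc, List.map_cons, List.map_nil,
            List.sum_cons, List.sum_nil] at w4 ⊢
          rcases w4 with ⟨x, hx⟩ | ⟨x, hx⟩
          · have := rk13b_end A true x (by simpa [IsEnd] using hx)
            omega
          · have := rk13b_end B false x (by simpa [IsEnd] using hx)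
            omega
    · rw [if_neg hbn]
      have h1 := ihl w1 o1 (by omega)
      have h2 := ihr w2 o2 (by omega)
      omega

end

end Pool.Agent.RK
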