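import Pool.Agent.RK.Defs
import Pool.Agent.RU.FTBasicB

/-!
Row RK-3: the boundaries of the open sets are marked by elements.
-/

set_option autoImplicit false

namespace Pool.Agent.RK

open Pool.Agent.RU

section

variable {L : Type} [LinearOrder L]

theorem rk3_lo (t : FT L) : t.WF → ∀ X ∈ t.opens, (∃ x, IsLeast X x) ∨
    {y ∈ t.car | ∀ x ∈ X, y < x} = ∅ ∨ ∃ y, IsGreatest {y ∈ t.car | ∀ x ∈ X, y < x} y := by
  induction t with
  | leaf x => intro _ X hX; exact absurd hX List.not_mem_nil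
  | opn Y =>
    intro _ X hX
    have hXY : X = Y := List.mem_singleton.1 hX
    subst hXY
    right; left
    rw [Set.eq_empty_iff_forall_notMem]
    rintro y ⟨h1, h2⟩
    exact lt_irrefl y (h2 y h1)
  | node l r ihl ihr =>
    rintro ⟨hl, hr, hlt, hb⟩ X hX
    rcases List.mem_append.1 hX with hX | hX
    · have hsub := FT.open_sub_car hX
      obtain ⟨x₀, hx₀⟩ := (FT.wf_open hl hX).1.nonempty
      have h1 : {y ∈ (FT.node l r).car | ∀ x ∈ X, y < x} = {y ∈ l.car | ∀ x ∈ X, y < x} := by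
        ext y
        constructor
        · rintro ⟨h2 | h2, h3⟩
          · exact ⟨h2, h3⟩
          · exact absurd (h3 x₀ hx₀) (not_lt.2 (hlt x₀ (hsub hx₀) y h2).le)
        · rintro ⟨h2, h3⟩
          exact ⟨Or.inl h2, h3⟩
      rw [h1]
      exact ihl hl X hX
    · have hsub := FT.open_sub_car hX
      rcases ihr hr X hX with h | h | ⟨y, h⟩
      · exact Or.inl h
      · rcases hb with ⟨y, hy⟩ | ⟨x₀, hx₀⟩
        · right; right
          refine ⟨y, ⟨Or.inl hy.1, fun x hx => hlt y hy.1 x (hsub hx)⟩, ?_⟩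
          rintro z ⟨h2 | h2, h3⟩
          · exact hy.2 h2
          · exact absurd (show z ∈ {y ∈ r.car | ∀ x ∈ X, y < x} from ⟨h2, h3⟩)
              (by rw [h]; exact Set.notMem_empty z)
        · left
          have h2 : x₀ ∉ {y ∈ r.car | ∀ x ∈ X, y < x} := by rw [h]; exact Set.notMem_empty x₀
          have h3 : ∃ x ∈ X, ¬ x₀ < x := by
            by_contra hcon
            push Not at hcon
            exact h2 ⟨hx₀.1, hcon⟩
          obtain ⟨x, hx, hxx⟩ := h3
          have h4 : x = x₀ := le_antisymm (not_lt.1 hxx) (hx₀.2 (hsub hx))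
          subst h4
          exact ⟨x, hx, fun z hz => hx₀.2 (hsub hz)⟩
      · right; right
        refine ⟨y, ⟨Or.inr h.1.1, h.1.2⟩, ?_⟩
        rintro z ⟨h2 | h2, h3⟩
        · exact (hlt z h2 y h.1.1).le
        · exact h.2 ⟨h2, h3⟩

theorem rk3_hi (t : FT L) : t.WF → ∀ X ∈ t.opens, (∃ x, IsGreatest X x) ∨
    {y ∈ t.car | ∀ x ∈ X, x < y} = ∅ ∨ ∃ y, IsLeast {y ∈ t.car | ∀ x ∈ X, x < y} y := by
  induction t with
  | leaf x => intro _ X hX; exact absurd hX List.not_mem_nil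
  | opn Y =>
    intro _ X hX
    have hXY : X = Y := List.mem_singleton.1 hX
    subst hXY
    right; left
    rw [Set.eq_empty_iff_forall_notMem]
    rintro y ⟨h1, h2⟩
    exact lt_irrefl y (h2 y h1)
  | node l r ihl ihr =>
    rintro ⟨hl, hr, hlt, hb⟩ X hX
    rcases List.mem_append.1 hX with hX | hX
    · have hsub := FT.open_sub_car hX
      rcases ihl hl X hX with h | h | ⟨y, h⟩
      · exact Or.inl h
      · rcases hb with ⟨x₀, hx₀⟩ | ⟨y, hy⟩
        · left
          have h2 : x₀ ∉ {y ∈ l.car | ∀ x ∈ X, x < y} := by rw [h]; exact Set.notMem_empty x₀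
          have h3 : ∃ x ∈ X, ¬ x < x₀ := by
            by_contra hcon
            push Not at hcon
            exact h2 ⟨hx₀.1, hcon⟩
          obtain ⟨x, hx, hxx⟩ := h3
          have h4 : x = x₀ := le_antisymm (hx₀.2 (hsub hx)) (not_lt.1 hxx)
          subst h4
          exact ⟨x, hx, fun z hz => hx₀.2 (hsub hz)⟩
        · right; right
          refine ⟨y, ⟨Or.inr hy.1, fun x hx => hlt x (hsub hx) y hy.1⟩, ?_⟩
          rintro z ⟨h2 | h2, h3⟩
          · exact absurd (show z ∈ {y ∈ l.car | ∀ x ∈ X, x < y} from ⟨h2, h3⟩)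
              (by rw [h]; exact Set.notMem_empty z)
          · exact hy.2 h2
      · right; right
        refine ⟨y, ⟨Or.inl h.1.1, h.1.2⟩, ?_⟩
        rintro z ⟨h2 | h2, h3⟩
        · exact h.2 ⟨h2, h3⟩
        · exact (hlt y h.1.1 z h2).le
    · have hsub := FT.open_sub_car hX
      obtain ⟨x₀, hx₀⟩ := (FT.wf_open hr hX).1.nonempty
      have h1 : {y ∈ (FT.node l r).car | ∀ x ∈ X, x < y} = {y ∈ r.car | ∀ x ∈ X, x < y} := by
        ext y
        constructor
        · rintro ⟨h2 | h2, h3⟩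
          · exact absurd (h3 x₀ hx₀) (not_lt.2 (hlt y h2 x₀ (hsub hx₀)).le)
          · exact ⟨h2, h3⟩
        · rintro ⟨h2, h3⟩
          exact ⟨Or.inr h2, h3⟩
      rw [h1]
      exact ihr hr X hX

theorem wf_bdd {t : FT L} (h : t.WF) (hc : t.car = Set.univ) {X : Set L} (hX : X ∈ t.opens) :
    LoB X ∧ HiB X := by
  have h1 := rk3_lo t h X hX
  have h2 := rk3_hi t h X hX
  have h3 : {y ∈ t.car | ∀ x ∈ X, y < x} = {y | ∀ x ∈ X, y < x} := by
    ext y
    rw [hc]
    exact ⟨fun h => h.2, fun h => ⟨Set.mem_univ y, h⟩⟩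
  have h4 : {y ∈ t.car | ∀ x ∈ X, x < y} = {y | ∀ x ∈ X, x < y} := by
    ext y
    rw [hc]
    exact ⟨fun h => h.2, fun h => ⟨Set.mem_univ y, h⟩⟩
  rw [h3] at h1
  rw [h4] at h2
  exact ⟨h1, h2⟩

theorem wf_poor {t : FT L} (h : t.WF) (hc : t.car = Set.univ) {X : Set L} (hX : X ∈ t.opens)
    (hr : ¬ Rich X) : Poor X :=
  ⟨(FT.wf_open h hX).1, (FT.wf_open h hX).2, hr, (wf_bdd h hc hX).1, (wf_bdd h hc hX).2⟩

end

end Pool.Agent.RK
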