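import Pool.Agent.RK.Bdd
import Pool.Agent.RU.FTBasicB

/-!
Project RK (MP_d404c6_co), row RK-4: bounds for separated families of poor sets.
-/

set_option autoImplicit false

namespace Pool.Agent.RK

open Pool.Agent.RU

section
variable {L : Type} [LinearOrder L]

theorem CapP.mono {e : ℕ → ℝ} {K h K' h' : ℕ} (hc : CapP L e K h) (hK : K' ≤ K)
    (hh : h ≤ h') : CapP L e K' h' :=
  fun l h1 h2 h3 j hj => hc l h1 h2 (h3.trans hK) j (hh.trans hj)

theorem CapP.le {e e' : ℕ → ℝ} {K h : ℕ} (hc : CapP L e K h)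
    (he : ∀ j, h ≤ j → e j ≤ e' j) : CapP L e' K h :=
  fun l h1 h2 h3 j hj => (hc l h1 h2 h3 j hj).trans_le (he j hj)

theorem capP_exists {e : ℕ → ℝ}
    (H : ∀ l : List (Set L), (∀ A ∈ l, Poor A) → l.Pairwise Sepd →
      ∃ J, ∀ j, J ≤ j → (l.length : ℝ) < e j) (K : ℕ) : ∃ h, CapP L e K h := by
  induction K with
  | zero =>
    obtain ⟨J, hJ⟩ := H [] (fun A hA => absurd hA List.not_mem_nil) List.Pairwise.nil
    refine ⟨J, fun l _ _ hl j hj => ?_⟩
    have h0 : l = [] := List.length_eq_zero_iff.1 (Nat.le_zero.1 hl)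
    rw [h0]
    exact hJ j hj
  | succ K ih =>
    obtain ⟨h, hh⟩ := ih
    by_cases hex : ∃ l : List (Set L), (∀ A ∈ l, Poor A) ∧ l.Pairwise Sepd ∧
        l.length = K + 1
    · obtain ⟨l, h1, h2, h3⟩ := hex
      obtain ⟨J, hJ⟩ := H l h1 h2
      refine ⟨max h J, fun l' h1' h2' h3' j hj => ?_⟩
      rcases Nat.lt_or_ge l'.length (K + 1) with h4 | h4
      · exact hh l' h1' h2' (by omega) j (le_trans (le_max_left _ _) hj)
      · have h5 := hJ j (le_trans (le_max_right _ _) hj)
        have h6 : l'.length = l.length := by omega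
        rw [h6]
        exact h5
    · refine ⟨h, fun l' h1' h2' h3' j hj => ?_⟩
      rcases Nat.lt_or_ge l'.length (K + 1) with h4 | h4
      · exact hh l' h1' h2' (by omega) j hj
      · exact absurd ⟨l', h1', h2', by omega⟩ hex

open Classical in
theorem rk4_zc (Xs : List (Set L)) : zc Xs = (Xs.filter (fun X => ¬ Rich X)).length := by
  induction Xs with
  | nil => rfl
  | cons X Xs ih =>
    have h1 : zc (X :: Xs) = zi X + zc Xs := by
      unfold zc
      rw [List.map_cons, List.sum_cons]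
    rw [h1, ih, List.filter_cons]
    by_cases hX : Rich X
    · simp [zi, hX]
    · simp [zi, hX]
      omega

theorem CapP.apply {e : ℕ → ℝ} {K h : ℕ} (hc : CapP L e K h) {t : FT L} (ht : t.WF)
    (hcar : t.car = Set.univ) (hK : zc t.opens ≤ K) (j : ℕ) (hj : h ≤ j) :
    (zc t.opens : ℝ) < e j := by
  classical
  rw [rk4_zc] at hK ⊢
  refine hc _ (fun A hA => ?_) ((FT.wf_sepd ht).filter _) hK j hj
  rw [List.mem_filter] at hA
  exact wf_poor ht hcar hA.1 (by simpa using hA.2)

end

end Pool.Agent.RK
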