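import Pool.Agent.RK.Defs
import Pool.Agent.RU.Exact

/-!
Project RK, row RK-14: filling positions by finite pieces (helper47 for helper59).
-/

set_option autoImplicit false

open Filter

namespace Pool.Agent.RK

open Pool.Agent.RU

section
variable {L : Type} [LinearOrder L] {δ pt : ℕ → ℕ} {n0 W : ℕ}

theorem pt_exists {δ : ℕ → ℕ} (hm : Monotone δ) {n0 : ℕ} (hlow : ∀ i, n0 ≤ δ i) (W q : ℕ)
    (hq : (W : ℝ) * (1 / 2) ^ n0 ≤ Pm δ q) :
    ∃ pt : ℕ → ℕ, pt 0 = 0 ∧
      ∀ i < W, pt i < pt (i + 1) ∧ Pm δ (pt (i + 1)) = Pm δ (pt i) + (1 / 2) ^ n0 := by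
  have key : ∃ pt : ℕ → ℕ, pt 0 = 0 ∧ Pm δ (pt W) = (W : ℝ) * (1 / 2) ^ n0 ∧
      ∀ i < W, pt i < pt (i + 1) ∧ Pm δ (pt (i + 1)) = Pm δ (pt i) + (1 / 2) ^ n0 := by
    induction W with
    | zero =>
      refine ⟨fun _ => 0, rfl, ?_, fun i hi => absurd hi (Nat.not_lt_zero i)⟩
      simp [Pm]
    | succ W ih =>
      have hpos : (0 : ℝ) < (1 / 2) ^ n0 := by positivity
      push_cast at hq
      obtain ⟨pt, h0, hW, hpt⟩ := ih (by nlinarith)
      obtain ⟨s, hs, -, hPs⟩ := exact hm (p := pt W) (m := n0) (q := q)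
        (fun i _ => hlow i) (by rw [hW]; linarith)
      refine ⟨Function.update pt (W + 1) s, ?_, ?_, ?_⟩
      · rw [Function.update_of_ne (Nat.succ_ne_zero W).symm, h0]
      · rw [Function.update_self, hPs, hW]
        push_cast
        ring
      · intro i hi
        rcases Nat.lt_succ_iff_lt_or_eq.1 hi with h | h
        · rw [Function.update_of_ne (by omega), Function.update_of_ne (by omega)]
          exact hpt i h
        · subst h
          rw [Function.update_self, Function.update_of_ne (by omega)]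
          exact ⟨hs, hPs⟩
  obtain ⟨pt, h0, -, h⟩ := key
  exact ⟨pt, h0, h⟩

theorem rk14_no_append (b b' : List (FT L)) : no (b ++ b') = no b + no b' := by
  simp [no]

theorem rk14_sc_append {gs gs' : List (FT L)} {ds ds' : List ℕ} (h : gs.length = ds.length)
    (d : ℕ) : sc (gs ++ gs') (ds ++ ds') d = sc gs ds d + sc gs' ds' d := by
  unfold sc
  rw [List.zipWith_append h, List.sum_append]

theorem Rp.append {its its' gs gs' : List (FT L)} {ds ds' : List ℕ} {i i' i'' : ℕ}
    (h1 : Rp n0 δ pt its gs ds i i') (h2 : Rp n0 δ pt its' gs' ds' i' i'')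
    (hp : pt i ≤ pt i') (hp' : pt i' ≤ pt i'')
    (hl : ds.length = its.length)
    (hb : ∀ g ∈ gs.getLast?, ∀ g' ∈ gs'.head?, Bnd g.car g'.car) :
    Rp n0 δ pt (its ++ its') (gs ++ gs') (ds ++ ds') i i'' := by
  have hgl : gs.length = ds.length := h1.len.trans hl.symm
  refine ⟨?_, ?_, ?_, ?_, ?_, ?_, h1.le.trans h2.le, ?_⟩
  · rw [List.length_append, List.length_append, h1.len, h2.len]
  · intro g hg
    rcases List.mem_append.1 hg with h | h
    · exact h1.wf g h
    · exact h2.wf g h
  · intro q hq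
    rw [List.zip_append hgl] at hq
    rcases List.mem_append.1 hq with h | h
    · exact h1.opat q h
    · exact h2.opat q h
  · exact List.isChain_append.2 ⟨h1.chain, h2.chain, hb⟩
  · intro d
    rw [rk14_sc_append hgl, rk14_sc_append hl.symm, h1.cnt d, h2.cnt d, ← cD_add δ hp hp' d]
    ring
  · rw [rk14_no_append, rk14_no_append]
    have h3 := h1.num
    have h4 := h2.num
    omega
  · intro q hq
    rw [List.zip_append hgl] at hq
    rcases List.mem_append.1 hq with h | h
    · exact h1.nz q h
    · exact h2.nz q h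

theorem rk14_finite {g : FT L} (ho : g.opens = []) : g.car.Finite ∧ g.car.Nonempty := by
  induction g with
  | leaf x => exact ⟨Set.finite_singleton x, Set.singleton_nonempty x⟩
  | opn X => exact absurd ho (by simp [FT.opens])
  | node l r ihl ihr =>
    simp only [FT.opens, List.append_eq_nil_iff] at ho
    exact ⟨(ihl ho.1).1.union (ihr ho.2).1, (ihl ho.1).2.inl⟩

/-- a finite tree has a largest and a smallest element -/
theorem ends_of_closed {g : FT L} (hw : g.WF) (ho : g.opens = []) :
    (∃ x, IsGreatest g.car x) ∧ ∃ x, IsLeast g.car x := by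
  obtain ⟨hfin, hne⟩ := rk14_finite ho
  constructor
  · obtain ⟨x, hx, hmax⟩ := Set.exists_max_image _ id hfin hne
    exact ⟨x, hx, fun y hy => hmax y hy⟩
  · obtain ⟨x, hx, hmin⟩ := Set.exists_min_image _ id hfin hne
    exact ⟨x, hx, fun y hy => hmin y hy⟩

theorem rk14_opAt {g : FT L} (ho : g.opens = []) (b n : ℕ) : g.OpAt b n := by
  induction g generalizing b with
  | leaf x => exact trivial
  | opn X => exact absurd ho (by simp [FT.opens])
  | node l r ihl ihr =>
    simp only [FT.opens, List.append_eq_nil_iff] at ho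
    exact ⟨ihl ho.1 _, ihr ho.2 _⟩

theorem rk14_nn_lt (t : FT L) {b n : ℕ} (h : n < b) : nn t b n = 0 := by
  induction t generalizing b with
  | leaf x => rfl
  | opn X => rfl
  | node l r ihl ihr =>
    simp only [nn]
    rw [ihl (by omega), ihr (by omega), if_neg (by omega)]

theorem rk14_no_closed {gs : List (FT L)} (h : ∀ g ∈ gs, g.opens = []) : no gs = 0 := by
  unfold no
  rw [List.sum_eq_zero_iff]
  intro m hm
  obtain ⟨g, hg, rfl⟩ := List.mem_map.1 hm
  rw [h g hg, List.length_nil]

/-- one position -/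
theorem rk14_one {g0 g : FT L} {e i : ℕ} (hw : g.WF) (ho : g.opens = [])
    (hc : ∀ d, g.cnt e d = g0.cnt e d + cD δ (pt i) (pt (i + g0.opens.length)) d)
    (hz : ∀ n, n < n0 → nn g e n = 0) :
    Rp n0 δ pt [g0] [g] [e] i (i + g0.opens.length) := by
  refine ⟨rfl, ?_, ?_, ?_, ?_, ?_, Nat.le_add_right _ _, ?_⟩
  · intro g' hg'
    rw [List.mem_singleton.1 hg']
    exact hw
  · intro q hq
    rw [List.zip_cons_cons, List.zip_nil_right] at hq
    rw [List.mem_singleton.1 hq]
    exact rk14_opAt ho _ _
  · exact List.isChain_singleton _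
  · intro d
    simpa [sc] using hc d
  · simp [no, ho]
  · intro q hq n hn
    rw [List.zip_cons_cons, List.zip_nil_right] at hq
    rw [List.mem_singleton.1 hq]
    exact hz n hn

theorem rk14_pt_mono (hpt : ∀ i < W, pt i < pt (i + 1) ∧
    Pm δ (pt (i + 1)) = Pm δ (pt i) + (1 / 2) ^ n0) {i j : ℕ} (hij : i ≤ j) (hj : j ≤ W) :
    pt i ≤ pt j := by
  induction j, hij using Nat.le_induction with
  | base => exact le_rfl
  | succ j _ ih => exact (ih (by omega)).trans (hpt j (by omega)).1.le

theorem rk14_step {g0 g : FT L} {b gs : List (FT L)} {e : ℕ} {ds : List ℕ} {i : ℕ}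
    {l l' : List L}
    (h1 : Rp n0 δ pt [g0] [g] [e] i (i + g0.opens.length))
    (h2 : Rp n0 δ pt b gs ds (i + g0.opens.length) (i + g0.opens.length + no b))
    (hp : pt i ≤ pt (i + g0.opens.length))
    (hp' : pt (i + g0.opens.length) ≤ pt (i + g0.opens.length + no b))
    (hw : g.WF) (ho : g.opens = []) (hos : ∀ g' ∈ gs, g'.opens = [])
    (hc : g.car = {x | x ∈ l}) (hcs : {x | ∃ g' ∈ gs, x ∈ g'.car} = {x | x ∈ l'})
    (hll : ∀ a ∈ l, ∀ c ∈ l', a < c) :
    ∃ gs' : List (FT L), Rp n0 δ pt (g0 :: b) gs' (e :: ds) i (i + no (g0 :: b)) ∧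
      (∀ g' ∈ gs', g'.opens = []) ∧ {x | ∃ g' ∈ gs', x ∈ g'.car} = {x | x ∈ l ++ l'} := by
  refine ⟨g :: gs, ?_, ?_, ?_⟩
  · have h3 := Rp.append h1 h2 hp hp' rfl (by
      intro a ha c hc'
      rw [List.getLast?_singleton, Option.mem_some_iff] at ha
      subst ha
      refine ⟨?_, Or.inl (ends_of_closed hw ho).1⟩
      intro y hy z hz
      apply hll
      · rw [hc] at hy
        exact hy
      · have h4 : z ∈ {x | ∃ g' ∈ gs, x ∈ g'.car} := ⟨c, List.mem_of_mem_head? hc', hz⟩
        rw [hcs] at h4
        exact h4)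
    have h5 : no (g0 :: b) = g0.opens.length + no b := by simp [no]
    rw [h5, ← add_assoc]
    exact h3
  · intro g' hg'
    rcases List.mem_cons.1 hg' with h | h
    · rw [h]
      exact ho
    · exact hos g' h
  · ext x
    have h6 : (∃ g' ∈ gs, x ∈ g'.car) ↔ x ∈ l' := by
      have := Set.ext_iff.1 hcs x
      exact this
    have h7 : x ∈ g.car ↔ x ∈ l := by
      rw [hc]
      rfl
    simp only [Set.mem_ofPred_eq, List.mem_cons, exists_eq_or_imp, List.mem_append]
    rw [h6, h7]

theorem fillb (hm : Monotone δ) (hlow : ∀ i, n0 ≤ δ i)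
    (hpt : ∀ i < W, pt i < pt (i + 1) ∧ Pm δ (pt (i + 1)) = Pm δ (pt i) + (1 / 2) ^ n0)
    (b : List (FT L)) (ds : List ℕ) (hlen : ds.length = b.length)
    (hb : ∀ q ∈ b.zip ds, IsPos n0 q.1 q.2) (i : ℕ) (hi : i + no b ≤ W) (l : List L)
    (hl : l.length = need pt i b) (hs : l.Pairwise (· < ·)) :
    ∃ gs : List (FT L), Rp n0 δ pt b gs ds i (i + no b) ∧ (∀ g ∈ gs, g.opens = []) ∧
      {x | ∃ g ∈ gs, x ∈ g.car} = {x | x ∈ l} := by
  induction b generalizing ds i l with
  | nil =>
    have h1 : ds = [] := List.length_eq_zero_iff.1 hlen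
    have h2 : l = [] := List.length_eq_zero_iff.1 hl
    subst h1 h2
    refine ⟨[], ⟨rfl, ?_, ?_, List.isChain_nil, ?_, ?_, Nat.le_add_right _ _, ?_⟩, ?_, ?_⟩
    · intro g hg
      exact absurd hg List.not_mem_nil
    · intro q hq
      exact absurd hq List.not_mem_nil
    · intro d
      simp [sc, no, cD]
    · simp [no]
    · intro q hq
      exact absurd hq List.not_mem_nil
    · intro g hg
      exact absurd hg List.not_mem_nil
    · ext x
      simp
  | cons g0 b ih =>
    obtain ⟨e, ds', rfl⟩ : ∃ e ds', ds = e :: ds' := by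
      cases ds with
      | nil => simp at hlen
      | cons e ds' => exact ⟨e, ds', rfl⟩
    have hlen' : ds'.length = b.length := by simpa using hlen
    have hb0 : IsPos n0 g0 e := hb (g0, e) (by simp)
    have hb' : ∀ q ∈ b.zip ds', IsPos n0 q.1 q.2 := fun q hq => hb q (by
      rw [List.zip_cons_cons]
      exact List.mem_cons_of_mem _ hq)
    have hno : no (g0 :: b) = g0.opens.length + no b := by simp [no]
    rw [hno] at hi
    rcases hb0 with ⟨x, rfl⟩ | ⟨⟨X, rfl⟩, rfl⟩
    · obtain ⟨x0, l', rfl⟩ : ∃ x0 l', l = x0 :: l' := by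
        cases l with
        | nil =>
          simp only [need, List.length_nil] at hl
          omega
        | cons x0 l' => exact ⟨x0, l', rfl⟩
      have hs' := List.pairwise_cons.1 hs
      obtain ⟨gs, hR, hO, hC⟩ := ih ds' hlen' hb' i (by
        simp only [FT.opens, List.length_nil] at hi
        omega) l' (by
        simp only [need, List.length_cons] at hl
        omega) hs'.2
      have h1 : Rp n0 δ pt [FT.leaf x] [FT.leaf x0] [e] i (i + (FT.leaf x).opens.length) :=
        rk14_one trivial rfl (fun d => by simp [FT.cnt, FT.opens, cD]) (fun n _ => rfl)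
      exact rk14_step (l := [x0]) (l' := l') h1 hR le_rfl
        (rk14_pt_mono hpt (Nat.le_add_right _ _) (by
          simp only [FT.opens, List.length_nil] at hi ⊢
          omega)) trivial rfl hO (by
            ext y
            simp [FT.car]) hC (by
            intro a ha c hc
            rw [List.mem_singleton.1 ha]
            exact hs'.1 c hc)
    · simp only [FT.opens, List.length_singleton] at hi
      have hiW : i < W := by omega
      obtain ⟨hlt, hP⟩ := hpt i hiW
      have hl' : l.length = (pt (i + 1) - pt i) + need pt (i + 1) b := hl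
      have hsplit : (l.take (pt (i + 1) - pt i) ++ l.drop (pt (i + 1) - pt i)).Pairwise
          (· < ·) := by
        rw [List.take_append_drop]
        exact hs
      rw [List.pairwise_append] at hsplit
      obtain ⟨t, hW, hO, hC, hN⟩ := fin_tree hm e (pt i) (pt (i + 1)) hlt.le
        (fun j _ => hlow j) hP (l.take (pt (i + 1) - pt i))
        (by rw [List.length_take, hl']; omega) hsplit.1
      obtain ⟨gs, hR', hO', hC'⟩ := ih ds' hlen' hb' (i + 1) (by omega)
        (l.drop (pt (i + 1) - pt i)) (by rw [List.length_drop, hl']; omega) hsplit.2.1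
      have h1 : Rp e δ pt [FT.opn X] [t] [e] i (i + (FT.opn X).opens.length) :=
        rk14_one hW hO (fun d => by simpa [FT.cnt, FT.opens] using hN d)
          (fun n hn => rk14_nn_lt t hn)
      have h2 := rk14_step (l := l.take (pt (i + 1) - pt i))
        (l' := l.drop (pt (i + 1) - pt i)) h1 hR' hlt.le
        (rk14_pt_mono hpt (Nat.le_add_right _ _) (by
          simp only [FT.opens, List.length_singleton]
          omega)) hW hO hO' hC hC' hsplit.2.2
      rw [List.take_append_drop] at h2
      exact h2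

end

end Pool.Agent.RK
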