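import Pool.Agent.RK.Defs
import Pool.Agent.RU.Refresh
import Pool.Agent.RU.ScatRuns

/-!
Project RK (MP_d404c6_co), row RK-2a: runs in infinite scattered intervals.
-/

set_option autoImplicit false

open Filter

namespace Pool.Agent.RK

open Pool.Agent.RU

section
variable {L : Type} [LinearOrder L]

/-- an infinite interval inside an interval which is not rich contains arbitrarily long finite
intervals -/
theorem rk2_long {X : Set L} (hc : X.OrdConnected) (hs : ¬ Rich X) {A : Set L} (hA : A ⊆ X)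
    (hinf : A.Infinite) (hAc : A.OrdConnected) (M : ℕ) :
    ∃ J ⊆ A, J.Finite ∧ J.OrdConnected ∧ M ≤ J.ncard := by
  have h0 : ¬ ∃ f : ℚ → X, StrictMono f := by
    rintro ⟨f, hf⟩
    exact hs ⟨fun q => (f q : L), fun a b hab => hf hab, fun q => (f q).2⟩
  have h1 : LongRunsL X := longRuns_of_scattered h0
  have himg : (Subtype.val '' ((Subtype.val : X → L) ⁻¹' A)) = A := by
    rw [Set.image_preimage_eq_inter_range, Subtype.range_coe]
    exact Set.inter_eq_left.2 hA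
  have hinf' : ((Subtype.val : X → L) ⁻¹' A).Infinite := by
    intro hfin
    apply hinf
    rw [← himg]
    exact hfin.image _
  have hAc' : ((Subtype.val : X → L) ⁻¹' A).OrdConnected :=
    hAc.preimage_mono (fun a b hab => hab)
  obtain ⟨J, hJA, hJf, hJc, hJM⟩ := h1 _ hinf' hAc' M
  refine ⟨Subtype.val '' J, ?_, hJf.image _, ?_, ?_⟩
  · rintro z ⟨y, hy, rfl⟩
    exact hJA hy
  · refine ⟨?_⟩
    rintro a ⟨a', ha', rfl⟩ b ⟨b', hb', rfl⟩ z hz
    have hzX : z ∈ X := hc.out a'.2 b'.2 hz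
    exact ⟨⟨z, hzX⟩, hJc.out ha' hb' ⟨hz.1, hz.2⟩, rfl⟩
  · rw [Set.ncard_image_of_injective _ Subtype.val_injective]
    exact hJM

theorem refreshP {X : Set L} (hX : X.Infinite) (hc : X.OrdConnected) (hs : ¬ Rich X) (M : ℕ) :
    Run X M ∨ ∃ A B, Branch X A B ∧ Run A M ∧ Run B M := by
  by_cases hM : M = 0
  · left
    rw [hM]
    exact ⟨true, [], X, rfl, Peel.nil X⟩
  · obtain ⟨J, hJX, hJf, hJc, hJM⟩ := rk2_long hc hs (le_refl X) hX hc (2 * M)
    obtain ⟨y, hy, h1, h2⟩ := ru12_mid hJf (M := M) (by omega) hJM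
    have hsA : {z ∈ J | z ≤ y} ⊆ {z ∈ X | z ≤ y} := fun z hz => ⟨hJX hz.1, hz.2⟩
    have hsB : {z ∈ J | y < z} ⊆ {z ∈ X | y < z} := fun z hz => ⟨hJX hz.1, hz.2⟩
    by_cases hA : {z ∈ X | z ≤ y}.Finite
    · left
      refine ⟨false, ru12_left M hA (fun z hz => hz.1) ?_ ?_⟩
      · intro a ha z hz hza
        exact ⟨hz, (hza.trans_le ha.2).le⟩
      · exact h1.trans (Set.ncard_le_ncard hsA hA)
    · by_cases hB : {z ∈ X | y < z}.Finite
      · left
        refine ⟨true, ru12_right M hB (fun z hz => hz.1) ?_ ?_⟩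
        · intro a ha z hz hza
          exact ⟨hz, lt_trans ha.2 hza⟩
        · exact h2.trans (Set.ncard_le_ncard hsB hB)
      · right
        refine ⟨{z ∈ X | z ≤ y}, {z ∈ X | y < z}, ru12_branch hc (hJX hy) hA hB, ?_, ?_⟩
        · refine ⟨true, ru12_right M (F := {z ∈ J | z ≤ y}) (hJf.subset (fun z hz => hz.1)) hsA
            ?_ h1⟩
          intro a ha z hz haz
          exact ⟨hJc.out ha.1 hy ⟨haz.le, hz.2⟩, hz.2⟩
        · refine ⟨false, ru12_left M (F := {z ∈ J | y < z}) (hJf.subset (fun z hz => hz.1)) hsB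
            ?_ h2⟩
          intro a ha z hz hza
          exact ⟨hJc.out hy ha.1 ⟨hz.2.le, hza.le⟩, hz.2⟩

theorem long_run {X : Set L} (hX : X.Infinite) (hc : X.OrdConnected) (hs : ¬ Rich X) (M : ℕ) :
    ∃ l : List L, l.length = M ∧ l.Pairwise (· < ·) ∧ (∀ x ∈ l, x ∈ X) ∧
      ∀ z ∈ X, z ∉ l → (∀ x ∈ l, z < x) ∨ ∀ x ∈ l, x < z := by
  classical
  obtain ⟨J, hJX, hJf, hJc, hJM⟩ := rk2_long hc hs (le_refl X) hX hc M
  set F : Finset L := hJf.toFinset with hF
  have hFJ : ∀ z, z ∈ F ↔ z ∈ J := fun z => hJf.mem_toFinset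
  have hcard : F.card = J.ncard := (Set.ncard_eq_toFinset_card J hJf).symm
  set e := F.orderEmbOfFin rfl with he
  have hmem : ∀ i, e i ∈ J := fun i => (hFJ _).1 (Finset.orderEmbOfFin_mem F rfl i)
  refine ⟨List.ofFn (fun i : Fin M => e ⟨i.1, by omega⟩), List.length_ofFn, ?_, ?_, ?_⟩
  · rw [List.pairwise_ofFn]
    intro i j hij
    exact e.strictMono hij
  · intro x hx
    rw [List.mem_ofFn] at hx
    obtain ⟨i, rfl⟩ := hx
    exact hJX (hmem _)
  · intro z hz hzl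
    by_contra hcon
    rw [not_or] at hcon
    obtain ⟨h1, h2⟩ := hcon
    push Not at h1 h2
    obtain ⟨x, hx, hxz⟩ := h1
    obtain ⟨y, hy, hzy⟩ := h2
    rw [List.mem_ofFn] at hx hy
    obtain ⟨i, rfl⟩ := hx
    obtain ⟨j, rfl⟩ := hy
    have hzJ : z ∈ J := hJc.out (hmem _) (hmem _) ⟨hxz, hzy⟩
    have hzF : z ∈ Set.range e := by
      rw [he, Finset.range_orderEmbOfFin]
      exact (hFJ z).2 hzJ
    obtain ⟨k, hk⟩ := hzF
    apply hzl
    rw [List.mem_ofFn]
    have hkj : k ≤ ⟨j.1, by omega⟩ := by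
      rw [← e.le_iff_le, hk]
      exact hzy
    have hkj' : k.1 ≤ j.1 := hkj
    exact ⟨⟨k.1, by omega⟩, hk⟩

end

end Pool.Agent.RK
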