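import Pool.Agent.RK.Rich
import Pool.Agent.RK.Runs2
import Pool.Agent.RK.Fillb

/-!
Project RK (MP_d404c6_co), row RK-15a: the positions between two rich ones.
-/

set_option autoImplicit false

open Filter

namespace Pool.Agent.RK

open Pool.Agent.RU

section
variable {L : Type} {δ pt : ℕ → ℕ} {n0 W : ℕ}

theorem rk15a_pos {b : List (FT L)} {ds : List ℕ} (hlen : ds.length = b.length)
    (hb : ∀ q ∈ b.zip ds, IsPos n0 q.1 q.2) :
    ∀ g ∈ b, (∃ x, g = FT.leaf x) ∨ ∃ X, g = FT.opn X := by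
  induction b generalizing ds with
  | nil => exact fun g hg => absurd hg List.not_mem_nil
  | cons g0 b ih =>
    cases ds with
    | nil => simp at hlen
    | cons e ds =>
      intro g hg
      rcases List.mem_cons.1 hg with h | h
      · subst h
        rcases hb (g, e) (by simp) with h1 | ⟨h1, -⟩
        · exact Or.inl h1
        · exact Or.inr h1
      · exact ih (ds := ds) (by simpa using hlen) (fun q hq => hb q (by
          rw [List.zip_cons_cons]
          exact List.mem_cons_of_mem _ hq)) g h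

theorem rk15a_car_cons (g0 : FT L) (b : List (FT L)) :
    {x | ∃ g ∈ g0 :: b, x ∈ g.car} = g0.car ∪ {x | ∃ g ∈ b, x ∈ g.car} := by
  ext x
  simp

theorem rk15a_need_pos (hpt : ∀ i < W, pt i < pt (i + 1) ∧
      Pm δ (pt (i + 1)) = Pm δ (pt i) + (1 / 2) ^ n0) {b : List (FT L)}
    (hp : ∀ g ∈ b, (∃ x, g = FT.leaf x) ∨ ∃ X, g = FT.opn X) (hne : b ≠ []) {i : ℕ}
    (hi : i + no b ≤ W) : 1 ≤ need pt i b := by
  cases b with
  | nil => exact absurd rfl hne
  | cons g b =>
    rcases hp g (List.mem_cons_self ..) with ⟨x, rfl⟩ | ⟨X, rfl⟩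
    · simp [need]
    · have h1 : no (FT.opn X :: b) = 1 + no b := by simp [no, FT.opens]
      have h2 := (hpt i (by omega)).1
      have h3 : need pt i (FT.opn X :: b) = (pt (i + 1) - pt i) + need pt (i + 1) b := rfl
      omega

variable [LinearOrder L]

/-- the positions of `b` are not rich -/
theorem rk15a_poor {b : List (FT L)} (hp : ∀ g ∈ b, (∃ x, g = FT.leaf x) ∨ ∃ X, g = FT.opn X)
    (hnr : ∀ X, FT.opn X ∈ b → ¬ Rich X)
    (hbl : b.Pairwise (fun g g' => ∀ a ∈ g.car, ∀ x ∈ g'.car, a < x)) :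
    ¬ Rich {x | ∃ g ∈ b, x ∈ g.car} := by
  induction b with
  | nil =>
    intro h
    obtain ⟨f, -, hf⟩ := h
    obtain ⟨g, hg, -⟩ := hf 0
    exact absurd hg List.not_mem_nil
  | cons g0 b ih =>
    rw [rk15a_car_cons]
    rw [List.pairwise_cons] at hbl
    intro h
    rcases h.union (by
      rintro a ha c ⟨g, hg, hc⟩
      exact hbl.1 g hg a ha c hc) with h1 | h1
    · rcases hp g0 (List.mem_cons_self ..) with ⟨x, rfl⟩ | ⟨X, rfl⟩
      · exact h1.infinite (Set.finite_singleton x)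
      · exact hnr X (List.mem_cons_self ..) h1
    · exact ih (fun g hg => hp g (List.mem_cons_of_mem _ hg))
        (fun X hX => hnr X (List.mem_cons_of_mem _ hX)) hbl.2 h1

/-- one open position which stays open -/
theorem rk15a_one (P E : Set L) (hE : E.Infinite) (hc : E.OrdConnected) (i : ℕ) :
    Rp n0 δ pt [FT.opn P] [FT.opn E] [n0] i i := by
  refine ⟨rfl, ?_, ?_, ?_, ?_, ?_, le_rfl, ?_⟩
  · intro g hg
    rw [List.mem_singleton.1 hg]
    exact ⟨hE, hc⟩
  · intro q hq
    rw [List.zip_cons_cons, List.zip_nil_right] at hq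
    rw [List.mem_singleton.1 hq]
    exact rfl
  · exact List.isChain_singleton _
  · intro d
    simp [sc, FT.cnt, cD]
  · simp [no, FT.opens]
  · intro q hq n hn
    rw [List.zip_cons_cons, List.zip_nil_right] at hq
    rw [List.mem_singleton.1 hq]
    rfl

/-- positions which are all leaves can be kept -/
theorem rk15a_keep {b : List (FT L)} {ds : List ℕ}
    (hp : ∀ g ∈ b, ∃ x, g = FT.leaf x)
    (hbl : b.Pairwise (fun g g' => ∀ a ∈ g.car, ∀ x ∈ g'.car, a < x)) (i : ℕ) :
    Rp n0 δ pt b b ds i i := by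
  refine ⟨rfl, ?_, ?_, ?_, ?_, rfl, le_rfl, ?_⟩
  · intro g hg
    obtain ⟨x, rfl⟩ := hp g hg
    exact trivial
  · intro q hq
    obtain ⟨x, hx⟩ := hp q.1 (List.of_mem_zip hq).1
    rw [hx]
    exact trivial
  · refine (hbl.imp_of_mem ?_).isChain
    intro g g' hg _ h
    refine ⟨h, Or.inl ?_⟩
    obtain ⟨x, rfl⟩ := hp g hg
    exact ⟨x, isGreatest_singleton⟩
  · intro d
    simp [cD]
  · intro q hq n _
    obtain ⟨x, hx⟩ := hp q.1 (List.of_mem_zip hq).1
    rw [hx]
    rfl

theorem mid_block (hm : Monotone δ) (hlow : ∀ i, n0 ≤ δ i)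
    (hpt : ∀ i < W, pt i < pt (i + 1) ∧ Pm δ (pt (i + 1)) = Pm δ (pt i) + (1 / 2) ^ n0)
    {P : Set L} (hP : Rich P) (b : List (FT L)) (ds : List ℕ) (hlen : ds.length = b.length)
    (hb : ∀ q ∈ b.zip ds, IsPos n0 q.1 q.2)
    (hnr : ∀ X, FT.opn X ∈ b → ¬ Rich X ∧ X.Infinite)
    (hlt : ∀ g ∈ b, ∀ a ∈ P, ∀ x ∈ g.car, a < x)
    (hbl : b.Pairwise (fun g g' => ∀ a ∈ g.car, ∀ x ∈ g'.car, a < x))
    (hU : (P ∪ {x | ∃ g ∈ b, x ∈ g.car}).OrdConnected) (i : ℕ) (hi : i + no b ≤ W) :
    ∃ (E : Set L) (gs : List (FT L)) (R : Set L) (i' : ℕ), Rich E ∧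
      Rp n0 δ pt (FT.opn P :: b) (FT.opn E :: gs) (n0 :: ds) i i' ∧
      (∀ g ∈ gs, g.opens = []) ∧
      P ∪ {x | ∃ g ∈ b, x ∈ g.car} = {x | ∃ g ∈ FT.opn E :: gs, x ∈ g.car} ∪ R ∧
      (∀ g ∈ FT.opn E :: gs, ∀ a ∈ g.car, ∀ x ∈ R, a < x) ∧
      (∀ g ∈ (FT.opn E :: gs).getLast?, ∃ x, IsGreatest g.car x) := by
  have hp := rk15a_pos hlen hb
  by_cases hne : b = []
  · subst hne
    have hds : ds = [] := List.length_eq_zero_iff.1 hlen
    subst hds
    have hPe : P ∪ {x | ∃ g ∈ ([] : List (FT L)), x ∈ g.car} = P := by simp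
    rw [hPe] at hU ⊢
    obtain ⟨-, A, B, -, hbr, hA, hB, hx⟩ := hP.branch hU
    refine ⟨A, [], B, i, hA, rk15a_one P A hbr.infA hbr.ocA i, ?_, ?_, ?_, ?_⟩
    · exact fun g hg => absurd hg List.not_mem_nil
    · rw [rk15a_car_cons, ← hbr.union]
      simp [FT.car]
    · intro g hg a ha x hx
      rw [List.mem_singleton.1 hg] at ha
      exact hbr.lt a ha x hx
    · intro g hg
      rw [List.getLast?_singleton, Option.mem_some_iff] at hg
      subst hg
      exact hx
  -- order facts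
  have hPU : ∀ a ∈ P, ∀ x ∈ {x | ∃ g ∈ b, x ∈ g.car}, a < x := by
    rintro a ha x ⟨g, hg, hx⟩
    exact hlt g hg a ha x hx
  have hPc : P.OrdConnected := by
    refine ⟨fun a ha c hc z hz => ?_⟩
    rcases hU.out (Or.inl ha) (Or.inl hc) hz with h | h
    · exact h
    · exact absurd (hPU c hc z h) (not_lt.2 hz.2)
  have hUc : {x | ∃ g ∈ b, x ∈ g.car}.OrdConnected := by
    refine ⟨fun a ha c hc z hz => ?_⟩
    rcases hU.out (Or.inr ha) (Or.inr hc) hz with h | h
    · exact absurd (hPU z h a ha) (not_lt.2 hz.1)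
    · exact h
  by_cases hop : ∃ X, FT.opn X ∈ b
  · obtain ⟨X, hX⟩ := hop
    have hUi : {x | ∃ g ∈ b, x ∈ g.car}.Infinite :=
      (hnr X hX).2.mono (fun x hx => ⟨FT.opn X, hX, hx⟩)
    have hUr := rk15a_poor hp (fun X hX => (hnr X hX).1) hbl
    have hM := rk15a_need_pos hpt hp hne hi
    obtain ⟨l, hll, hls, hlU, hlz⟩ := long_run hUi hUc hUr (need pt i b)
    obtain ⟨gs, hR, hO, hC⟩ := fillb hm hlow hpt b ds hlen hb i hi l hll hls
    obtain ⟨y, hy⟩ : ∃ y, y ∈ l := by
      cases l with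
      | nil => simp only [List.length_nil] at hll; omega
      | cons y l => exact ⟨y, List.mem_cons_self ..⟩
    have hC' : ∀ z, (∃ g ∈ gs, z ∈ g.car) ↔ z ∈ l := fun z => Set.ext_iff.1 hC z
    have hgl : gs.length = b.length := hR.len
    set E : Set L := P ∪ {z ∈ {x | ∃ g ∈ b, x ∈ g.car} | ∀ x ∈ l, z < x} with hE
    have hEl : ∀ a ∈ E, ∀ x ∈ l, a < x := by
      rintro a (ha | ha) x hx
      · exact hPU a ha x (hlU x hx)
      · exact ha.2 x hx
    have hER : Rich E := hP.mono Set.subset_union_left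
    have hEc : E.OrdConnected := by
      refine ⟨fun a ha c hc z hz => ?_⟩
      have ha' : a ∈ P ∪ {x | ∃ g ∈ b, x ∈ g.car} := ha.imp id (fun h => h.1)
      have hc' : c ∈ P ∪ {x | ∃ g ∈ b, x ∈ g.car} := hc.imp id (fun h => h.1)
      rcases hU.out ha' hc' hz with h | h
      · exact Or.inl h
      · exact Or.inr ⟨h, fun x hx => lt_of_le_of_lt hz.2 (hEl c hc x hx)⟩
    refine ⟨E, gs, {z ∈ {x | ∃ g ∈ b, x ∈ g.car} | ∀ x ∈ l, x < z}, i + no b, hER, ?_, hO,
      ?_, ?_, ?_⟩
    · have h1 := rk15a_one (n0 := n0) (δ := δ) (pt := pt) P E hER.infinite hEc i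
      have h2 := Rp.append h1 hR le_rfl (rk14_pt_mono hpt (Nat.le_add_right _ _) hi) rfl (by
        intro a ha c hc
        rw [List.getLast?_singleton, Option.mem_some_iff] at ha
        subst ha
        have hcm : c ∈ gs := List.mem_of_mem_head? hc
        refine ⟨?_, Or.inr (ends_of_closed (hR.wf c hcm) (hO c hcm)).2⟩
        intro u hu v hv
        exact hEl u hu v ((hC' v).1 ⟨c, hcm, hv⟩))
      exact h2
    · rw [rk15a_car_cons]
      ext z
      constructor
      · rintro (h | h)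
        · exact Or.inl (Or.inl (Or.inl h))
        · by_cases hz : z ∈ l
          · exact Or.inl (Or.inr ((hC' z).2 hz))
          · rcases hlz z h hz with h1 | h1
            · exact Or.inl (Or.inl (Or.inr ⟨h, h1⟩))
            · exact Or.inr ⟨h, h1⟩
      · rintro ((h | h) | h)
        · exact h.imp id (fun h => h.1)
        · exact Or.inr (hlU z ((hC' z).1 h))
        · exact Or.inr h.1
    · intro g hg a ha x hx
      rcases List.mem_cons.1 hg with h | h
      · subst h
        exact (hEl a ha y hy).trans (hx.2 y hy)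
      · exact hx.2 a ((hC' a).1 ⟨g, h, ha⟩)
    · intro g hg
      have hgne : gs ≠ [] := by
        intro h
        rw [h] at hgl
        exact hne (List.length_eq_zero_iff.1 hgl.symm)
      have hgm : g ∈ gs := by
        rw [List.getLast?_cons, List.getLast?_eq_getLast_of_ne_nil hgne] at hg
        simp only [Option.getD_some, Option.mem_def, Option.some.injEq] at hg
        subst hg
        exact List.getLast_mem hgne
      exact (ends_of_closed (hR.wf g hgm) (hO g hgm)).1
  · have hpl : ∀ g ∈ b, ∃ x, g = FT.leaf x := by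
      intro g hg
      rcases hp g hg with h | ⟨X, h⟩
      · exact h
      · exact absurd ⟨X, h ▸ hg⟩ hop
    have hK := rk15a_keep (ds := ds) (n0 := n0) (δ := δ) (pt := pt) hpl hbl i
    have h1 := rk15a_one (n0 := n0) (δ := δ) (pt := pt) P P hP.infinite hPc i
    refine ⟨P, b, ∅, i, hP, ?_, ?_, ?_, ?_, ?_⟩
    · exact Rp.append h1 hK le_rfl le_rfl rfl (by
        intro a ha c hc
        rw [List.getLast?_singleton, Option.mem_some_iff] at ha
        subst ha
        have hcm : c ∈ b := List.mem_of_mem_head? hc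
        refine ⟨hlt c hcm, Or.inr ?_⟩
        obtain ⟨x, rfl⟩ := hpl c hcm
        exact ⟨x, isLeast_singleton⟩)
    · intro g hg
      obtain ⟨x, rfl⟩ := hpl g hg
      rfl
    · rw [rk15a_car_cons, Set.union_empty]
      rfl
    · exact fun g _ a _ x hx => absurd hx (Set.notMem_empty x)
    · intro g hg
      have hgm : g ∈ b := by
        rw [List.getLast?_cons, List.getLast?_eq_getLast_of_ne_nil hne] at hg
        simp only [Option.getD_some, Option.mem_def, Option.some.injEq] at hg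
        subst hg
        exact List.getLast_mem hne
      obtain ⟨x, rfl⟩ := hpl g hgm
      exact ⟨x, isGreatest_singleton⟩

end

end Pool.Agent.RK
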