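import Pool.Agent.RK.Defs
import Pool.Agent.RU.Refresh

/-!
Project RK (MP_d404c6_co), row RK-1: sets which contain a copy of the rationals.
-/

set_option autoImplicit false

open Filter

namespace Pool.Agent.RK

open Pool.Agent.RU

theorem rk1_up (q : ℚ) : ∃ φ : ℚ → ℚ, StrictMono φ ∧ ∀ r, q < φ r := by
  have hn : Nontrivial (Set.Ioi q) :=
    ⟨⟨q + 1, by simp⟩, ⟨q + 2, by simp⟩, by
      intro h
      have := congrArg Subtype.val h
      simp at this⟩
  obtain ⟨e⟩ := Order.embedding_from_countable_to_dense ℚ (Set.Ioi q)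
  exact ⟨fun r => (e r : ℚ), fun a b h => e.strictMono h, fun r => (e r).2⟩

theorem rk1_down (q : ℚ) : ∃ φ : ℚ → ℚ, StrictMono φ ∧ ∀ r, φ r < q := by
  obtain ⟨φ, h1, h2⟩ := rk1_up (-q)
  refine ⟨fun r => -φ (-r), fun a b h => ?_, fun r => ?_⟩
  · exact neg_lt_neg (h1 (neg_lt_neg h))
  · have := h2 (-r)
    exact neg_lt.1 this

section
variable {L : Type} [LinearOrder L]

theorem Rich.infinite {X : Set L} (h : Rich X) : X.Infinite := by
  obtain ⟨f, hf, hX⟩ := h
  exact Set.infinite_of_injective_forall_mem hf.injective hX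

theorem Rich.mono {X Y : Set L} (h : Rich X) (hs : X ⊆ Y) : Rich Y := by
  obtain ⟨f, hf, hX⟩ := h
  exact ⟨f, hf, fun q => hs (hX q)⟩

theorem Rich.union {A B : Set L} (h : Rich (A ∪ B)) (hlt : ∀ a ∈ A, ∀ b ∈ B, a < b) :
    Rich A ∨ Rich B := by
  obtain ⟨f, hf, hX⟩ := h
  by_cases hB : ∃ q, f q ∈ B
  · right
    obtain ⟨q, hq⟩ := hB
    obtain ⟨φ, h1, h2⟩ := rk1_up q
    refine ⟨fun r => f (φ r), hf.comp h1, fun r => ?_⟩
    rcases hX (φ r) with h | h
    · exact absurd (hlt _ h _ hq) (not_lt_of_gt (hf (h2 r)))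
    · exact h
  · left
    refine ⟨f, hf, fun q => ?_⟩
    rcases hX q with h | h
    · exact h
    · exact absurd ⟨q, h⟩ hB

theorem Rich.sdiff {X : Set L} (h : Rich X) (x : L) : Rich (X \ {x}) := by
  obtain ⟨f, hf, hX⟩ := h
  by_cases hx : ∃ q, f q = x
  · obtain ⟨q, rfl⟩ := hx
    obtain ⟨φ, h1, h2⟩ := rk1_up q
    exact ⟨fun r => f (φ r), hf.comp h1, fun r => ⟨hX _, fun h => (hf (h2 r)).ne' h⟩⟩
  · exact ⟨f, hf, fun q => ⟨hX q, fun h => hx ⟨q, h⟩⟩⟩

theorem rich_peel {s : Bool} {X X' : Set L} {l : List L} (h : Peel s X l X') :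
    Rich X' ↔ Rich X := by
  induction h with
  | nil X => exact Iff.rfl
  | cons h h' ih => exact ih.trans ⟨fun h => h.mono Set.sdiff_subset, fun h => h.sdiff _⟩

theorem Rich.branch {X : Set L} (h : Rich X) (hc : X.OrdConnected) : ∃ i, RB X i := by
  obtain ⟨f, hf, hX⟩ := h
  obtain ⟨φ, h1, h2⟩ := rk1_up 0
  obtain ⟨ψ, h3, h4⟩ := rk1_down 0
  have hA : Rich {y ∈ X | y < f 0} :=
    ⟨fun r => f (ψ r), hf.comp h3, fun r => ⟨hX _, hf (h4 r)⟩⟩
  have hB : Rich {y ∈ X | f 0 < y} :=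
    ⟨fun r => f (φ r), hf.comp h1, fun r => ⟨hX _, hf (h2 r)⟩⟩
  exact ⟨_, _, _, rfl, branch_at hc (hX 0) hA.infinite hB.infinite,
    hA.mono (fun y hy => ⟨hy.1, hy.2.le⟩), hB, f 0, ⟨hX 0, le_rfl⟩, fun y hy => hy.2⟩

theorem zi_rich {X : Set L} (h : Rich X) : zi X = 0 := if_pos h

theorem zi_poor {X : Set L} (h : ¬ Rich X) : zi X = 1 := if_neg h

theorem zi_le (X : Set L) : zi X ≤ 1 := by
  unfold zi
  split_ifs <;> omega

theorem ei_le (X : Set L) : ei X ≤ 1 := by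
  unfold ei
  split_ifs <;> omega

theorem zi_branch {X A B : Set L} (h : Branch X A B) : zi A + zi B ≤ zi X + 1 := by
  by_cases hX : Rich X
  · rw [zi_rich hX]
    have hAB : Rich (A ∪ B) := by
      rw [h.union]
      exact hX
    rcases hAB.union h.lt with hA | hB
    · rw [zi_rich hA]
      have := zi_le B
      omega
    · rw [zi_rich hB]
      have := zi_le A
      omega
  · rw [zi_poor hX]
    have h1 := zi_le A
    have h2 := zi_le B
    omega

theorem zi_branch_poor {X A B : Set L} (h : Branch X A B) (hX : ¬ Rich X) :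
    zi A + zi B = 2 := by
  have hA : ¬ Rich A := fun hA => hX (hA.mono (h.union ▸ Set.subset_union_left))
  have hB : ¬ Rich B := fun hB => hX (hB.mono (h.union ▸ Set.subset_union_right))
  rw [zi_poor hA, zi_poor hB]

end

end Pool.Agent.RK
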