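import Pool.Agent.RK.Defs
import Pool.Agent.RU.Runs
import Pool.Agent.RK.Rich
import Pool.Agent.RK.Runs2

/-!
RK-2b: splitting a scattered interval on one side.
-/

set_option autoImplicit false

namespace Pool.Agent.RK

open Pool.Agent.RU

section
variable {L : Type} [LinearOrder L]

private theorem rk2b_inf_left {X : Set L} (hn : ¬ ∃ x, IsLeast X x) {y : L} (hy : y ∈ X) :
    {z ∈ X | z < y}.Infinite := by
  intro hf
  apply hn
  have h1 : (insert y {z ∈ X | z < y}).Finite := hf.insert y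
  obtain ⟨x, hx, hmin⟩ := h1.exists_minimal ⟨y, Set.mem_insert _ _⟩
  have hle : ∀ z ∈ insert y {z ∈ X | z < y}, x ≤ z := by
    intro z hz
    rcases le_total x z with h | h
    · exact h
    · exact hmin hz h
  refine ⟨x, ?_, ?_⟩
  · rcases Set.mem_insert_iff.1 hx with rfl | h
    · exact hy
    · exact h.1
  · intro z hz
    rcases lt_or_ge z y with h | h
    · exact hle z (Set.mem_insert_of_mem _ ⟨hz, h⟩)
    · exact (hle y (Set.mem_insert _ _)).trans h

private theorem rk2b_inf_right {X : Set L} (hn : ¬ ∃ x, IsGreatest X x) {y : L} (hy : y ∈ X) :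
    {z ∈ X | y < z}.Infinite := by
  intro hf
  apply hn
  have h1 : (insert y {z ∈ X | y < z}).Finite := hf.insert y
  obtain ⟨x, hx, hmax⟩ := h1.exists_maximal ⟨y, Set.mem_insert _ _⟩
  have hle : ∀ z ∈ insert y {z ∈ X | y < z}, z ≤ x := by
    intro z hz
    rcases le_total z x with h | h
    · exact h
    · exact hmax hz h
  refine ⟨x, ?_, ?_⟩
  · rcases Set.mem_insert_iff.1 hx with rfl | h
    · exact hy
    · exact h.1
  · intro z hz
    rcases lt_or_ge y z with h | h
    · exact hle z (Set.mem_insert_of_mem _ ⟨hz, h⟩)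
    · exact h.trans (hle y (Set.mem_insert _ _))

private theorem rk2b_min {X : Set L} (hX : X.Nonempty) (l : List L) (hl : ∀ x ∈ l, x ∈ X) :
    ∃ x₀ ∈ X, ∀ x ∈ l, x₀ ≤ x := by
  induction l with
  | nil =>
    obtain ⟨y, hy⟩ := hX
    exact ⟨y, hy, fun x hx => absurd hx List.not_mem_nil⟩
  | cons a l ih =>
    obtain ⟨y, hy, h1⟩ := ih fun x hx => hl x (List.mem_cons_of_mem _ hx)
    rcases le_total a y with h | h
    · refine ⟨a, hl a List.mem_cons_self, fun x hx => ?_⟩
      rcases List.mem_cons.1 hx with rfl | hx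
      · exact le_rfl
      · exact h.trans (h1 x hx)
    · refine ⟨y, hy, fun x hx => ?_⟩
      rcases List.mem_cons.1 hx with rfl | hx
      · exact h
      · exact h1 x hx

private theorem rk2b_max {X : Set L} (hX : X.Nonempty) (l : List L) (hl : ∀ x ∈ l, x ∈ X) :
    ∃ x₀ ∈ X, ∀ x ∈ l, x ≤ x₀ := by
  induction l with
  | nil =>
    obtain ⟨y, hy⟩ := hX
    exact ⟨y, hy, fun x hx => absurd hx List.not_mem_nil⟩
  | cons a l ih =>
    obtain ⟨y, hy, h1⟩ := ih fun x hx => hl x (List.mem_cons_of_mem _ hx)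
    rcases le_total y a with h | h
    · refine ⟨a, hl a List.mem_cons_self, fun x hx => ?_⟩
      rcases List.mem_cons.1 hx with rfl | hx
      · exact le_rfl
      · exact (h1 x hx).trans h
    · refine ⟨y, hy, fun x hx => ?_⟩
      rcases List.mem_cons.1 hx with rfl | hx
      · exact h
      · exact h1 x hx

private theorem rk2b_snoc {s : Bool} {X X' : Set L} {l : List L} (h : Peel s X l X') {x : L}
    (hx : IsEnd s X' x) : Peel s X (l ++ [x]) (X' \ {x}) := by
  induction h with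
  | nil X => exact Peel.cons hx (Peel.nil _)
  | cons h h' ih => exact Peel.cons h (ih hx)

/-- either there are end runs of every length, or after a finite end run there is no further end
element -/
private theorem rk2b_cases (s : Bool) (X : Set L) :
    (∀ M, ERun s X M) ∨ ∃ l X', Peel s X l X' ∧ ¬ ∃ x, IsEnd s X' x := by
  classical
  by_cases hall : ∀ M, ERun s X M
  · exact Or.inl hall
  · right
    push Not at hall
    have h1 := Nat.find_spec hall
    have h2 := fun m (hm : m < Nat.find hall) => Nat.find_min hall hm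
    rcases h3 : Nat.find hall with _ | k
    · rw [h3] at h1
      exact absurd ⟨[], X, rfl, Peel.nil X⟩ h1
    · rw [h3] at h1
      obtain ⟨l, X', hl, hp⟩ := not_not.1 (h2 k (by omega))
      refine ⟨l, X', hp, ?_⟩
      rintro ⟨x, hx⟩
      exact h1 ⟨l ++ [x], X' \ {x}, by rw [List.length_append, hl]; rfl, rk2b_snoc hp hx⟩

theorem split_left {X : Set L} (hX : X.Infinite) (hc : X.OrdConnected) (hs : ¬ Rich X) :
    (∀ M, ∃ l : List L, l.length = M ∧ l.Pairwise (· < ·) ∧ (∀ x ∈ l, x ∈ X) ∧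
      (∀ z ∈ X, z ∉ l → (∀ x ∈ l, z < x) ∨ ∀ x ∈ l, x < z) ∧
      {z ∈ X | ∀ x ∈ l, z < x}.Infinite) ∨ ∀ M, ERun false X M := by
  rcases rk2b_cases false X with h | ⟨l₀, X', hp, hn⟩
  · exact Or.inr h
  left
  intro M
  have hn' : ¬ ∃ x, IsLeast X' x := by
    rintro ⟨x, hx⟩
    exact hn ⟨x, ru11_false.2 hx⟩
  have hX' := hp.infinite hX
  have hc' := hp.ordConnected hc
  obtain ⟨y, hy⟩ := hX'.nonempty
  have hW : {z ∈ X' | z < y}.OrdConnected := by
    constructor
    intro a ha b hb c hc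
    exact ⟨hc'.out ha.1 hb.1 hc, hc.2.trans_lt hb.2⟩
  have hWr : ¬ Rich {z ∈ X' | z < y} := fun h =>
    hs (h.mono fun z hz => hp.sub hz.1)
  obtain ⟨l, hl, hlp, hlX, hlz⟩ := long_run (rk2b_inf_left hn' hy) hW hWr M
  refine ⟨l, hl, hlp, fun x hx => hp.sub (hlX x hx).1, ?_, ?_⟩
  · intro z hz hzl
    by_cases h1 : z ∈ X'
    · rcases lt_or_ge z y with h2 | h2
      · exact hlz z ⟨h1, h2⟩ hzl
      · exact Or.inr fun x hx => (hlX x hx).2.trans_le h2
    · left
      intro x hx
      have h2 : z ∈ l₀ := by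
        have h3 := hp.union
        rw [← h3] at hz
        exact hz.resolve_left h1
      exact hp.left.2 z h2 x (hlX x hx).1
  · obtain ⟨x₀, hx₀, h1⟩ := rk2b_min ⟨y, hy⟩ l fun x hx => (hlX x hx).1
    refine (rk2b_inf_left hn' hx₀).mono ?_
    intro z hz
    exact ⟨hp.sub hz.1, fun x hx => hz.2.trans_le (h1 x hx)⟩

theorem split_right {X : Set L} (hX : X.Infinite) (hc : X.OrdConnected) (hs : ¬ Rich X) :
    (∀ M, ∃ l : List L, l.length = M ∧ l.Pairwise (· < ·) ∧ (∀ x ∈ l, x ∈ X) ∧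
      (∀ z ∈ X, z ∉ l → (∀ x ∈ l, z < x) ∨ ∀ x ∈ l, x < z) ∧
      {z ∈ X | ∀ x ∈ l, x < z}.Infinite) ∨ ∀ M, ERun true X M := by
  rcases rk2b_cases true X with h | ⟨l₀, X', hp, hn⟩
  · exact Or.inr h
  left
  intro M
  have hn' : ¬ ∃ x, IsGreatest X' x := by
    rintro ⟨x, hx⟩
    exact hn ⟨x, ru11_true.2 hx⟩
  have hX' := hp.infinite hX
  have hc' := hp.ordConnected hc
  obtain ⟨y, hy⟩ := hX'.nonempty
  have hW : {z ∈ X' | y < z}.OrdConnected := by
    constructor
    intro a ha b hb c hc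
    exact ⟨hc'.out ha.1 hb.1 hc, ha.2.trans_le hc.1⟩
  have hWr : ¬ Rich {z ∈ X' | y < z} := fun h =>
    hs (h.mono fun z hz => hp.sub hz.1)
  obtain ⟨l, hl, hlp, hlX, hlz⟩ := long_run (rk2b_inf_right hn' hy) hW hWr M
  refine ⟨l, hl, hlp, fun x hx => hp.sub (hlX x hx).1, ?_, ?_⟩
  · intro z hz hzl
    by_cases h1 : z ∈ X'
    · rcases lt_or_ge y z with h2 | h2
      · exact hlz z ⟨h1, h2⟩ hzl
      · exact Or.inl fun x hx => h2.trans_lt (hlX x hx).2
    · right
      intro x hx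
      have h2 : z ∈ l₀ := by
        have h3 := hp.union
        rw [← h3] at hz
        exact hz.resolve_left h1
      exact hp.right.2 x (hlX x hx).1 z h2
  · obtain ⟨x₀, hx₀, h1⟩ := rk2b_max ⟨y, hy⟩ l fun x hx => (hlX x hx).1
    refine (rk2b_inf_right hn' hx₀).mono ?_
    intro z hz
    exact ⟨hp.sub hz.1, fun x hx => (h1 x hx).trans_lt hz.2⟩

end

end Pool.Agent.RK
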