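import Pool.Agent.RK.Rich
import Pool.Agent.RK.Split2
import Pool.Agent.RK.Fillb
import Pool.Agent.RU.Runs
import Pool.Agent.RU.FTBasicB

/-!
Project RK, row 15b: the last block of positions.
-/

set_option autoImplicit false

namespace Pool.Agent.RK

open Pool.Agent.RU

section
variable {L : Type} {n0 : ℕ}

theorem rk15b_sc_cons (g : FT L) (gs : List (FT L)) (e : ℕ) (ds : List ℕ) (d : ℕ) :
    sc (g :: gs) (e :: ds) d = g.cnt e d + sc gs ds d := by
  simp [sc]

theorem rk15b_no_cons (g : FT L) (gs : List (FT L)) :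
    no (g :: gs) = g.opens.length + no gs := by
  simp [no]

theorem rk15b_no_append (gs gs' : List (FT L)) : no (gs ++ gs') = no gs + no gs' := by
  simp [no]

/-- the last open position -/
theorem rk15b_split (b : List (FT L)) (h : ∀ g ∈ b, (∃ x, g = FT.leaf x) ∨ ∃ X, g = FT.opn X) :
    (∀ g ∈ b, ∃ x, g = FT.leaf x) ∨ ∃ b1 X b2, b = b1 ++ FT.opn X :: b2 ∧
      ∀ g ∈ b2, ∃ x, g = FT.leaf x := by
  induction b with
  | nil => exact Or.inl fun g hg => absurd hg List.not_mem_nil
  | cons g b ih =>
    rcases ih fun g' hg' => h g' (List.mem_cons_of_mem _ hg') with h1 | ⟨b1, X, b2, rfl, h1⟩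
    · rcases h g List.mem_cons_self with ⟨x, rfl⟩ | ⟨X, rfl⟩
      · left
        intro g' hg'
        rcases List.mem_cons.1 hg' with rfl | hg'
        · exact ⟨x, rfl⟩
        · exact h1 g' hg'
      · exact Or.inr ⟨[], X, b, rfl, h1⟩
    · exact Or.inr ⟨g :: b1, X, b2, rfl, h1⟩

theorem rk15b_pos {b : List (FT L)} {ds : List ℕ} (hlen : ds.length = b.length)
    (hb : ∀ q ∈ b.zip ds, IsPos n0 q.1 q.2) :
    ∀ g ∈ b, (∃ x, g = FT.leaf x) ∨ ∃ X, g = FT.opn X := by
  intro g hg
  have h1 : g ∈ (b.zip ds).map Prod.fst := by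
    rw [List.map_fst_zip (by omega)]
    exact hg
  obtain ⟨q, hq, rfl⟩ := List.mem_map.1 h1
  rcases hb q hq with ⟨x, hx⟩ | ⟨⟨X, hX⟩, -⟩
  · exact Or.inl ⟨x, hx⟩
  · exact Or.inr ⟨X, hX⟩

theorem rk15b_opens_nil {gs : List (FT L)} (h : ∀ g ∈ gs, g.opens = []) :
    gs.flatMap FT.opens = [] := by
  rw [List.flatMap_eq_nil_iff]
  exact h

theorem rk15b_no_zero {gs : List (FT L)} (h : ∀ g ∈ gs, g.opens = []) : no gs = 0 := by
  rw [no, List.sum_eq_zero_iff]
  intro n hn
  obtain ⟨g, hg, rfl⟩ := List.mem_map.1 hn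
  rw [h g hg]
  rfl

end

section
variable {L : Type} [LinearOrder L] {δ pt : ℕ → ℕ} {n0 W : ℕ}

theorem rk15b_pt (hpt : ∀ i < W, pt i < pt (i + 1) ∧ Pm δ (pt (i + 1)) = Pm δ (pt i) + (1 / 2) ^ n0)
    {i k : ℕ} (h : i + k ≤ W) : pt i ≤ pt (i + k) := by
  induction k with
  | zero => exact le_rfl
  | succ k ih =>
    exact (ih (by omega)).trans (hpt (i + k) (by omega)).1.le

theorem rk15b_cD (p d : ℕ) : cD δ p p d = 0 := by
  simp [cD]

/-- replacing one open node by another one -/
theorem rk15b_one {P E : Set L} (hE : E.Infinite) (hc : E.OrdConnected) (i : ℕ) :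
    Rp n0 δ pt [FT.opn P] [FT.opn E] [n0] i i where
  len := rfl
  wf g hg := by
    rw [List.mem_singleton] at hg
    rw [hg]
    exact ⟨hE, hc⟩
  opat q hq := by
    rw [List.zip_cons_cons, List.zip_nil_left, List.mem_singleton] at hq
    rw [hq]
    exact rfl
  chain := List.isChain_singleton _
  cnt d := by
    rw [rk15b_sc_cons, rk15b_sc_cons, rk15b_cD]
    rfl
  num := by
    rw [rk15b_no_cons, rk15b_no_cons]
    rfl
  le := le_rfl
  nz q hq n _ := by
    rw [List.zip_cons_cons, List.zip_nil_left, List.mem_singleton] at hq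
    rw [hq]
    rfl

/-- leaves are kept -/
theorem rk15b_leaves (b : List (FT L)) (ds : List ℕ)
    (hl : ∀ g ∈ b, ∃ x, g = FT.leaf x)
    (hp : b.Pairwise (fun g g' => ∀ a ∈ g.car, ∀ x ∈ g'.car, a < x)) (i : ℕ) :
    Rp n0 δ pt b b ds i i where
  len := rfl
  wf g hg := by
    obtain ⟨x, rfl⟩ := hl g hg
    exact trivial
  opat q hq := by
    obtain ⟨x, hx⟩ := hl q.1 (List.of_mem_zip hq).1
    rw [hx]
    exact trivial
  chain := by
    refine List.Pairwise.isChain (hp.imp_of_mem ?_)
    intro g g' _ hg' h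
    refine ⟨h, Or.inr ?_⟩
    obtain ⟨x, rfl⟩ := hl g' hg'
    exact ⟨x, rfl, fun y hy => (show y = x from hy) ▸ le_rfl⟩
  cnt d := by rw [rk15b_cD, add_zero]
  num := rfl
  le := le_rfl
  nz q hq n _ := by
    obtain ⟨x, hx⟩ := hl q.1 (List.of_mem_zip hq).1
    rw [hx]
    rfl

/-- a union of finitely many consecutive sets which is rich has a rich part -/
theorem rk15b_rich (b : List (FT L))
    (hp : b.Pairwise (fun g g' => ∀ a ∈ g.car, ∀ x ∈ g'.car, a < x))
    (h : Rich {x | ∃ g ∈ b, x ∈ g.car}) : ∃ g ∈ b, Rich g.car := by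
  induction b with
  | nil =>
    obtain ⟨f, -, hf⟩ := h
    obtain ⟨g, hg, -⟩ := hf 0
    exact absurd hg List.not_mem_nil
  | cons g b ih =>
    rw [List.pairwise_cons] at hp
    have e : {x | ∃ g' ∈ g :: b, x ∈ g'.car} = g.car ∪ {x | ∃ g' ∈ b, x ∈ g'.car} := by
      ext x
      constructor
      · rintro ⟨g', hg', hx⟩
        rcases List.mem_cons.1 hg' with rfl | hg'
        · exact Or.inl hx
        · exact Or.inr ⟨g', hg', hx⟩
      · rintro (hx | ⟨g', hg', hx⟩)
        · exact ⟨g, List.mem_cons_self, hx⟩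
        · exact ⟨g', List.mem_cons_of_mem _ hg', hx⟩
    rw [e] at h
    rcases h.union (fun a ha x hx => by
      obtain ⟨g', hg', hx⟩ := hx
      exact hp.1 g' hg' a ha x hx) with h1 | h1
    · exact ⟨g, List.mem_cons_self, h1⟩
    · obtain ⟨g', hg', h2⟩ := ih hp.2 h1
      exact ⟨g', List.mem_cons_of_mem _ hg', h2⟩

theorem right_end (hm : Monotone δ) (hlow : ∀ i, n0 ≤ δ i)
    (hpt : ∀ i < W, pt i < pt (i + 1) ∧ Pm δ (pt (i + 1)) = Pm δ (pt i) + (1 / 2) ^ n0)
    {P : Set L} (hP : Rich P) (b : List (FT L)) (ds : List ℕ) (hlen : ds.length = b.length)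
    (hb : ∀ q ∈ b.zip ds, IsPos n0 q.1 q.2)
    (hnr : ∀ X, FT.opn X ∈ b → ¬ Rich X ∧ X.Infinite)
    (hlt : ∀ g ∈ b, ∀ a ∈ P, ∀ x ∈ g.car, a < x)
    (hbl : b.Pairwise (fun g g' => ∀ a ∈ g.car, ∀ x ∈ g'.car, a < x))
    (hU : (P ∪ {x | ∃ g ∈ b, x ∈ g.car}).OrdConnected) (i : ℕ) (hi : i + no b ≤ W) :
    ∃ (E : Set L) (gs : List (FT L)) (i' : ℕ), Rich E ∧
      Rp n0 δ pt (FT.opn P :: b) (FT.opn E :: gs) (n0 :: ds) i i' ∧
      no gs ≤ 1 ∧ (∀ X ∈ gs.flatMap FT.opens, ¬ Rich X) ∧
      P ∪ {x | ∃ g ∈ b, x ∈ g.car} = {x | ∃ g ∈ FT.opn E :: gs, x ∈ g.car} := by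
  set U : Set L := {x | ∃ g ∈ b, x ∈ g.car} with hUdef
  have hPU : ∀ a ∈ P, ∀ x ∈ U, a < x := by
    rintro a ha x ⟨g, hg, hx⟩
    exact hlt g hg a ha x hx
  have hUc : U.OrdConnected := by
    constructor
    intro a ha c hc x hx
    rcases hU.out (Or.inr ha) (Or.inr hc) hx with h | h
    · exact absurd (hPU x h a ha) (not_lt.2 hx.1)
    · exact h
  -- an initial part of `P ∪ U` which contains `P`
  have hE : ∀ X' ⊆ U, (∀ a ∈ X', ∀ x ∈ U, x ∉ X' → a < x) →
      Rich (P ∪ X') ∧ (P ∪ X').Infinite ∧ (P ∪ X').OrdConnected := by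
    intro X' hX' hlow'
    have h1 : Rich (P ∪ X') := hP.mono Set.subset_union_left
    refine ⟨h1, h1.infinite, ⟨?_⟩⟩
    intro a ha c hc x hx
    have h2 : x ∈ P ∪ U := by
      refine hU.out ?_ ?_ hx
      · exact ha.imp id fun h => hX' h
      · exact hc.imp id fun h => hX' h
    rcases h2 with h2 | h2
    · exact Or.inl h2
    · rcases hc with hc | hc
      · exact absurd (hPU c hc x h2) (not_lt.2 hx.2)
      · by_contra h3
        have h4 : x ∉ X' := fun h => h3 (Or.inr h)
        exact absurd (hlow' c hc x h2 h4) (not_lt.2 hx.2)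
  have hpos := rk15b_pos hlen hb
  rcases rk15b_split b hpos with hleaf | ⟨b1, X, b2, hbe, hb2⟩
  · -- no open position
    refine ⟨P, b, i, hP, ?_, ?_, ?_, ?_⟩
    · have hE' := hE ∅ (Set.empty_subset _) (fun a ha => absurd ha (Set.notMem_empty a))
      rw [Set.union_empty] at hE'
      have h1 : Rp n0 δ pt [FT.opn P] [FT.opn P] [n0] i i := rk15b_one hE'.2.1 hE'.2.2 i
      have h2 : Rp n0 δ pt b b ds i i := rk15b_leaves b ds hleaf hbl i
      refine h1.append h2 le_rfl le_rfl rfl ?_
      intro g hg g' hg'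
      rw [List.getLast?_singleton, Option.mem_some_iff] at hg
      subst hg
      have hg'b : g' ∈ b := List.mem_of_mem_head? hg'
      refine ⟨fun a ha x hx => hlt g' hg'b a ha x hx, Or.inr ?_⟩
      obtain ⟨x, rfl⟩ := hleaf g' hg'b
      exact ⟨x, rfl, fun y hy => (show y = x from hy) ▸ le_rfl⟩
    · rw [rk15b_no_zero fun g hg => by obtain ⟨x, rfl⟩ := hleaf g hg; rfl]
      exact Nat.zero_le 1
    · rw [rk15b_opens_nil fun g hg => by obtain ⟨x, rfl⟩ := hleaf g hg; rfl]
      intro X hX
      exact absurd hX List.not_mem_nil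
    · ext x
      constructor
      · rintro (h | ⟨g, hg, h⟩)
        · exact ⟨FT.opn P, List.mem_cons_self, h⟩
        · exact ⟨g, List.mem_cons_of_mem _ hg, h⟩
      · rintro ⟨g, hg, h⟩
        rcases List.mem_cons.1 hg with rfl | hg
        · exact Or.inl h
        · exact Or.inr ⟨g, hg, h⟩
  · -- some open position
    have hXb : FT.opn X ∈ b := by
      rw [hbe]
      exact List.mem_append_right _ List.mem_cons_self
    have hXU : X ⊆ U := fun x hx => ⟨FT.opn X, hXb, hx⟩
    have hUinf : U.Infinite := (hnr X hXb).2.mono hXU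
    have hUp : ¬ Rich U := by
      intro h
      obtain ⟨g, hg, h1⟩ := rk15b_rich b hbl h
      rcases hpos g hg with ⟨x, rfl⟩ | ⟨Y, rfl⟩
      · exact h1.infinite (Set.finite_singleton x)
      · exact (hnr Y hg).1 h1
    rcases split_right hUinf hUc hUp with hI | hII
    · -- infinitely many elements above the run
      obtain ⟨l, hll, hls, hlU, hlr, hlinf⟩ := hI (need pt i b1 + 1)
      have hlne : l ≠ [] := by
        intro h
        rw [h] at hll
        simp at hll
      set l0 := l.dropLast with hl0
      set y := l.getLast hlne with hy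
      have hly : l = l0 ++ [y] := (List.dropLast_append_getLast hlne).symm
      have hl0len : l0.length = need pt i b1 := by
        rw [hl0, List.length_dropLast, hll]
        rfl
      have hyl : y ∈ l := List.getLast_mem hlne
      have hyU : y ∈ U := hlU y hyl
      have hl0s : l0.Pairwise (· < ·) := by
        rw [hly, List.pairwise_append] at hls
        exact hls.1
      have hl0y : ∀ x ∈ l0, x < y := by
        rw [hly, List.pairwise_append] at hls
        exact fun x hx => hls.2.2 x hx y (List.mem_singleton.2 rfl)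
      have hly' : ∀ x ∈ l, x ≤ y := by
        intro x hx
        rw [hly, List.mem_append, List.mem_singleton] at hx
        rcases hx with hx | rfl
        · exact (hl0y x hx).le
        · exact le_rfl
      -- the depths
      set ds1 := ds.take b1.length with hds1
      obtain ⟨e, ds2, hdrop⟩ : ∃ e ds2, ds.drop b1.length = e :: ds2 := by
        have h1 : (ds.drop b1.length).length = b2.length + 1 := by
          rw [List.length_drop, hlen, hbe, List.length_append, List.length_cons]
          omega
        cases h2 : ds.drop b1.length with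
        | nil => rw [h2] at h1; simp at h1
        | cons e ds2 => exact ⟨e, ds2, rfl⟩
      have hdse : ds = ds1 ++ e :: ds2 := by
        rw [← hdrop, hds1, List.take_append_drop]
      have hds1len : ds1.length = b1.length := by
        rw [hds1, List.length_take, hlen, hbe, List.length_append]
        omega
      have hzip : b.zip ds = b1.zip ds1 ++ (FT.opn X, e) :: b2.zip ds2 := by
        rw [hbe, hdse, List.zip_append hds1len.symm, List.zip_cons_cons]
      have he : e = n0 := by
        rcases hb (FT.opn X, e) (by rw [hzip]; simp) with ⟨x, hx⟩ | ⟨-, h⟩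
        · exact absurd hx (by simp)
        · exact h
      subst he
      -- the new pieces
      rw [hbe, List.pairwise_append, List.pairwise_cons] at hbl
      obtain ⟨hbl1, ⟨hblX, hbl2⟩, hbl12⟩ := hbl
      have hnob : no b = no b1 + (1 + no b2) := by
        rw [hbe, rk15b_no_append, rk15b_no_cons]
        rfl
      obtain ⟨gs1, hR1, hcl1, hcar1⟩ := fillb hm hlow hpt b1 ds1 hds1len
        (fun q hq => hb q (by rw [hzip]; exact List.mem_append_left _ hq)) i (by omega) l0
        hl0len hl0s
      have hb2U : ∀ g ∈ b2, ∀ x ∈ g.car, x ∈ U := by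
        intro g hg x hx
        refine ⟨g, ?_, hx⟩
        rw [hbe]
        exact List.mem_append_right _ (List.mem_cons_of_mem _ hg)
      set F : Set L := {x | ∃ g ∈ b2, x ∈ g.car} with hF
      have hFfin : F.Finite := by
        have h1 : F = ⋃ g ∈ b2, g.car := by
          ext x
          simp [hF]
        rw [h1]
        refine Set.Finite.biUnion (List.finite_toSet b2) fun g hg => ?_
        obtain ⟨x, rfl⟩ := hb2 g hg
        exact Set.finite_singleton x
      have hFU : F ⊆ U := by
        rintro x ⟨g, hg, hx⟩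
        exact hb2U g hg x hx
      have hFtop : ∀ x ∈ F, ∀ z ∈ U, x < z → z ∈ F := by
        rintro x ⟨g, hg, hx⟩ z ⟨g', hg', hz⟩ hxz
        rw [hbe, List.mem_append, List.mem_cons] at hg'
        rcases hg' with hg' | rfl | hg'
        · exact absurd (hbl12 g' hg' g (List.mem_cons_of_mem _ hg) z hz x hx) (not_lt.2 hxz.le)
        · exact absurd (hblX g hg z hz x hx) (not_lt.2 hxz.le)
        · exact ⟨g', hg', hz⟩
      have hlF : ∀ x ∈ l, x ∉ F := by
        intro x hx hxF
        apply hlinf
        refine hFfin.subset ?_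
        rintro z ⟨hz, hz'⟩
        exact hFtop x hxF z hz (hz' x hx)
      set Z : Set L := {z ∈ U | y ≤ z ∧ z ∉ F} with hZ
      have hZleast : IsLeast Z y := ⟨⟨hyU, le_rfl, hlF y hyl⟩, fun z hz => hz.2.1⟩
      have hZinf : Z.Infinite := by
        have h1 : ({z ∈ U | ∀ x ∈ l, x < z} \ F).Infinite := hlinf.sdiff hFfin
        refine h1.mono ?_
        rintro z ⟨⟨hz, hz'⟩, hzF⟩
        exact ⟨hz, (hz' y hyl).le, hzF⟩
      have hZc : Z.OrdConnected := by
        constructor
        intro a ha c hc x hx
        have h1 : x ∈ U := hUc.out ha.1 hc.1 hx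
        refine ⟨h1, ha.2.1.trans hx.1, fun h2 => ?_⟩
        rcases eq_or_lt_of_le hx.2 with h3 | h3
        · exact hc.2.2 (h3 ▸ h2)
        · exact hc.2.2 (hFtop x h2 c hc.1 h3)
      set X' : Set L := {z ∈ U | ∀ x ∈ l, z < x} with hX'
      obtain ⟨hE1, hE2, hE3⟩ := hE X' (fun z hz => hz.1) (by
        intro a ha x hx hxX
        by_contra h
        rw [not_lt] at h
        exact hxX ⟨hx, fun z hz => h.trans_lt (ha.2 z hz)⟩)
      have hR2 : Rp e δ pt [FT.opn X] [FT.opn Z] [e] (i + no b1) (i + no b1) :=
        rk15b_one hZinf hZc _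
      have hR3 : Rp e δ pt b2 b2 ds2 (i + no b1) (i + no b1) := rk15b_leaves b2 ds2 hb2 hbl2 _
      have hR0 : Rp e δ pt [FT.opn P] [FT.opn (P ∪ X')] [e] i i := rk15b_one hE2 hE3 i
      have hmono : pt i ≤ pt (i + no b1) := rk15b_pt hpt (by omega)
      have hgs1 : ∀ g ∈ gs1, (∃ x, IsLeast g.car x) := fun g hg =>
        (ends_of_closed (hR1.wf g hg) (hcl1 g hg)).2
      have hgs1l : ∀ g ∈ gs1, ∀ x ∈ g.car, x ∈ l0 := by
        intro g hg x hx
        have h1 : x ∈ {x | ∃ g ∈ gs1, x ∈ g.car} := ⟨g, hg, hx⟩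
        rw [hcar1] at h1
        exact h1
      have hR23 : Rp e δ pt (FT.opn X :: b2) (FT.opn Z :: b2) (e :: ds2) (i + no b1)
          (i + no b1) := by
        refine hR2.append hR3 le_rfl le_rfl rfl ?_
        intro g hg g' hg'
        rw [List.getLast?_singleton, Option.mem_some_iff] at hg
        subst hg
        have hg'b : g' ∈ b2 := List.mem_of_mem_head? hg'
        refine ⟨?_, Or.inr ?_⟩
        · intro a ha x hx
          by_contra h
          rw [not_lt] at h
          have hxF : x ∈ F := ⟨g', hg'b, hx⟩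
          rcases eq_or_lt_of_le h with h1 | h1
          · exact ha.2.2 (h1 ▸ hxF)
          · exact ha.2.2 (hFtop x hxF a ha.1 h1)
        · obtain ⟨x, rfl⟩ := hb2 g' hg'b
          exact ⟨x, rfl, fun y hy => (show y = x from hy) ▸ le_rfl⟩
      have hR123 : Rp e δ pt (b1 ++ FT.opn X :: b2) (gs1 ++ FT.opn Z :: b2)
          (ds1 ++ e :: ds2) i (i + no b1) := by
        refine hR1.append hR23 hmono le_rfl hds1len ?_
        intro g hg g' hg'
        rw [List.head?_cons, Option.mem_some_iff] at hg'
        subst hg'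
        have hgm : g ∈ gs1 := List.mem_of_mem_getLast? hg
        refine ⟨?_, Or.inr ⟨y, hZleast⟩⟩
        intro a ha x hx
        exact (hl0y a (hgs1l g hgm a ha)).trans_le hx.2.1
      rw [← hbe, ← hdse] at hR123
      refine ⟨P ∪ X', gs1 ++ FT.opn Z :: b2, i + no b1, hE1, ?_, ?_, ?_, ?_⟩
      · refine hR0.append hR123 le_rfl hmono rfl ?_
        intro g hg g' hg'
        rw [List.getLast?_singleton, Option.mem_some_iff] at hg
        subst hg
        cases hgs : gs1 with
        | nil =>
          have hg2 : g' ∈ (FT.opn Z :: b2).head? := by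
            rw [hgs] at hg'
            exact hg'
          rw [List.head?_cons, Option.mem_some_iff] at hg2
          subst hg2
          refine ⟨?_, Or.inr ⟨y, hZleast⟩⟩
          rintro a (ha | ha) x hx
          · exact hPU a ha x hx.1
          · exact (ha.2 y hyl).trans_le hx.2.1
        | cons g1 gs1' =>
          have hg2 : g' ∈ (g1 :: (gs1' ++ FT.opn Z :: b2)).head? := by
            rw [hgs] at hg'
            exact hg'
          rw [List.head?_cons, Option.mem_some_iff] at hg2
          subst hg2
          have hg1 : g1 ∈ gs1 := by rw [hgs]; exact List.mem_cons_self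
          refine ⟨?_, Or.inr (hgs1 g1 hg1)⟩
          intro a ha x hx
          have hx0 : x ∈ l0 := hgs1l g1 hg1 x hx
          have hxl : x ∈ l := by
            rw [hly]
            exact List.mem_append_left _ hx0
          rcases ha with ha | ha
          · exact hPU a ha x (hlU x hxl)
          · exact ha.2 x hxl
      · rw [rk15b_no_append, rk15b_no_cons, rk15b_no_zero hcl1,
          rk15b_no_zero fun g hg => by obtain ⟨x, rfl⟩ := hb2 g hg; rfl]
        exact le_rfl
      · intro Y hY
        rw [List.flatMap_append, rk15b_opens_nil hcl1, List.nil_append, List.flatMap_cons,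
          rk15b_opens_nil fun g hg => by obtain ⟨x, rfl⟩ := hb2 g hg; rfl] at hY
        have hYZ : Y = Z := by
          simpa [FT.opens] using hY
        rw [hYZ]
        exact fun h => hUp (h.mono fun z hz => hz.1)
      · ext x
        constructor
        · rintro (h | h)
          · exact ⟨FT.opn (P ∪ X'), List.mem_cons_self, Or.inl h⟩
          · by_cases hxl : x ∈ l
            · rw [hly, List.mem_append, List.mem_singleton] at hxl
              rcases hxl with hxl | rfl
              · have h1 : x ∈ {x | ∃ g ∈ gs1, x ∈ g.car} := by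
                  rw [hcar1]
                  exact hxl
                obtain ⟨g, hg, hx⟩ := h1
                exact ⟨g, List.mem_cons_of_mem _ (List.mem_append_left _ hg), hx⟩
              · exact ⟨FT.opn Z, List.mem_cons_of_mem _ (List.mem_append_right _
                  List.mem_cons_self), hZleast.1⟩
            · rcases hlr x h hxl with h1 | h1
              · exact ⟨FT.opn (P ∪ X'), List.mem_cons_self, Or.inr ⟨h, h1⟩⟩
              · by_cases hxF : x ∈ F
                · obtain ⟨g, hg, hx⟩ := hxF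
                  exact ⟨g, List.mem_cons_of_mem _ (List.mem_append_right _
                    (List.mem_cons_of_mem _ hg)), hx⟩
                · exact ⟨FT.opn Z, List.mem_cons_of_mem _ (List.mem_append_right _
                    List.mem_cons_self), h, (h1 y hyl).le, hxF⟩
        · rintro ⟨g, hg, hx⟩
          rcases List.mem_cons.1 hg with rfl | hg
          · exact hx.imp id fun h => h.1
          · rcases List.mem_append.1 hg with hg | hg
            · have hxl : x ∈ l := by
                rw [hly]
                exact List.mem_append_left _ (hgs1l g hg x hx)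
              exact Or.inr (hlU x hxl)
            · rcases List.mem_cons.1 hg with rfl | hg
              · exact Or.inr hx.1
              · exact Or.inr (hb2U g hg x hx)
    · -- end runs of every length
      obtain ⟨l, X', hll, hpeel⟩ := hII (need pt i b)
      have hun := hpeel.union
      have hr := hpeel.right
      have hX'U : X' ⊆ U := hpeel.sub
      have hlU : ∀ x ∈ l, x ∈ U := fun x hx => ru11_mem hpeel hx
      obtain ⟨gs, hR, hcl, hcar⟩ := fillb hm hlow hpt b ds hlen hb i hi l.reverse
        (by rw [List.length_reverse, hll]) hr.1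
      have hgl : ∀ g ∈ gs, ∀ x ∈ g.car, x ∈ l := by
        intro g hg x hx
        have h1 : x ∈ {x | ∃ g ∈ gs, x ∈ g.car} := ⟨g, hg, hx⟩
        rw [hcar] at h1
        exact List.mem_reverse.1 h1
      obtain ⟨hE1, hE2, hE3⟩ := hE X' hX'U (by
        intro a ha x hx hxX
        rw [← hun] at hx
        rcases hx with hx | hx
        · exact absurd hx hxX
        · exact hr.2 a ha x hx)
      have hR0 : Rp n0 δ pt [FT.opn P] [FT.opn (P ∪ X')] [n0] i i := rk15b_one hE2 hE3 i
      have hmono : pt i ≤ pt (i + no b) := rk15b_pt hpt hi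
      refine ⟨P ∪ X', gs, i + no b, hE1, ?_, ?_, ?_, ?_⟩
      · refine hR0.append hR le_rfl hmono rfl ?_
        intro g hg g' hg'
        rw [List.getLast?_singleton, Option.mem_some_iff] at hg
        subst hg
        have hgm : g' ∈ gs := List.mem_of_mem_head? hg'
        refine ⟨?_, Or.inr (ends_of_closed (hR.wf g' hgm) (hcl g' hgm)).2⟩
        intro a ha x hx
        have hxl := hgl g' hgm x hx
        rcases ha with ha | ha
        · exact hPU a ha x (hlU x hxl)
        · exact hr.2 a ha x hxl
      · rw [rk15b_no_zero hcl]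
        exact Nat.zero_le 1
      · rw [rk15b_opens_nil hcl]
        intro X hX
        exact absurd hX List.not_mem_nil
      · ext x
        constructor
        · rintro (h | h)
          · exact ⟨FT.opn (P ∪ X'), List.mem_cons_self, Or.inl h⟩
          · rw [← hun] at h
            rcases h with h | h
            · exact ⟨FT.opn (P ∪ X'), List.mem_cons_self, Or.inr h⟩
            · have h1 : x ∈ {x | ∃ g ∈ gs, x ∈ g.car} := by
                rw [hcar]
                exact List.mem_reverse.2 h
              obtain ⟨g, hg, hx⟩ := h1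
              exact ⟨g, List.mem_cons_of_mem _ hg, hx⟩
        · rintro ⟨g, hg, hx⟩
          rcases List.mem_cons.1 hg with rfl | hg
          · exact hx.imp id fun h => hX'U h
          · exact Or.inr (hlU x (hgl g hg x hx))

end

end Pool.Agent.RK
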