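import Pool.Agent.RK.Rich
import Pool.Agent.RK.Fillb
import Pool.Agent.RK.Mid
import Pool.Agent.RK.RightEnd

/-!
Project RK, row RK-16a: the core of the rearrangement of the open positions.
-/

set_option autoImplicit false
set_option linter.unusedSectionVars false

open Filter

namespace Pool.Agent.RK

open Pool.Agent.RU

section

variable {L : Type} [LinearOrder L] {δ pt : ℕ → ℕ} {n0 W : ℕ}

theorem rk16_zc_append (xs ys : List (Set L)) : zc (xs ++ ys) = zc xs + zc ys := by
  simp [zc]

theorem rk16_zc_cons (x : Set L) (ys : List (Set L)) : zc (x :: ys) = zi x + zc ys := by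
  simp [zc]

theorem rk16_zc_nil : zc ([] : List (Set L)) = 0 := by
  simp [zc]

theorem rk16_zc_poor (xs : List (Set L)) (h : ∀ X ∈ xs, ¬ Rich X) : zc xs = xs.length := by
  induction xs with
  | nil => simp [zc]
  | cons x xs ih =>
    rw [rk16_zc_cons, zi_poor (h x (List.mem_cons_self)),
      ih (fun X hX => h X (List.mem_cons_of_mem _ hX)), List.length_cons, Nat.add_comm]

theorem rk16_no (b : List (FT L)) : no b = (b.flatMap FT.opens).length := by
  unfold no
  rw [List.length_flatMap]

theorem rk16_closed (b : List (FT L)) (h : ∀ g ∈ b, g.opens = []) :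
    b.flatMap FT.opens = [] := by
  rw [List.flatMap_eq_nil_iff]
  exact h

/-- splitting a list at the first element with a property -/
theorem rk16_first {α : Type} (p : α → Prop) (l : List α) (h : ∃ x ∈ l, p x) :
    ∃ (b : List α) (x : α) (c : List α), l = b ++ x :: c ∧ p x ∧ ∀ y ∈ b, ¬ p y := by
  induction l with
  | nil =>
    obtain ⟨x, hx, -⟩ := h
    exact absurd hx List.not_mem_nil
  | cons a l ih =>
    by_cases ha : p a
    · exact ⟨[], a, l, rfl, ha, fun y hy => absurd hy List.not_mem_nil⟩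
    · obtain ⟨x, hx, hpx⟩ := h
      rcases List.mem_cons.1 hx with rfl | hx
      · exact absurd hpx ha
      · obtain ⟨b, y, c, h1, h2, h3⟩ := ih ⟨x, hx, hpx⟩
        refine ⟨a :: b, y, c, by rw [h1]; rfl, h2, ?_⟩
        intro z hz
        rcases List.mem_cons.1 hz with rfl | hz
        · exact ha
        · exact h3 z hz

theorem rk16_split {b c : List (FT L)} {x : FT L} {ds : List ℕ}
    (h : ds.length = (b ++ x :: c).length) :
    ∃ (d1 : List ℕ) (e : ℕ) (d2 : List ℕ), ds = d1 ++ e :: d2 ∧ d1.length = b.length ∧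
      d2.length = c.length := by
  have h1 : (ds.drop b.length).length = c.length + 1 := by
    rw [List.length_drop, h, List.length_append, List.length_cons]
    omega
  have h2 : (ds.take b.length).length = b.length := by
    rw [List.length_take, h, List.length_append]
    omega
  have h3 := List.take_append_drop b.length ds
  revert h1 h3
  generalize ds.drop b.length = ys
  cases ys with
  | nil => intro h1 _; simp at h1
  | cons e d2 =>
    intro h1 h3
    exact ⟨ds.take b.length, e, d2, h3.symm, h2, by simpa using h1⟩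

theorem rk16_pt
    (hpt : ∀ i < W, pt i < pt (i + 1) ∧ Pm δ (pt (i + 1)) = Pm δ (pt i) + (1 / 2) ^ n0)
    {i : ℕ} (j : ℕ) (h : i + j ≤ W) : pt i ≤ pt (i + j) := by
  induction j with
  | zero => exact le_rfl
  | succ j ih =>
    have h1 := ih (by omega)
    have h2 := (hpt (i + j) (by omega)).1
    have h3 : i + (j + 1) = i + j + 1 := rfl
    rw [h3]
    omega

theorem rk16_upper {S T : Set L} (h : (S ∪ T).OrdConnected) (hlt : ∀ a ∈ S, ∀ x ∈ T, a < x) :
    T.OrdConnected := by
  refine ⟨fun x hx y hy z hz => ?_⟩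
  rcases h.out (Or.inr hx) (Or.inr hy) hz with h1 | h1
  · exact absurd (hlt z h1 x hx) (not_lt.2 hz.1)
  · exact h1

theorem core (hm : Monotone δ) (hlow : ∀ i, n0 ≤ δ i)
    (hpt : ∀ i < W, pt i < pt (i + 1) ∧ Pm δ (pt (i + 1)) = Pm δ (pt i) + (1 / 2) ^ n0)
    (its : List (FT L)) (P : Set L) (hP : Rich P) (ds : List ℕ)
    (hlen : ds.length = its.length) (hb : ∀ q ∈ its.zip ds, IsPos n0 q.1 q.2)
    (hinf : ∀ X, FT.opn X ∈ its → X.Infinite)
    (hlt : ∀ g ∈ its, ∀ a ∈ P, ∀ x ∈ g.car, a < x)
    (hbl : its.Pairwise (fun g g' => ∀ a ∈ g.car, ∀ x ∈ g'.car, a < x))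
    (hU : (P ∪ {x | ∃ g ∈ its, x ∈ g.car}).OrdConnected) (i : ℕ)
    (hi : i + zc (its.flatMap FT.opens) ≤ W) :
    ∃ (E : Set L) (gs : List (FT L)) (i' : ℕ),
      Rp n0 δ pt (FT.opn P :: its) (FT.opn E :: gs) (n0 :: ds) i i' ∧
      P ∪ {x | ∃ g ∈ its, x ∈ g.car} = {x | ∃ g ∈ FT.opn E :: gs, x ∈ g.car} ∧
      zc ((FT.opn E :: gs).flatMap FT.opens) ≤ 1 ∧
      ((FT.opn E :: gs).flatMap FT.opens).length + zc (its.flatMap FT.opens) =
        zc ((FT.opn E :: gs).flatMap FT.opens) + 1 + (its.flatMap FT.opens).length := by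
  induction hn : its.length using Nat.strong_induction_on generalizing its P ds i with
  | _ n ih =>
  subst hn
  have hopn : ∀ (b : List (FT L)) (e : List ℕ), e.length = b.length →
      (∀ q ∈ b.zip e, IsPos n0 q.1 q.2) → ∀ Y ∈ b.flatMap FT.opens, FT.opn Y ∈ b := by
    intro b
    induction b with
    | nil => intro e _ _ Y hY; simp at hY
    | cons g b ihb =>
      intro e he hq Y hY
      cases e with
      | nil => simp at he
      | cons e0 e =>
        rw [List.flatMap_cons, List.mem_append] at hY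
        rcases hY with hY | hY
        · have h1 := hq (g, e0) (by rw [List.zip_cons_cons]; exact List.mem_cons_self)
          rcases h1 with ⟨x, hx⟩ | ⟨⟨X, hX⟩, -⟩
          · simp only at hx
            rw [hx] at hY
            simp [FT.opens] at hY
          · simp only at hX
            rw [hX] at hY
            simp only [FT.opens, List.mem_singleton] at hY
            rw [hX, hY]
            exact List.mem_cons_self
        · refine List.mem_cons_of_mem _ (ihb e (by simpa using he) ?_ Y hY)
          intro q hq'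
          exact hq q (by rw [List.zip_cons_cons]; exact List.mem_cons_of_mem _ hq')
  by_cases hr : ∃ g ∈ its, ∃ X, g = FT.opn X ∧ Rich X
  · -- there is a rich open position
    obtain ⟨b, g, its', h1, ⟨P', rfl, hP'⟩, h3⟩ := rk16_first _ its hr
    subst h1
    obtain ⟨d1, e, d2, rfl, hd1, hd2⟩ := rk16_split hlen
    have hz : (b ++ FT.opn P' :: its').zip (d1 ++ e :: d2) =
        b.zip d1 ++ (FT.opn P', e) :: its'.zip d2 := by
      rw [List.zip_append hd1.symm, List.zip_cons_cons]
    rw [hz] at hb
    have he : e = n0 := by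
      rcases hb (FT.opn P', e) (by simp) with ⟨x, hx⟩ | ⟨-, h⟩
      · simp at hx
      · exact h
    subst he
    have hbb : ∀ q ∈ b.zip d1, IsPos e q.1 q.2 := fun q hq => hb q (by simp [hq])
    have hbi : ∀ q ∈ its'.zip d2, IsPos e q.1 q.2 := fun q hq => hb q (by simp [hq])
    rw [List.pairwise_append, List.pairwise_cons] at hbl
    obtain ⟨hbl1, ⟨hbl2, hbl3⟩, hbl4⟩ := hbl
    have hnrb : ∀ X, FT.opn X ∈ b → ¬ Rich X ∧ X.Infinite := fun X hX =>
      ⟨fun hc => h3 _ hX ⟨X, rfl, hc⟩, hinf X (by simp [hX])⟩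
    have hnob : zc (b.flatMap FT.opens) = no b := by
      rw [rk16_no]
      exact rk16_zc_poor _ (fun X hX => (hnrb X (hopn b d1 hd1 hbb X hX)).1)
    have hzi : zc ((b ++ FT.opn P' :: its').flatMap FT.opens) =
        no b + zc (its'.flatMap FT.opens) := by
      rw [List.flatMap_append, List.flatMap_cons, rk16_zc_append, rk16_zc_append, hnob]
      simp only [FT.opens]
      rw [rk16_zc_cons, zi_rich hP', rk16_zc_nil]
      omega
    have hli : ((b ++ FT.opn P' :: its').flatMap FT.opens).length =
        no b + (1 + (its'.flatMap FT.opens).length) := by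
      rw [List.flatMap_append, List.flatMap_cons, List.length_append, List.length_append,
        ← rk16_no]
      simp [FT.opens]
    rw [hzi] at hi
    have hUb : (P ∪ {x | ∃ g ∈ b, x ∈ g.car}).OrdConnected := by
      refine ⟨fun x hx y hy z hz' => ?_⟩
      have hsub : ∀ w ∈ P ∪ {x | ∃ g ∈ b, x ∈ g.car},
          w ∈ P ∪ {x | ∃ g ∈ b ++ FT.opn P' :: its', x ∈ g.car} := by
        rintro w (hw | ⟨g, hg, hw⟩)
        · exact Or.inl hw
        · exact Or.inr ⟨g, by simp [hg], hw⟩
      have hlt' : ∀ g ∈ FT.opn P' :: its', ∀ v ∈ g.car, y < v := by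
        intro g hg v hv
        rcases hy with hy | ⟨g', hg', hy⟩
        · exact hlt g (List.mem_append_right _ hg) y hy v hv
        · exact hbl4 g' hg' g hg y hy v hv
      rcases hU.out (hsub x hx) (hsub y hy) hz' with h | ⟨g, hg, h⟩
      · exact Or.inl h
      · rcases List.mem_append.1 hg with hg | hg
        · exact Or.inr ⟨g, hg, h⟩
        · exact absurd (hlt' g hg z h) (not_lt.2 hz'.2)
    obtain ⟨E, gs, R, i', hE, hRp, hcl, hset, hRgt, hlast⟩ := mid_block hm hlow hpt hP b d1 hd1
      hbb hnrb (fun g hg => hlt g (List.mem_append_left _ hg)) hbl1 hUb i (by omega)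
    have hno : i' = i + no b := by
      have h := hRp.num
      have h1 : no (FT.opn E :: gs) = 1 := by
        rw [rk16_no, List.flatMap_cons, rk16_closed gs hcl]
        simp [FT.opens]
      have h2 : no (FT.opn P :: b) = 1 + no b := by
        simp [no, FT.opens]
      omega
    -- the lower and the upper part
    have hSP : ∀ a ∈ {x | ∃ g ∈ FT.opn E :: gs, x ∈ g.car} ∪ R,
        ∀ g ∈ FT.opn P' :: its', ∀ x ∈ g.car, a < x := by
      intro a ha g hg x hx
      rw [← hset] at ha
      rcases ha with ha | ⟨g', hg', ha⟩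
      · exact hlt g (List.mem_append_right _ hg) a ha x hx
      · exact hbl4 g' hg' g hg a ha x hx
    have hall : P ∪ {x | ∃ g ∈ b ++ FT.opn P' :: its', x ∈ g.car} =
        {x | ∃ g ∈ FT.opn E :: gs, x ∈ g.car} ∪ ((R ∪ P') ∪ {x | ∃ g ∈ its', x ∈ g.car}) := by
      have h : P ∪ {x | ∃ g ∈ b ++ FT.opn P' :: its', x ∈ g.car} =
          (P ∪ {x | ∃ g ∈ b, x ∈ g.car}) ∪ (P' ∪ {x | ∃ g ∈ its', x ∈ g.car}) := by
        ext x
        simp only [Set.mem_union, Set.mem_ofPred_eq, List.mem_append, List.mem_cons]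
        constructor
        · rintro (h | ⟨g, (hg | rfl | hg), h⟩)
          · exact Or.inl (Or.inl h)
          · exact Or.inl (Or.inr ⟨g, hg, h⟩)
          · exact Or.inr (Or.inl h)
          · exact Or.inr (Or.inr ⟨g, hg, h⟩)
        · rintro ((h | ⟨g, hg, h⟩) | (h | ⟨g, hg, h⟩))
          · exact Or.inl h
          · exact Or.inr ⟨g, Or.inl hg, h⟩
          · exact Or.inr ⟨_, Or.inr (Or.inl rfl), h⟩
          · exact Or.inr ⟨g, Or.inr (Or.inr hg), h⟩
      rw [h, hset]
      simp only [Set.union_assoc]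
    have hST : ∀ a ∈ {x | ∃ g ∈ FT.opn E :: gs, x ∈ g.car},
        ∀ x ∈ (R ∪ P') ∪ {x | ∃ g ∈ its', x ∈ g.car}, a < x := by
      rintro a ha x ((hx | hx) | ⟨g, hg, hx⟩)
      · obtain ⟨g, hg, ha⟩ := ha
        exact hRgt g hg a ha x hx
      · exact hSP a (Or.inl ha) _ List.mem_cons_self x hx
      · exact hSP a (Or.inl ha) g (List.mem_cons_of_mem _ hg) x hx
    have hUT : ((R ∪ P') ∪ {x | ∃ g ∈ its', x ∈ g.car}).OrdConnected := by
      rw [hall] at hU
      exact rk16_upper hU hST
    obtain ⟨E2, gs2, i2, hRp2, hset2, hz2, hc2⟩ := ih its'.length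
      (by rw [List.length_append, List.length_cons]; omega) its' (R ∪ P')
      (hP'.mono Set.subset_union_right) d2 hd2 hbi
      (fun X hX => hinf X (by simp [hX]))
      (by
        rintro g hg a (ha | ha) x hx
        · exact hSP a (Or.inr ha) g (List.mem_cons_of_mem _ hg) x hx
        · exact hbl2 g hg a ha x hx)
      hbl3 hUT i' (by rw [hno]; omega) rfl
    have hRp2' : Rp e δ pt (FT.opn P' :: its') (FT.opn E2 :: gs2) (e :: d2) i' i2 :=
      { len := hRp2.len
        wf := hRp2.wf
        opat := hRp2.opat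
        chain := hRp2.chain
        cnt := hRp2.cnt
        num := hRp2.num
        le := hRp2.le
        nz := hRp2.nz }
    have hi2 : i2 + zc ((FT.opn E2 :: gs2).flatMap FT.opens) = i' +
        zc (its'.flatMap FT.opens) := by
      have h := hRp2'.num
      rw [rk16_no, rk16_no] at h
      have h4 : ((FT.opn P' :: its').flatMap FT.opens).length =
          1 + (its'.flatMap FT.opens).length := by
        rw [List.flatMap_cons, List.length_append]
        simp [FT.opens]
      omega
    refine ⟨E, gs ++ FT.opn E2 :: gs2, i2, ?_, ?_, ?_, ?_⟩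
    · have h := Rp.append hRp hRp2' ?_ ?_ ?_ ?_
      · exact h
      · rw [hno]
        exact rk16_pt hpt _ (by omega)
      · have h5 : i2 = i' + (i2 - i') := by
          have := hRp2'.le
          omega
        rw [h5]
        exact rk16_pt hpt _ (by omega)
      · rw [List.length_cons, List.length_cons, hd1]
      · intro g hg g' hg'
        rw [List.head?_cons, Option.mem_some_iff] at hg'
        subst hg'
        refine ⟨?_, Or.inl (hlast g hg)⟩
        intro a ha x hx
        have h6 : x ∈ (R ∪ P') ∪ {x | ∃ g ∈ its', x ∈ g.car} := by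
          rw [hset2]
          exact ⟨FT.opn E2, List.mem_cons_self, hx⟩
        exact hST a ⟨g, List.mem_of_getLast? hg, ha⟩ x h6
    · rw [hall, hset2]
      ext x
      simp only [Set.mem_union, Set.mem_ofPred_eq, List.mem_append, List.mem_cons]
      constructor
      · rintro (⟨g, (rfl | hg), h⟩ | ⟨g, (rfl | hg), h⟩)
        · exact ⟨_, Or.inl rfl, h⟩
        · exact ⟨g, Or.inr (Or.inl hg), h⟩
        · exact ⟨_, Or.inr (Or.inr (Or.inl rfl)), h⟩
        · exact ⟨g, Or.inr (Or.inr (Or.inr hg)), h⟩
      · rintro ⟨g, (rfl | hg | rfl | hg), h⟩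
        · exact Or.inl ⟨_, Or.inl rfl, h⟩
        · exact Or.inl ⟨g, Or.inr hg, h⟩
        · exact Or.inr ⟨_, Or.inl rfl, h⟩
        · exact Or.inr ⟨g, Or.inr hg, h⟩
    all_goals
      have h7 : (FT.opn E :: (gs ++ FT.opn E2 :: gs2)).flatMap FT.opens =
          E :: (FT.opn E2 :: gs2).flatMap FT.opens := by
        rw [List.flatMap_cons, List.flatMap_append, rk16_closed gs hcl]
        rfl
      rw [h7, rk16_zc_cons, zi_rich hE]
    · omega
    · rw [hzi, hli, List.length_cons]
      omega
  · -- no rich open position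
    have hnr : ∀ X, FT.opn X ∈ its → ¬ Rich X ∧ X.Infinite := fun X hX =>
      ⟨fun hc => hr ⟨_, hX, X, rfl, hc⟩, hinf X hX⟩
    have hno : zc (its.flatMap FT.opens) = no its := by
      rw [rk16_no]
      exact rk16_zc_poor _ (fun X hX => (hnr X (hopn its ds hlen hb X hX)).1)
    rw [hno] at hi
    obtain ⟨E, gs, i', hE, hRp, h1, h2, hset⟩ := right_end hm hlow hpt hP its ds hlen hb hnr hlt
      hbl hU i hi
    have h7 : (FT.opn E :: gs).flatMap FT.opens = E :: gs.flatMap FT.opens := rfl
    have h8 : zc (gs.flatMap FT.opens) = no gs := by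
      rw [rk16_no]
      exact rk16_zc_poor _ h2
    refine ⟨E, gs, i', hRp, hset, ?_, ?_⟩
    · rw [h7, rk16_zc_cons, zi_rich hE, h8]
      omega
    · rw [h7, rk16_zc_cons, zi_rich hE, h8, hno, List.length_cons, ← rk16_no, ← rk16_no]
      omega

end

end Pool.Agent.RK
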