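import Pool.Agent.RK.Defs

/-!
Project RK (MP_d404c6_co), row RK-7b (helper19): counting the open sets of the next level which
are not rich, and those which are rich with an end element.
-/

set_option autoImplicit false

open Filter

namespace Pool.Agent.RK

open Pool.Agent.RU

section
variable {L : Type} [LinearOrder L]

/-! ### own copies of the basic facts on rich sets -/

private theorem rk7b_mono {X Y : Set L} (h : Rich X) (hs : X ⊆ Y) : Rich Y := by
  obtain ⟨f, hf, hX⟩ := h
  exact ⟨f, hf, fun q => hs (hX q)⟩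

private theorem rk7b_sdiff {X : Set L} (h : Rich X) (x : L) : Rich (X \ {x}) := by
  obtain ⟨f, hf, hX⟩ := h
  obtain ⟨q₀, hq₀⟩ : ∃ q₀ : ℚ, ∀ r, q₀ < r → f r ≠ x := by
    by_cases hx : ∃ q, f q = x
    · obtain ⟨q, rfl⟩ := hx
      exact ⟨q, fun r hr => (hf hr).ne'⟩
    · exact ⟨0, fun r _ hr => hx ⟨r, hr⟩⟩
  obtain ⟨g⟩ := Order.embedding_from_countable_to_dense ℚ (Set.Ioi q₀)
  refine ⟨fun q => f (g q), fun a b hab => hf (g.strictMono hab), fun q => ⟨hX _, ?_⟩⟩
  simp only [Set.mem_singleton_iff]
  exact hq₀ _ (g q).2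

private theorem rk7b_peel {s : Bool} {X X' : Set L} {l : List L} (h : Peel s X l X') :
    Rich X' ↔ Rich X := by
  induction h with
  | nil X => exact Iff.rfl
  | cons h h' ih =>
    rw [ih]
    exact ⟨fun h1 => rk7b_mono h1 Set.sdiff_subset, fun h1 => rk7b_sdiff h1 _⟩

private theorem rk7b_peel_sub {s : Bool} {X X' : Set L} {l : List L} (h : Peel s X l X') :
    X' ⊆ X := by
  induction h with
  | nil X => exact subset_rfl
  | cons h h' ih => exact ih.trans Set.sdiff_subset

private theorem rk7b_zi_rich {X : Set L} (h : Rich X) : zi X = 0 := by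
  unfold zi
  rw [if_pos h]

private theorem rk7b_zi_congr {X Y : Set L} (h : Rich X ↔ Rich Y) : zi X = zi Y := by
  unfold zi
  by_cases hX : Rich X
  · rw [if_pos hX, if_pos (h.1 hX)]
  · rw [if_neg hX, if_neg (fun hY => hX (h.2 hY))]

private theorem rk7b_zi_le (X : Set L) : zi X ≤ 1 := by
  unfold zi
  split_ifs <;> omega

private theorem rk7b_zc_one (X : Set L) : zc [X] = zi X := by simp [zc]

private theorem rk7b_zc_append (l l' : List (Set L)) : zc (l ++ l') = zc l + zc l' := by
  simp [zc]

private theorem rk7b_ec_append (l l' : List (Set L)) : ec (l ++ l') = ec l + ec l' := by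
  simp [ec]

theorem Out.zc_cut {X : Set L} {w : ℕ} {l : List (Set L)} {s : Bool}
    (h : Out X w l (Ins.cut s)) : zc l = zi X := by
  obtain ⟨l', X', hp, -, rfl⟩ := h
  rw [rk7b_zc_one]
  exact rk7b_zi_congr (rk7b_peel hp)

theorem Out.zc_peel {X : Set L} {w : ℕ} {l : List (Set L)} {s : Bool}
    (h : Out X w l (Ins.peel s)) : zc l = zi X := by
  obtain ⟨x, hx, rfl⟩ := h
  rw [rk7b_zc_one]
  exact rk7b_zi_congr (rk7b_peel (Peel.cons hx (Peel.nil _)))

theorem Out.zc_br {X A B : Set L} {w : ℕ} {l : List (Set L)}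
    (h : Out X w l (Ins.br A B)) : zc l = zi A + zi B := by
  have h' : l = [A, B] := h
  rw [h']
  simp [zc]

theorem Out.sub {X : Set L} {w r : ℕ} {l : List (Set L)} {i : Ins L} (h : Out X w l i)
    (hv : i.Valid X r) {X' : Set L} (hX' : X' ∈ l) : X' ⊆ X := by
  cases i with
  | br A B =>
    have h' : l = [A, B] := h
    have hb : Branch X A B := hv
    rw [h'] at hX'
    rw [← hb.union]
    rcases List.mem_cons.1 hX' with rfl | h1
    · exact Set.subset_union_left
    · rw [List.mem_singleton] at h1
      rw [h1]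
      exact Set.subset_union_right
  | cut s =>
    obtain ⟨l', X'', hp, -, rfl⟩ := h
    rw [List.mem_singleton] at hX'
    rw [hX']
    exact rk7b_peel_sub hp
  | peel s =>
    obtain ⟨x, hx, rfl⟩ := h
    rw [List.mem_singleton] at hX'
    rw [hX']
    exact Set.sdiff_subset

theorem zc_le_length (Xs : List (Set L)) : zc Xs ≤ Xs.length := by
  induction Xs with
  | nil => simp [zc]
  | cons X Xs ih =>
    have h1 := rk7b_zi_le X
    have h2 : zc (X :: Xs) = zi X + zc Xs := by simp [zc]
    rw [h2, List.length_cons]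
    omega

open Classical in
theorem count_zc (Xs : List (Set L)) (ι : Set L → Ins L) (O : Set L → List (Set L)) (w : ℕ)
    (hO : ∀ X ∈ Xs, Out X w (O X) (ι X)) (D : Set (Set L)) (hD : ∀ X ∈ Xs, ¬ Rich X → X ∈ D)
    (hR : ∀ X ∈ Xs, X ∉ D → RB X (ι X) ∨ ∃ s, ι X = Ins.peel s) :
    zc (Xs.flatMap O) = (Xs.map (fun X => if X ∈ D then zc (O X) else 0)).sum := by
  induction Xs with
  | nil => simp [zc]
  | cons X Xs ih =>
    rw [List.flatMap_cons, rk7b_zc_append, List.map_cons, List.sum_cons,
      ih (fun Y hY => hO Y (List.mem_cons_of_mem _ hY))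
        (fun Y hY => hD Y (List.mem_cons_of_mem _ hY))
        (fun Y hY => hR Y (List.mem_cons_of_mem _ hY))]
    congr 1
    by_cases hX : X ∈ D
    · rw [if_pos hX]
    · rw [if_neg hX]
      have hrich : Rich X := by
        by_contra h
        exact hX (hD X List.mem_cons_self h)
      have hOX := hO X List.mem_cons_self
      rcases hR X List.mem_cons_self hX with ⟨A, B, hi, -, hA, hB, -⟩ | ⟨s, hi⟩
      · rw [hi] at hOX
        rw [hOX.zc_br, rk7b_zi_rich hA, rk7b_zi_rich hB]
      · rw [hi] at hOX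
        rw [hOX.zc_peel, rk7b_zi_rich hrich]

open Classical in
theorem count_ec (Xs : List (Set L)) (ι : Set L → Ins L) (O : Set L → List (Set L)) (w : ℕ)
    (hO : ∀ X ∈ Xs, Out X w (O X) (ι X)) (D : Set (Set L))
    (hR : ∀ X ∈ Xs, X ∉ D → RB X (ι X) ∨ ∃ s, ι X = Ins.peel s) :
    Xs.length ≤ ec (Xs.flatMap O) + (Xs.map (fun X => (ι X).npeel)).sum +
      (Xs.map (fun X => if X ∈ D then 1 else 0)).sum := by
  induction Xs with
  | nil => simp
  | cons X Xs ih =>
    have ih' := ih (fun Y hY => hO Y (List.mem_cons_of_mem _ hY))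
      (fun Y hY => hR Y (List.mem_cons_of_mem _ hY))
    rw [List.flatMap_cons, rk7b_ec_append, List.map_cons, List.sum_cons, List.map_cons,
      List.sum_cons, List.length_cons]
    have key : 1 ≤ ec (O X) + (ι X).npeel + (if X ∈ D then 1 else 0) := by
      by_cases hX : X ∈ D
      · rw [if_pos hX]
        omega
      · have hOX := hO X List.mem_cons_self
        rcases hR X List.mem_cons_self hX with ⟨A, B, hi, -, hA, hB, x, hx⟩ | ⟨s, hi⟩
        · rw [hi] at hOX
          have h' : O X = [A, B] := hOX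
          have h1 : ei A = 1 := by
            unfold ei
            rw [if_pos]
            exact ⟨hA, true, x, hx⟩
          have h2 : ec (O X) = ei A + ei B := by
            rw [h']
            simp [ec]
          omega
        · rw [hi]
          show 1 ≤ ec (O X) + 1 + _
          omega
    omega

end

end Pool.Agent.RK
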