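import Pool.Agent.RU.Defs

/-!
Project RK (MP_d404c6_co, trees with Kraft sum below one): definitions.
-/

set_option autoImplicit false

open Filter

namespace Pool.Agent.RK

open Pool.Agent.RU

section

variable {L : Type} [LinearOrder L]

/-- `X` contains a copy of the rationals -/
def Rich (X : Set L) : Prop := ∃ f : ℚ → L, StrictMono f ∧ ∀ q, f q ∈ X

/-- the left boundary of `X` is marked by an element -/
def LoB (X : Set L) : Prop :=
  (∃ x, IsLeast X x) ∨ {y | ∀ x ∈ X, y < x} = ∅ ∨ ∃ y, IsGreatest {y | ∀ x ∈ X, y < x} y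

/-- the right boundary of `X` is marked by an element -/
def HiB (X : Set L) : Prop :=
  (∃ x, IsGreatest X x) ∨ {y | ∀ x ∈ X, x < y} = ∅ ∨ ∃ y, IsLeast {y | ∀ x ∈ X, x < y} y

/-- infinite scattered intervals with marked boundaries -/
structure Poor (X : Set L) : Prop where
  inf : X.Infinite
  oc : X.OrdConnected
  scat : ¬ Rich X
  lo : LoB X
  hi : HiB X

/-- the part of `X` strictly on the side `s` of `x` (`false`: left, `true`: right) -/
def Sd (s : Bool) (X : Set L) (x : L) : Set L :=
  if s = true then {y ∈ X | x < y} else {y ∈ X | y < x}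

open Classical in
/-- `1` for a set which is not rich -/
noncomputable def zi (X : Set L) : ℕ := if Rich X then 0 else 1

open Classical in
/-- `1` for a rich set with an end element -/
noncomputable def ei (X : Set L) : ℕ := if Rich X ∧ ∃ s x, IsEnd s X x then 1 else 0

/-- the number of sets in a list which are not rich -/
noncomputable def zc (Xs : List (Set L)) : ℕ := (Xs.map zi).sum

/-- the number of rich sets with an end element in a list -/
noncomputable def ec (Xs : List (Set L)) : ℕ := (Xs.map ei).sum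

/-- separated families of at most `K` poor sets are smaller than `e j` for all `j ≥ h` -/
def CapP (L : Type) [LinearOrder L] (e : ℕ → ℝ) (K h : ℕ) : Prop :=
  ∀ l : List (Set L), (∀ A ∈ l, Poor A) → l.Pairwise Sepd → l.length ≤ K →
    ∀ j, h ≤ j → (l.length : ℝ) < e j

/-- the list `l` of the new open sets at `X` after the given instruction; cuts are of size at
most `w` -/
def Out (X : Set L) (w : ℕ) (l : List (Set L)) : Ins L → Prop
  | Ins.br A B => l = [A, B]
  | Ins.cut s => ∃ l' X', Peel s X l' X' ∧ l'.length ≤ w ∧ l = [X']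
  | Ins.peel s => ∃ x, IsEnd s X x ∧ l = [X \ {x}]

/-- branch a rich set into two rich sets, the left one having a maximum -/
def RB (X : Set L) (i : Ins L) : Prop :=
  ∃ A B, i = Ins.br A B ∧ Branch X A B ∧ Rich A ∧ Rich B ∧ ∃ x, IsGreatest A x

end

/-! ## Slots -/

/-- the number of slots of depth at most `n` -/
noncomputable def Qn (δ : ℕ → ℕ) (n : ℕ) : ℕ := {i | δ i ≤ n}.ncard

/-- the mass of the slots of depth larger than `n`, in units `2 ^ (-n)` -/
noncomputable def ee (δ : ℕ → ℕ) (τ : ℝ) (n : ℕ) : ℝ := (τ - Pm δ (Qn δ n)) * 2 ^ n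

/-- the least distance from `μ * 2 ^ h` to a larger integer -/
noncomputable def gm (μ : ℝ) (h : ℕ) : ℝ := (⌊μ * 2 ^ h⌋₊ : ℝ) + 1 - μ * 2 ^ h

/-- `μ`: mass of the infinite branches; `δ`: depths of the slots, all larger than `n0`, in
nondecreasing order, of total mass `τ`; there are few slots at every depth -/
structure Num2 (μ τ : ℝ) (n0 : ℕ) (δ : ℕ → ℕ) : Prop where
  mu : 0 < μ
  big : 32 ≤ μ * 2 ^ n0
  mono : Monotone δ
  low : ∀ i, n0 < δ i
  fin : ∀ n, {i | δ i ≤ n}.Finite
  lim : Tendsto (Pm δ) atTop (nhds τ)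
  sparse : ∀ m, n0 < m → ({i | δ i = m}.ncard : ℝ) ≤ μ * 2 ^ m / 64

section

variable {L : Type} [LinearOrder L]

/-- basic states at level `n`: the first `p` slots are used -/
structure St0 (n0 : ℕ) (μ τ : ℝ) (base δ : ℕ → ℕ) (t : FT L) (n p : ℕ) : Prop where
  wf : t.WF
  car : t.car = Set.univ
  opat : t.OpAt 0 n
  nn : n0 ≤ n
  cnt : ∀ d, t.cnt 0 d = base d + cD δ 0 p d
  mass : Pm δ p + (t.opens.length : ℝ) * (1 / 2) ^ n = τ + μ
  used : ∀ i, p ≤ i → n < δ i

/-- states: moreover few open sets are not rich and many rich open sets have an end element -/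
structure St2 (n0 : ℕ) (μ τ : ℝ) (base δ : ℕ → ℕ) (t : FT L) (n p : ℕ) : Prop
    extends St0 n0 μ τ base δ t n p where
  zlt : (zc t.opens : ℝ) < t.opens.length - μ * 2 ^ n
  ends : μ * 2 ^ n / 8 ≤ (ec t.opens : ℝ)
  capz : ∀ j, n ≤ j → (zc t.opens : ℝ) < ee δ τ j

/-- good states with base level `h` and horizon `m`: the open sets which are not rich have end
runs which last until level `m` -/
structure Good2 (n0 : ℕ) (μ τ : ℝ) (base δ : ℕ → ℕ) (t : FT L) (n p h m : ℕ) : Prop
    extends St2 n0 μ τ base δ t n p where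
  hm : h ≤ m
  nm : n ≤ m
  hz : ee δ τ m < 2 ^ (m - h) * gm μ h
  gap : h ≤ n → 2 ^ (n - h) * gm μ h ≤ t.opens.length - μ * 2 ^ n - zc t.opens
  bd : ∃ B, τ - (1 / 2 : ℝ) ^ (m + 1) < Pm δ B ∧
    ∀ X ∈ t.opens, ¬ Rich X → Run X (B + m - (p + n))
  cap2 : CapP L (ee δ τ) (2 * zc t.opens + 2) h

end

/-! ## Reassembling a finite partial tree -/

section

variable {L : Type}

/-- the end positions of a partial tree, from left to right -/
def fr : FT L → List (FT L)
  | FT.leaf x => [FT.leaf x]
  | FT.opn X => [FT.opn X]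
  | FT.node l r => fr l ++ fr r

/-- the depths of the end positions if the root has depth `b` -/
def dps : FT L → ℕ → List ℕ
  | FT.leaf _, b => [b]
  | FT.opn _, b => [b]
  | FT.node l r, b => dps l (b + 1) ++ dps r (b + 1)

/-- put the trees of the list `gs` at the end positions of `t` -/
def asm : FT L → List (FT L) → FT L
  | FT.leaf x, gs => gs.headD (FT.leaf x)
  | FT.opn X, gs => gs.headD (FT.opn X)
  | FT.node l r, gs =>
    FT.node (asm l (gs.take (fr l).length)) (asm r (gs.drop (fr l).length))

/-- the number of branching nodes of depth `n` if the root has depth `b` -/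
def nn : FT L → ℕ → ℕ → ℕ
  | FT.leaf _, _, _ => 0
  | FT.opn _, _, _ => 0
  | FT.node l r, b, n => (if b = n then 1 else 0) + nn l (b + 1) n + nn r (b + 1) n

/-- total number of leaves of depth `d` of the trees `gs` placed at the depths `ds` -/
def sc (gs : List (FT L)) (ds : List ℕ) (d : ℕ) : ℕ :=
  (List.zipWith (fun g e => g.cnt e d) gs ds).sum

/-- a position: a leaf anywhere, or an open node at depth `n0` -/
def IsPos (n0 : ℕ) (g : FT L) (e : ℕ) : Prop :=
  (∃ x, g = FT.leaf x) ∨ ((∃ X, g = FT.opn X) ∧ e = n0)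

/-- the number of elements needed to fill the positions `b` by finite pieces; the pieces for the
open nodes take the slots `pt i, .., pt (i + 1) - 1` -/
def need (pt : ℕ → ℕ) : ℕ → List (FT L) → ℕ
  | _, [] => 0
  | i, FT.leaf _ :: b => 1 + need pt i b
  | i, FT.opn _ :: b => (pt (i + 1) - pt i) + need pt (i + 1) b
  | i, FT.node _ _ :: b => need pt i b

/-- the number of open nodes in a list of positions -/
def no (b : List (FT L)) : ℕ := (b.map (fun g => g.opens.length)).sum

variable [LinearOrder L]

/-- left parts are below right parts -/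
def Ord : FT L → Prop
  | FT.leaf _ => True
  | FT.opn X => X.Infinite ∧ X.OrdConnected
  | FT.node l r => Ord l ∧ Ord r ∧ ∀ a ∈ l.car, ∀ b ∈ r.car, a < b

/-- `A` is below `B`, and `A` has a maximum or `B` has a minimum -/
def Bnd (A B : Set L) : Prop :=
  (∀ a ∈ A, ∀ b ∈ B, a < b) ∧ ((∃ x, IsGreatest A x) ∨ ∃ x, IsLeast B x)

/-- `gs` replaces the positions `its`, which have the depths `ds`; the finite pieces use the
slots from `pt i` to `pt i' - 1` -/
structure Rp (n0 : ℕ) (δ pt : ℕ → ℕ) (its gs : List (FT L)) (ds : List ℕ) (i i' : ℕ) :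
    Prop where
  len : gs.length = its.length
  wf : ∀ g ∈ gs, g.WF
  opat : ∀ q ∈ gs.zip ds, q.1.OpAt q.2 n0
  chain : gs.IsChain (fun g g' => Bnd g.car g'.car)
  cnt : ∀ d, sc gs ds d = sc its ds d + cD δ (pt i) (pt i') d
  num : i' + no gs = i + no its
  le : i ≤ i'
  nz : ∀ q ∈ gs.zip ds, ∀ n, n < n0 → nn q.1 q.2 n = 0

end

/-! ## Trees -/

/-- the leaves below the node `w` -/
def Below (T : Set (List Bool)) (w : List Bool) : Set (Lf T) := {x | w <+: x.1}

/-- the number of nodes of depth `j` with infinitely many leaves below -/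
noncomputable def InfN (T : Set (List Bool)) (j : ℕ) : ℕ :=
  {w | (w ∈ T ∧ (Below T w).Infinite) ∧ w.length = j}.ncard

/-- the number of nodes of depth `j` whose leaf set contains a copy of the rationals -/
noncomputable def RichN (T : Set (List Bool)) (j : ℕ) : ℕ :=
  {w | (w ∈ T ∧ Rich (Below T w)) ∧ w.length = j}.ncard

/-- the number of leaves of depth `d` whose prefix of length `j` has only finitely many leaves
below -/
noncomputable def baseN (T : Set (List Bool)) (j d : ℕ) : ℕ :=
  {u | IsLeaf T u ∧ u.length = d ∧ (Below T (u.take j)).Finite}.ncard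

/-- the number of leaves of depth `d` whose prefix of length `j` has infinitely many leaves
below -/
noncomputable def slotN (T : Set (List Bool)) (j d : ℕ) : ℕ :=
  {u | IsLeaf T u ∧ u.length = d ∧ (Below T (u.take j)).Infinite}.ncard

end Pool.Agent.RK
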