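import Pool.Agent.RK.Defs
import Pool.Agent.RU.Mass

/-!
Project RK, row RK-5: numerics of the slots and of the basic states (helper82 for helper59).
-/

set_option autoImplicit false

open Filter

namespace Pool.Agent.RK

open Pool.Agent.RU

section

variable {L : Type} [LinearOrder L] {μ τ : ℝ} {n0 : ℕ} {base δ : ℕ → ℕ}

theorem Num2.lt_Qn (hN : Num2 μ τ n0 δ) (i n : ℕ) : i < Qn δ n ↔ δ i ≤ n := by
  obtain ⟨q, hq⟩ := ru10_segment (hN.fin n)
    (fun a b hab hb => (hN.mono hab).trans hb)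
  have h1 : {i | δ i ≤ n} = (Finset.range q : Set ℕ) := by
    ext a
    rw [← hq a]
    simp
  have h2 : Qn δ n = q := by
    unfold Qn
    rw [h1, Set.ncard_coe_finset, Finset.card_range]
  rw [h2, hq i]
  rfl

theorem Num2.used_iff (hN : Num2 μ τ n0 δ) (p n : ℕ) :
    (∀ i, p ≤ i → n < δ i) ↔ Qn δ n ≤ p := by
  constructor
  · intro h
    by_contra hlt
    have h1 := (hN.lt_Qn p n).1 (not_le.1 hlt)
    have h2 := h p le_rfl
    omega
  · intro h i hi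
    by_contra hlt
    have h1 := (hN.lt_Qn i n).2 (not_lt.1 hlt)
    omega

theorem Num2.pm_lt (hN : Num2 μ τ n0 δ) (p : ℕ) : Pm δ p < τ := by
  have h1 : Pm δ (p + 1) ≤ τ := (ru10_pm_strict δ).monotone.ge_of_tendsto hN.lim (p + 1)
  exact (ru10_pm_strict δ (Nat.lt_succ_self p)).trans_le h1

theorem Num2.ee_pos (hN : Num2 μ τ n0 δ) (n : ℕ) : 0 < ee δ τ n := by
  unfold ee
  have h1 := hN.pm_lt (Qn δ n)
  exact mul_pos (by linarith) (by positivity)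

theorem Num2.rk5_Qn_succ (hN : Num2 μ τ n0 δ) (n : ℕ) :
    Qn δ (n + 1) = Qn δ n + {i | δ i = n + 1}.ncard := by
  unfold Qn
  have h1 : {i | δ i ≤ n + 1} = {i | δ i ≤ n} ∪ {i | δ i = n + 1} := by
    ext i
    simp only [Set.mem_setOf_eq, Set.mem_union]
    omega
  have hf : {i | δ i = n + 1}.Finite :=
    (hN.fin (n + 1)).subset (fun i hi => by
      simp only [Set.mem_setOf_eq] at hi ⊢
      omega)
  rw [h1, Set.ncard_union_eq _ (hN.fin n) hf]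
  rw [Set.disjoint_left]
  intro i hi hi'
  simp only [Set.mem_setOf_eq] at hi hi'
  omega

theorem Num2.sparse' (hN : Num2 μ τ n0 δ) {n p : ℕ} (hn : n0 ≤ n) (hp : Qn δ n ≤ p) :
    ((Qn δ (n + 1) - p : ℕ) : ℝ) ≤ μ * 2 ^ n / 32 := by
  have h1 := hN.sparse (n + 1) (by omega)
  have h2 : Qn δ (n + 1) - p ≤ {i | δ i = n + 1}.ncard := by
    rw [hN.rk5_Qn_succ n]
    omega
  have h3 : ((Qn δ (n + 1) - p : ℕ) : ℝ) ≤ ({i | δ i = n + 1}.ncard : ℝ) := by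
    exact_mod_cast h2
  rw [pow_succ] at h1
  linarith

theorem gm_pos (μ : ℝ) (h : ℕ) : 0 < gm μ h := by
  unfold gm
  have := Nat.lt_floor_add_one (μ * 2 ^ h)
  linarith

theorem gm_le {μ : ℝ} (hμ : 0 ≤ μ) {h a : ℕ} (ha : μ * 2 ^ h < a) :
    gm μ h ≤ a - μ * 2 ^ h := by
  unfold gm
  have h0 : (0 : ℝ) ≤ μ * 2 ^ h := by positivity
  have h1 : ⌊μ * 2 ^ h⌋₊ < a := (Nat.floor_lt h0).2 ha
  have h2 : ((⌊μ * 2 ^ h⌋₊ : ℕ) : ℝ) + 1 ≤ a := by exact_mod_cast h1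
  linarith

theorem Num2.bound (hN : Num2 μ τ n0 δ) (m k : ℕ) :
    ∃ B, k ≤ B ∧ τ - (1 / 2 : ℝ) ^ m < Pm δ B := by
  have h0 : (0 : ℝ) < (1 / 2) ^ m := by positivity
  have h1 : ∀ᶠ B in atTop, τ - (1 / 2 : ℝ) ^ m < Pm δ B :=
    hN.lim.eventually (lt_mem_nhds (by linarith))
  obtain ⟨B, hB1, hB2⟩ := (h1.and (eventually_ge_atTop k)).exists
  exact ⟨B, hB2, hB1⟩

theorem Num2.horizon (hN : Num2 μ τ n0 δ) (h k : ℕ) :
    ∃ m, k ≤ m ∧ h ≤ m ∧ ee δ τ m < 2 ^ (m - h) * gm μ h := by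
  have hg := gm_pos μ h
  have h0 : (0 : ℝ) < gm μ h / 2 ^ h := by positivity
  have h1 : ∀ᶠ B in atTop, τ - gm μ h / 2 ^ h < Pm δ B :=
    hN.lim.eventually (lt_mem_nhds (by linarith))
  obtain ⟨p, hp⟩ := h1.exists
  refine ⟨max k (max h (δ p)), le_max_left _ _, (le_max_left _ _).trans (le_max_right _ _), ?_⟩
  set m := max k (max h (δ p)) with hm
  have hhm : h ≤ m := (le_max_left _ _).trans (le_max_right _ _)
  have hpm : δ p ≤ m := (le_max_right _ _).trans (le_max_right _ _)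
  have h2 : p < Qn δ m := (hN.lt_Qn p m).2 hpm
  have h3 : Pm δ p ≤ Pm δ (Qn δ m) := (ru10_pm_strict δ).monotone h2.le
  unfold ee
  have h4 : τ - Pm δ (Qn δ m) < gm μ h / 2 ^ h := by linarith
  have h5 : (2 : ℝ) ^ m = 2 ^ (m - h) * 2 ^ h := by
    rw [← pow_add]
    congr 1
    omega
  have h6 : (0 : ℝ) < 2 ^ m := by positivity
  calc (τ - Pm δ (Qn δ m)) * 2 ^ m < gm μ h / 2 ^ h * 2 ^ m := mul_lt_mul_of_pos_right h4 h6
    _ = 2 ^ (m - h) * gm μ h := by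
      rw [h5]
      field_simp

theorem Num2.cD_total (hN : Num2 μ τ n0 δ) {n p d : ℕ} (hp : ∀ i, p ≤ i → n < δ i)
    (hd : d ≤ n) : cD δ 0 p d = {i | δ i = d}.ncard := by
  have _ := hN
  unfold cD
  rw [← Set.ncard_coe_finset]
  congr 1
  ext i
  simp only [Finset.coe_filter, Finset.mem_Ico, Set.mem_setOf_eq]
  constructor
  · exact fun h' => h'.2
  · intro hi
    refine ⟨⟨Nat.zero_le _, ?_⟩, hi⟩
    by_contra hlt
    have := hp i (not_lt.1 hlt)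
    omega

theorem St0.slack {t : FT L} {n p : ℕ} (h : St0 n0 μ τ base δ t n p) :
    (t.opens.length : ℝ) - μ * 2 ^ n = (τ - Pm δ p) * 2 ^ n := by
  have h1 := h.mass
  have h2 : ((1 : ℝ) / 2) ^ n * 2 ^ n = 1 := by
    rw [← mul_pow]
    norm_num
  have h3 : (t.opens.length : ℝ) = (t.opens.length : ℝ) * (1 / 2) ^ n * 2 ^ n := by
    rw [mul_assoc, h2, mul_one]
  have h4 : (t.opens.length : ℝ) * (1 / 2) ^ n = τ + μ - Pm δ p := by linarith
  rw [h3, h4]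
  ring

theorem St0.slack_le (hN : Num2 μ τ n0 δ) {t : FT L} {n p : ℕ}
    (h : St0 n0 μ τ base δ t n p) : (t.opens.length : ℝ) - μ * 2 ^ n ≤ ee δ τ n := by
  rw [h.slack]
  unfold ee
  have h1 : Qn δ n ≤ p := (hN.used_iff p n).1 h.used
  have h2 : Pm δ (Qn δ n) ≤ Pm δ p := (ru10_pm_strict δ).monotone h1
  exact mul_le_mul_of_nonneg_right (by linarith) (by positivity)

theorem St0.slack_eq {t : FT L} {n p : ℕ} (h : St0 n0 μ τ base δ t n p)
    (hp : p = Qn δ n) : (t.opens.length : ℝ) - μ * 2 ^ n = ee δ τ n := by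
  rw [h.slack, hp]
  rfl

end

end Pool.Agent.RK
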