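import Pool.Agent.RK.Defs
import Pool.Agent.RU.Refresh

/-!
Project RK (MP_d404c6_co), row RK-7a: choice of the instructions with exactly `c` extra peels.
-/

set_option autoImplicit false

namespace Pool.Agent.RK

open Pool.Agent.RU

section

variable {L : Type} [LinearOrder L]

theorem rk7a_rich (X : Set L) (f : ℚ → L) (hf : StrictMono f) (a : ℚ)
    (h : ∀ q, a < q → q < a + 2 → f q ∈ X) : Rich X := by
  refine ⟨fun q => f ((orderIsoIooNegOneOne ℚ q : ℚ) + (a + 1)), ?_, ?_⟩
  · intro q q' hq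
    apply hf
    have : orderIsoIooNegOneOne ℚ q < orderIsoIooNegOneOne ℚ q' :=
      (orderIsoIooNegOneOne ℚ).strictMono hq
    have h2 : ((orderIsoIooNegOneOne ℚ q : ℚ)) < orderIsoIooNegOneOne ℚ q' := this
    linarith
  · intro q
    have h1 := (orderIsoIooNegOneOne ℚ q).2.1
    have h2 := (orderIsoIooNegOneOne ℚ q).2.2
    exact h _ (by linarith) (by linarith)

theorem rk7a_infinite {X : Set L} (h : Rich X) : X.Infinite := by
  obtain ⟨f, hf, hX⟩ := h
  exact (Set.infinite_range_of_injective hf.injective).mono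
    (by rintro _ ⟨q, rfl⟩; exact hX q)

theorem rk7a_branch {X : Set L} (h : Rich X) (hc : X.OrdConnected) : ∃ i, RB X i := by
  obtain ⟨f, hf, hX⟩ := h
  have hA : Rich {y ∈ X | y < f 0} :=
    rk7a_rich _ f hf (-2) (fun q _ h2 => ⟨hX q, hf (by linarith)⟩)
  have hB : Rich {y ∈ X | f 0 < y} :=
    rk7a_rich _ f hf 0 (fun q h1 _ => ⟨hX q, hf h1⟩)
  refine ⟨_, {y ∈ X | y ≤ f 0}, {y ∈ X | f 0 < y}, rfl,
    branch_at hc (hX 0) (rk7a_infinite hA) (rk7a_infinite hB), ?_, hB,
    f 0, ⟨hX 0, le_rfl⟩, fun y hy => hy.2⟩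
  obtain ⟨g, hg, hgX⟩ := hA
  exact ⟨g, hg, fun q => ⟨(hgX q).1, (hgX q).2.le⟩⟩

open Classical in
theorem rk7a_sum_le (Xs : List (Set L)) (D : Set (Set L)) :
    (Xs.map (fun X => if X ∈ D then ei X else 0)).sum ≤ ec Xs := by
  unfold ec
  induction Xs with
  | nil => simp
  | cons X Xs ih =>
    rw [List.map_cons, List.sum_cons, List.map_cons, List.sum_cons]
    by_cases h : X ∈ D
    · rw [if_pos h]; omega
    · rw [if_neg h]; omega

theorem rk7a_ei_cases {X : Set L} : ei X = 0 ∨ (ei X = 1 ∧ ∃ s x, IsEnd s X x) := by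
  unfold ei
  by_cases h : Rich X ∧ ∃ s x, IsEnd s X x
  · rw [if_pos h]; exact Or.inr ⟨rfl, h.2⟩
  · rw [if_neg h]; exact Or.inl rfl

open Classical in
theorem rk7a_ext (X : Set L) (Xs : List (Set L)) (hnX : X ∉ Xs) (r : ℕ) (D : Set (Set L))
    (q : Set L → Ins L) (c0 : ℕ) (i : Ins L) (ι : Set L → Ins L)
    (h1 : ∀ X ∈ Xs, X ∈ D → ι X = q X)
    (h2 : ∀ X ∈ Xs, X ∉ D → RB X (ι X) ∨ ∃ s, ι X = Ins.peel s)
    (h3 : ∀ X ∈ Xs, (ι X).Valid X r)
    (h4 : (Xs.map (fun X => (ι X).npeel)).sum =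
        c0 + (Xs.map (fun X => if X ∈ D then (q X).npeel else 0)).sum)
    (h5 : (Xs.map (fun X => (ι X).ncut)).sum =
        (Xs.map (fun X => if X ∈ D then (q X).ncut else 0)).sum)
    (g1 : X ∈ D → i = q X) (g2 : X ∉ D → RB X i ∨ ∃ s, i = Ins.peel s)
    (g3 : i.Valid X r) (c : ℕ)
    (g4 : i.npeel + c0 = c + if X ∈ D then (q X).npeel else 0)
    (g5 : i.ncut = if X ∈ D then (q X).ncut else 0) :
    ∃ ι : Set L → Ins L, (∀ Y ∈ X :: Xs, Y ∈ D → ι Y = q Y) ∧
      (∀ Y ∈ X :: Xs, Y ∉ D → RB Y (ι Y) ∨ ∃ s, ι Y = Ins.peel s) ∧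
      (∀ Y ∈ X :: Xs, (ι Y).Valid Y r) ∧
      ((X :: Xs).map (fun X => (ι X).npeel)).sum =
        c + ((X :: Xs).map (fun X => if X ∈ D then (q X).npeel else 0)).sum ∧
      ((X :: Xs).map (fun X => (ι X).ncut)).sum =
        ((X :: Xs).map (fun X => if X ∈ D then (q X).ncut else 0)).sum := by
  have hne : ∀ Y ∈ Xs, Function.update ι X i Y = ι Y := by
    intro Y hY
    apply Function.update_of_ne
    rintro rfl
    exact hnX hY
  refine ⟨Function.update ι X i, ?_, ?_, ?_, ?_, ?_⟩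
  · intro Y hY hD
    rcases List.mem_cons.1 hY with rfl | hY
    · rw [Function.update_self]; exact g1 hD
    · rw [hne Y hY]; exact h1 Y hY hD
  · intro Y hY hD
    rcases List.mem_cons.1 hY with rfl | hY
    · rw [Function.update_self]; exact g2 hD
    · rw [hne Y hY]; exact h2 Y hY hD
  · intro Y hY
    rcases List.mem_cons.1 hY with rfl | hY
    · rw [Function.update_self]; exact g3
    · rw [hne Y hY]; exact h3 Y hY
  · have e : Xs.map (fun X_1 => (Function.update ι X i X_1).npeel) =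
        Xs.map (fun X => (ι X).npeel) :=
      List.map_congr_left (fun Y hY => by rw [hne Y hY])
    rw [List.map_cons, List.sum_cons, List.map_cons, List.sum_cons, e, h4, Function.update_self]
    omega
  · have e : Xs.map (fun X_1 => (Function.update ι X i X_1).ncut) =
        Xs.map (fun X => (ι X).ncut) :=
      List.map_congr_left (fun Y hY => by rw [hne Y hY])
    rw [List.map_cons, List.sum_cons, List.map_cons, List.sum_cons, e, h5, Function.update_self,
      g5]

open Classical in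
/-- `q` prescribes the instructions on `D`, which contains all sets that are not rich; the other
sets are rich and are branched (`RB`) or peeled, exactly `c` of them being peeled -/
theorem plan (Xs : List (Set L)) (hn : Xs.Nodup) (hX : ∀ X ∈ Xs, X.OrdConnected) (r : ℕ)
    (D : Set (Set L)) (q : Set L → Ins L) (hD : ∀ X ∈ Xs, ¬ Rich X → X ∈ D)
    (hq : ∀ X ∈ Xs, X ∈ D → (q X).Valid X r) (c : ℕ)
    (hc : c + (Xs.map (fun X => if X ∈ D then ei X else 0)).sum ≤ ec Xs) :
    ∃ ι : Set L → Ins L, (∀ X ∈ Xs, X ∈ D → ι X = q X) ∧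
      (∀ X ∈ Xs, X ∉ D → RB X (ι X) ∨ ∃ s, ι X = Ins.peel s) ∧
      (∀ X ∈ Xs, (ι X).Valid X r) ∧
      (Xs.map (fun X => (ι X).npeel)).sum =
        c + (Xs.map (fun X => if X ∈ D then (q X).npeel else 0)).sum ∧
      (Xs.map (fun X => (ι X).ncut)).sum =
        (Xs.map (fun X => if X ∈ D then (q X).ncut else 0)).sum := by
  induction Xs generalizing c with
  | nil =>
    refine ⟨q, by simp, by simp, by simp, ?_, by simp⟩
    have : c = 0 := by
      simp [ec] at hc
      exact hc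
    simp [this]
  | cons X Xs ih =>
    have hnX : X ∉ Xs := (List.nodup_cons.1 hn).1
    have hn' : Xs.Nodup := (List.nodup_cons.1 hn).2
    have hX' : ∀ Y ∈ Xs, Y.OrdConnected := fun Y hY => hX Y (List.mem_cons_of_mem _ hY)
    have hD' : ∀ Y ∈ Xs, ¬ Rich Y → Y ∈ D := fun Y hY => hD Y (List.mem_cons_of_mem _ hY)
    have hq' : ∀ Y ∈ Xs, Y ∈ D → (q Y).Valid Y r :=
      fun Y hY => hq Y (List.mem_cons_of_mem _ hY)
    have hXX : X ∈ X :: Xs := List.mem_cons_self
    have hec : ec (X :: Xs) = ei X + ec Xs := by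
      unfold ec
      rw [List.map_cons, List.sum_cons]
    rw [List.map_cons, List.sum_cons, hec] at hc
    by_cases hXD : X ∈ D
    · rw [if_pos hXD] at hc
      obtain ⟨ι, h1, h2, h3, h4, h5⟩ := ih hn' hX' hD' hq' c (by omega)
      exact rk7a_ext X Xs hnX r D q c (q X) ι h1 h2 h3 h4 h5 (fun _ => rfl)
        (fun h => absurd hXD h) (hq X hXX hXD) c (by rw [if_pos hXD]; omega)
        (by rw [if_pos hXD])
    · have hR : Rich X := by
        by_contra h
        exact hXD (hD X hXX h)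
      rw [if_neg hXD] at hc
      have key : (ei X = 1 ∧ 1 ≤ c ∧ ∃ s x, IsEnd s X x) ∨
          c + (Xs.map (fun X => if X ∈ D then ei X else 0)).sum ≤ ec Xs := by
        rcases rk7a_ei_cases (X := X) with h | ⟨h, h'⟩
        · right
          omega
        · by_cases h0 : c = 0
          · right
            have := rk7a_sum_le Xs D
            omega
          · exact Or.inl ⟨h, by omega, h'⟩
      rcases key with ⟨h, h1c, s, x, hsx⟩ | hle
      · obtain ⟨ι, h1, h2, h3, h4, h5⟩ := ih hn' hX' hD' hq' (c - 1) (by omega)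
        exact rk7a_ext X Xs hnX r D q (c - 1) (Ins.peel s) ι h1 h2 h3 h4 h5
          (fun h => absurd h hXD) (fun _ => Or.inr ⟨s, rfl⟩) ⟨x, hsx⟩ c
          (by rw [if_neg hXD]; simp only [Ins.npeel]; omega)
          (by rw [if_neg hXD]; rfl)
      · obtain ⟨ι, h1, h2, h3, h4, h5⟩ := ih hn' hX' hD' hq' c hle
        obtain ⟨i, A, B, hi, hAB, hRA, hRB, hgr⟩ := rk7a_branch hR (hX X hXX)
        subst hi
        exact rk7a_ext X Xs hnX r D q c (Ins.br A B) ι h1 h2 h3 h4 h5
          (fun h => absurd h hXD) (fun _ => Or.inl ⟨A, B, rfl, hAB, hRA, hRB, hgr⟩) hAB c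
          (by rw [if_neg hXD]; simp only [Ins.npeel]; omega)
          (by rw [if_neg hXD]; rfl)

end

end Pool.Agent.RK
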