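import Pool.Agent.RK.Defs
import Pool.Agent.RU.Proc
import Pool.Agent.RU.FTBasicA
import Pool.Agent.RU.FTBasicB
import Pool.Agent.RU.Mass

/-!
RK-6: one step of the machine.
-/

set_option autoImplicit false

open Filter

namespace Pool.Agent.RK

open Pool.Agent.RU

section
variable {L : Type} [LinearOrder L] {δ : ℕ → ℕ}

theorem rk6_one (hm : Monotone δ) {n B r : ℕ} (i : Ins L) (X : Set L) (p : ℕ)
    (hδ : ∀ i, p ≤ i → n + 1 ≤ δ i) (hX : X.Infinite ∧ X.OrdConnected) (hv : i.Valid X r)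
    (hr : B - p ≤ r) (hB : Pm δ p + (i.ncut : ℝ) * (1 / 2) ^ (n + 1) < Pm δ B) :
    ∃ (p' : ℕ) (F : FT L), p ≤ p' ∧ p' < B ∧
      Pm δ p' = Pm δ p + (i.ncut : ℝ) * (1 / 2) ^ (n + 1) ∧
      F.WF ∧ F.car = X ∧ F.OpAt n (n + 1) ∧ Out X (p' - p) F.opens i ∧
      ∀ d, F.cnt n d = cD δ p p' d + if d = n + 1 then i.npeel else 0 := by
  cases i with
  | br A C =>
    have h1 : Pm δ p + ((0 : ℕ) : ℝ) * (1 / 2) ^ (n + 1) = Pm δ p := by
      rw [Nat.cast_zero, zero_mul, add_zero]
    change Pm δ p + ((0 : ℕ) : ℝ) * (1 / 2) ^ (n + 1) < Pm δ B at hB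
    rw [h1] at hB
    have hv' : Branch X A C := hv
    refine ⟨p, FT.node (FT.opn A) (FT.opn C), le_rfl, (pm_lt_iff δ p B).1 hB, h1.symm,
      ⟨⟨hv'.infA, hv'.ocA⟩, ⟨hv'.infB, hv'.ocB⟩, hv'.lt, hv'.srch⟩, hv'.union, ⟨rfl, rfl⟩, rfl,
      ?_⟩
    intro d
    change 0 + 0 = cD δ p p d + if d = n + 1 then 0 else 0
    rw [ru14_cD_self]
    simp
  | cut s =>
    have h1 : Pm δ p + ((1 : ℕ) : ℝ) * (1 / 2) ^ (n + 1) = Pm δ p + (1 / 2) ^ (n + 1) := by
      rw [Nat.cast_one, one_mul]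
    change Pm δ p + ((1 : ℕ) : ℝ) * (1 / 2) ^ (n + 1) < Pm δ B at hB
    rw [h1] at hB
    obtain ⟨p', h2, -, h3⟩ := exact hm hδ hB.le
    have h4 : p' < B := by
      rw [← pm_lt_iff δ, h3]
      exact hB
    have hv' : ERun s X r := hv
    obtain ⟨l, X', hl, hp⟩ := hv'.mono (show p' - p ≤ r by omega)
    have hl0 : l ≠ [] := by
      rintro rfl
      rw [List.length_nil] at hl
      omega
    have h5 : ∃ F : FT L, F.WF ∧ F.opens = [] ∧ F.car = {x | x ∈ l} ∧
        ∀ d, F.cnt (n + 1) d = cD δ p p' d := by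
      cases s with
      | false => exact fin_tree hm (n + 1) p p' h2.le hδ h3 l hl (Peel.left hp).1
      | true =>
        obtain ⟨F, h6, h7, h8, h9⟩ := fin_tree hm (n + 1) p p' h2.le hδ h3 l.reverse
          (by rw [List.length_reverse]; exact hl) (Peel.right hp).1
        refine ⟨F, h6, h7, ?_, h9⟩
        rw [h8]
        ext x
        simp
    obtain ⟨F, h6, h7, h8, h9⟩ := h5
    obtain ⟨G, h10, h11, h12, h13, h14⟩ := ru14_side hp hl0 hX F h6 h7 h8 n
    refine ⟨p', G, h2.le, h4, ?_, h10, h11, h12, ?_, ?_⟩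
    · rw [h3]
      exact h1.symm
    · exact ⟨l, X', hp, hl.le, h13⟩
    · intro d
      rw [h14, h9]
      change _ = cD δ p p' d + if d = n + 1 then 0 else 0
      simp
  | peel s =>
    have h1 : Pm δ p + ((0 : ℕ) : ℝ) * (1 / 2) ^ (n + 1) = Pm δ p := by
      rw [Nat.cast_zero, zero_mul, add_zero]
    change Pm δ p + ((0 : ℕ) : ℝ) * (1 / 2) ^ (n + 1) < Pm δ B at hB
    rw [h1] at hB
    obtain ⟨x, hx⟩ : ∃ x, IsEnd s X x := hv
    obtain ⟨G, h10, h11, h12, h13, h14⟩ := ru14_side (Peel.one hx) (List.cons_ne_nil x [])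
      hX (FT.leaf x) trivial rfl (by ext y; simp [FT.car]) n
    refine ⟨p, G, le_rfl, (pm_lt_iff δ p B).1 hB, h1.symm, h10, h11, h12, ⟨x, hx, h13⟩, ?_⟩
    intro d
    rw [h14, ru14_cD_self]
    change (if n + 1 = d then 1 else 0) = 0 + if d = n + 1 then 1 else 0
    by_cases h : n + 1 = d
    · rw [if_pos h, if_pos h.symm]
    · rw [if_neg h, if_neg (fun h' => h h'.symm)]

theorem rk6_out_mono {X : Set L} {l : List (Set L)} {w w' : ℕ} (hw : w ≤ w') {i : Ins L}
    (h : Out X w l i) : Out X w' l i := by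
  cases i with
  | br A C => exact h
  | cut s =>
    obtain ⟨l', X', h1, h2, h3⟩ := h
    exact ⟨l', X', h1, h2.trans hw, h3⟩
  | peel s => exact h

theorem rk6_proc (hm : Monotone δ) {n B r : ℕ} (ι : Set L → Ins L) (Xs : List (Set L)) (p : ℕ)
    (hδ : ∀ i, p ≤ i → n + 1 ≤ δ i) (hnd : Xs.Nodup)
    (hX : ∀ X ∈ Xs, X.Infinite ∧ X.OrdConnected) (hv : ∀ X ∈ Xs, (ι X).Valid X r)
    (hr : B - p ≤ r)
    (hB : Pm δ p + (((Xs.map (fun X => (ι X).ncut)).sum : ℕ) : ℝ) * (1 / 2) ^ (n + 1) < Pm δ B) :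
    ∃ (p' : ℕ) (G : Set L → FT L), p ≤ p' ∧ p' < B ∧
      Pm δ p' = Pm δ p + (((Xs.map (fun X => (ι X).ncut)).sum : ℕ) : ℝ) * (1 / 2) ^ (n + 1) ∧
      (∀ X ∈ Xs, (G X).WF ∧ (G X).car = X ∧ (G X).OpAt n (n + 1) ∧
        Out X (p' - p) (G X).opens (ι X)) ∧
      ∀ d, (Xs.map (fun X => (G X).cnt n d)).sum =
        cD δ p p' d + if d = n + 1 then (Xs.map (fun X => (ι X).npeel)).sum else 0 := by
  classical
  induction Xs generalizing p with
  | nil =>
    rw [List.map_nil, List.sum_nil, Nat.cast_zero, zero_mul, add_zero] at hB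
    refine ⟨p, fun X => FT.opn X, le_rfl, (pm_lt_iff δ p B).1 hB, ?_, ?_, ?_⟩
    · rw [List.map_nil, List.sum_nil, Nat.cast_zero, zero_mul, add_zero]
    · intro X hX
      exact absurd hX List.not_mem_nil
    · intro d
      rw [ru14_cD_self]
      simp
  | cons X Xs ih =>
    obtain ⟨hnX, hnd'⟩ := List.nodup_cons.1 hnd
    have e1 : ((X :: Xs).map (fun X => (ι X).ncut)).sum =
        (ι X).ncut + (Xs.map (fun X => (ι X).ncut)).sum := by
      rw [List.map_cons, List.sum_cons]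
    rw [e1, Nat.cast_add, add_mul, ← add_assoc] at hB
    have h0 : (0 : ℝ) ≤ (((Xs.map (fun X => (ι X).ncut)).sum : ℕ) : ℝ) * (1 / 2) ^ (n + 1) := by
      positivity
    obtain ⟨p1, F, h1, h2, h3, h4, h5, h6, h7, h8⟩ := rk6_one hm (n := n) (B := B) (r := r)
      (ι X) X p hδ (hX X List.mem_cons_self) (hv X List.mem_cons_self) hr (by linarith)
    obtain ⟨p', G', k1, k2, k3, k4, k5⟩ := ih p1 (fun i hi => hδ i (h1.trans hi)) hnd'
      (fun Y hY => hX Y (List.mem_cons_of_mem _ hY)) (fun Y hY => hv Y (List.mem_cons_of_mem _ hY))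
      (by omega) (by rw [h3]; exact hB)
    have hG : ∀ Y ∈ Xs, Function.update G' X F Y = G' Y := by
      intro Y hY
      apply Function.update_of_ne
      rintro rfl
      exact hnX hY
    refine ⟨p', Function.update G' X F, h1.trans k1, k2, ?_, ?_, ?_⟩
    · rw [k3, h3, e1, Nat.cast_add, add_mul, add_assoc]
    · intro Y hY
      rcases List.mem_cons.1 hY with rfl | hY
      · rw [Function.update_self]
        exact ⟨h4, h5, h6, rk6_out_mono (by omega) h7⟩
      · rw [hG Y hY]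
        obtain ⟨j1, j2, j3, j4⟩ := k4 Y hY
        exact ⟨j1, j2, j3, rk6_out_mono (by omega) j4⟩
    · intro d
      have e2 : Xs.map (fun X_1 => (Function.update G' X F X_1).cnt n d) =
          Xs.map (fun Y => (G' Y).cnt n d) := by
        apply List.map_congr_left
        intro Y hY
        rw [hG Y hY]
      rw [List.map_cons, List.sum_cons, e2, k5 d, Function.update_self, h8 d, List.map_cons,
        List.sum_cons, ← cD_add δ h1 k1 d]
      by_cases hd : d = n + 1
      · rw [if_pos hd, if_pos hd, if_pos hd]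
        omega
      · rw [if_neg hd, if_neg hd, if_neg hd]
        omega

/-- slots of the same depth -/
theorem rk6_pm_const {p e : ℕ} (c : ℕ) (h : ∀ i, p ≤ i → i < p + c → δ i = e) :
    Pm δ (p + c) = Pm δ p + (c : ℝ) * (1 / 2) ^ e := by
  induction c with
  | zero => simp
  | succ c ih =>
    rw [← add_assoc, pm_succ, ih (fun i h1 h2 => h i h1 (by omega)),
      h (p + c) (by omega) (by omega)]
    push_cast
    ring

theorem rk6_cD_const {p e : ℕ} (c : ℕ) (h : ∀ i, p ≤ i → i < p + c → δ i = e) (d : ℕ) :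
    cD δ p (p + c) d = if d = e then c else 0 := by
  rw [cD]
  by_cases hd : d = e
  · rw [if_pos hd, Finset.filter_true_of_mem, Nat.card_Ico]
    · omega
    · intro i hi
      rw [Finset.mem_Ico] at hi
      rw [h i hi.1 hi.2, hd]
  · rw [if_neg hd, Finset.filter_false_of_mem, Finset.card_empty]
    intro i hi
    rw [Finset.mem_Ico] at hi
    rw [h i hi.1 hi.2]
    exact fun h' => hd h'.symm

/-- slots of mass at most `(1 / 2) ^ e` -/
theorem rk6_pm_le {p e : ℕ} (k : ℕ) (h : ∀ i, p ≤ i → e ≤ δ i) :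
    Pm δ (p + k) ≤ Pm δ p + (k : ℝ) * (1 / 2) ^ e := by
  induction k with
  | zero => simp
  | succ k ih =>
    rw [← add_assoc, pm_succ]
    have h1 : ((1 / 2 : ℝ)) ^ δ (p + k) ≤ (1 / 2) ^ e :=
      pow_le_pow_of_le_one (by norm_num) (by norm_num) (h (p + k) (by omega))
    push_cast
    linarith

variable {μ τ : ℝ} {n0 : ℕ} {base : ℕ → ℕ}

theorem rk6_card (Xs : List (Set L)) (O : Set L → List (Set L)) (ι : Set L → Ins L) (w : ℕ)
    (h : ∀ X ∈ Xs, Out X w (O X) (ι X)) :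
    (Xs.flatMap O).length + (Xs.map (fun X => (ι X).npeel)).sum +
      (Xs.map (fun X => (ι X).ncut)).sum = 2 * Xs.length := by
  induction Xs with
  | nil => rfl
  | cons X Xs ih =>
    have h1 := ih (fun Y hY => h Y (List.mem_cons_of_mem _ hY))
    have h2 := h X List.mem_cons_self
    rw [List.flatMap_cons, List.length_append, List.map_cons, List.map_cons, List.sum_cons,
      List.sum_cons, List.length_cons]
    have h3 : (O X).length + (ι X).npeel + (ι X).ncut = 2 := by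
      cases hi : ι X with
      | br A C =>
        rw [hi] at h2
        change O X = [A, C] at h2
        rw [h2]
        rfl
      | cut s =>
        rw [hi] at h2
        obtain ⟨l', X', -, -, h4⟩ := h2
        rw [h4]
        rfl
      | peel s =>
        rw [hi] at h2
        obtain ⟨x, -, h4⟩ := h2
        rw [h4]
        rfl
    omega

theorem step2 (hN : Num2 μ τ n0 δ) {t : FT L} {n p : ℕ} (h : St0 n0 μ τ base δ t n p) (B : ℕ)
    (ι : Set L → Ins L) (hv : ∀ X ∈ t.opens, (ι X).Valid X (B - p)) (c r : ℕ)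
    (hc : (t.opens.map (fun X => (ι X).npeel)).sum = c)
    (hr : (t.opens.map (fun X => (ι X).ncut)).sum = r)
    (h1 : c = 0 ∨ p + c ≤ Qn δ (n + 1)) (h2 : Qn δ (n + 1) ≤ p + c + r)
    (hB : Pm δ p + ((c + r : ℕ) : ℝ) * (1 / 2) ^ (n + 1) < Pm δ B) :
    ∃ (t' : FT L) (p' : ℕ) (O : Set L → List (Set L)), St0 n0 μ τ base δ t' (n + 1) p' ∧
      t.Ext t' ∧ p ≤ p' ∧ p' < B ∧
      Pm δ p' = Pm δ p + ((c + r : ℕ) : ℝ) * (1 / 2) ^ (n + 1) ∧
      t'.opens = t.opens.flatMap O ∧ ∀ X ∈ t.opens, Out X (p' - p) (O X) (ι X) := by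
  -- the index set of the slots of depth at most `n + 1`
  have hQ : ∀ i, i < Qn δ (n + 1) ↔ δ i ≤ n + 1 := by
    obtain ⟨q, hq⟩ := ru10_segment (hN.fin (n + 1))
      (fun i j hij hj => (hN.mono hij).trans hj)
    have hqq : Qn δ (n + 1) = q := by
      rw [Qn]
      have : {i | δ i ≤ n + 1} = (Finset.range q : Set ℕ) := by
        ext i
        rw [Finset.coe_range, Set.mem_Iio]
        exact (hq i).symm
      rw [this, Set.ncard_coe_finset, Finset.card_range]
    intro i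
    rw [hqq]
    exact hq i
  have hconst : ∀ i, p ≤ i → i < p + c → δ i = n + 1 := by
    intro i hi hi'
    have h3 := h.used i hi
    rcases h1 with h1 | h1
    · omega
    · have h4 := (hQ i).1 (by omega)
      omega
  have hge : ∀ i, p + c ≤ i → n + 1 ≤ δ i := by
    intro i hi
    have := h.used i (by omega)
    omega
  have hPc := rk6_pm_const c hconst
  have hB' : Pm δ (p + c) + (((t.opens.map (fun X => (ι X).ncut)).sum : ℕ) : ℝ) *
      (1 / 2) ^ (n + 1) < Pm δ B := by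
    rw [hPc, hr]
    push_cast at hB
    linarith
  obtain ⟨p', G, k1, k2, k3, k4, k5⟩ := rk6_proc hN.mono ι t.opens (p + c) hge
    (FT.wf_nodup h.wf) (fun X hX => FT.wf_open h.wf hX) hv (by omega) hB'
  have hcar : ∀ X ∈ t.opens, (G X).car = X := fun X hX => (k4 X hX).2.1
  have hopen : (FT.fill G t).opens = t.opens.flatMap (fun X => (G X).opens) :=
    FT.fill_opens t G
  have hP' : Pm δ p' = Pm δ p + ((c + r : ℕ) : ℝ) * (1 / 2) ^ (n + 1) := by
    rw [k3, hPc, hr]
    push_cast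
    ring
  have hlen := rk6_card t.opens (fun X => (G X).opens) ι (p' - (p + c))
    (fun X hX => (k4 X hX).2.2.2)
  rw [← hopen, hc, hr] at hlen
  have hpr : p + c + r ≤ p' := by
    by_contra hcon
    have h3 := rk6_pm_le (p := p + c) (e := n + 1) (p' - (p + c)) hge
    rw [show p + c + (p' - (p + c)) = p' by omega, k3, hr] at h3
    have h4 : ((p' - (p + c) : ℕ) : ℝ) < (r : ℝ) := by
      exact_mod_cast (by omega : p' - (p + c) < r)
    have h5 : (0 : ℝ) < (1 / 2) ^ (n + 1) := by positivity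
    have h6 := mul_lt_mul_of_pos_right h4 h5
    linarith
  refine ⟨FT.fill G t, p', fun X => (G X).opens, ⟨?_, ?_, ?_, ?_, ?_, ?_, ?_⟩,
    FT.fill_ext G hcar, by omega, k2, hP', hopen, ?_⟩
  · exact FT.fill_wf h.wf G fun X hX => ⟨(k4 X hX).1, hcar X hX⟩
  · rw [FT.fill_car G hcar]
    exact h.car
  · exact FT.fill_opAt t G 0 n (n + 1) h.opat fun X hX => (k4 X hX).2.2.1
  · have := h.nn
    omega
  · intro d
    rw [FT.fill_cnt t G 0 n h.opat d, k5 d, h.cnt d, hc,
      ← cD_add δ (Nat.zero_le p) (show p ≤ p' by omega) d,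
      ← cD_add δ (show p ≤ p + c by omega) k1 d, rk6_cD_const c hconst d]
    omega
  · rw [hP']
    have e1 := h.mass
    have e2 : ((FT.fill G t).opens.length : ℝ) = 2 * (t.opens.length : ℝ) - ((c + r : ℕ) : ℝ) := by
      have : (((FT.fill G t).opens.length + c + r : ℕ) : ℝ) = ((2 * t.opens.length : ℕ) : ℝ) := by
        rw [hlen]
      push_cast at this ⊢
      linarith
    rw [e2, ← e1, pow_succ]
    ring
  · intro i hi
    by_contra hcon
    have h3 := (hQ i).2 (by omega)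
    omega
  · intro X hX
    exact rk6_out_mono (by omega) (k4 X hX).2.2.2

end

end Pool.Agent.RK
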