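import Pool.Agent.RK.Rich
import Pool.Agent.RK.Num
import Pool.Agent.RK.Step2
import Pool.Agent.RK.Plan
import Pool.Agent.RK.Count
import Pool.Agent.RU.Runs

/-!
Project RK (MP_d404c6_co), row RK-8: a plain step of the machine, and the way to the next reset.
-/

set_option autoImplicit false

open Filter

namespace Pool.Agent.RK

open Pool.Agent.RU

section

variable {L : Type} [LinearOrder L] {μ τ : ℝ} {n0 : ℕ} {base δ : ℕ → ℕ}

theorem good2_lt (hN : Num2 μ τ n0 δ) {t : FT L} {n p h m : ℕ}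
    (hg : Good2 n0 μ τ base δ t n p h m) : n < m := by
  rcases lt_or_eq_of_le hg.nm with h1 | h1
  · exact h1
  · exfalso
    have h2 := hg.gap (h1 ▸ hg.hm)
    have h3 := hg.toSt0.slack_le hN
    have h4 := hg.hz
    rw [← h1] at h4
    have h5 : (0 : ℝ) ≤ (zc t.opens : ℝ) := Nat.cast_nonneg _
    linarith

/-- the slots used up to the next level -/
theorem rk8_pm (hN : Num2 μ τ n0 δ) {n p : ℕ} (hu : ∀ i, p ≤ i → n < δ i) :
    Pm δ (p + (Qn δ (n + 1) - p)) =
      Pm δ p + ((Qn δ (n + 1) - p : ℕ) : ℝ) * (1 / 2) ^ (n + 1) := by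
  refine rk6_pm_const _ fun i h1 h2 => ?_
  have h3 := hu i h1
  have h4 := (hN.lt_Qn i (n + 1)).1 (by omega)
  omega

/-- the new slack is larger than the number of poor sets -/
theorem rk8_slack (hN : Num2 μ τ n0 δ) {t : FT L} {n p : ℕ}
    (hg : St2 n0 μ τ base δ t n p) :
    (zc t.opens : ℝ) < (τ - Pm δ p) * 2 ^ (n + 1) -
      ((Qn δ (n + 1) - p - zc t.opens + zc t.opens : ℕ) : ℝ) := by
  by_cases hc : Qn δ (n + 1) - p ≤ zc t.opens
  · have h1 : Qn δ (n + 1) - p - zc t.opens + zc t.opens = zc t.opens := by omega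
    rw [h1]
    have h2 := hg.zlt
    rw [hg.toSt0.slack] at h2
    have h3 : (τ - Pm δ p) * 2 ^ (n + 1) = 2 * ((τ - Pm δ p) * 2 ^ n) := by ring
    rw [h3]
    linarith
  · have h1 : Qn δ (n + 1) - p - zc t.opens + zc t.opens = Qn δ (n + 1) - p := by omega
    rw [h1]
    have h2 := rk8_pm hN hg.used
    have h3 : p + (Qn δ (n + 1) - p) = Qn δ (n + 1) := by omega
    rw [h3] at h2
    have h4 := hg.capz (n + 1) (by omega)
    unfold ee at h4
    rw [h2] at h4
    have h5 : ((1 : ℝ) / 2) ^ (n + 1) * 2 ^ (n + 1) = 1 := by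
      rw [← mul_pow]
      norm_num
    have h6 : (τ - (Pm δ p + ((Qn δ (n + 1) - p : ℕ) : ℝ) * (1 / 2) ^ (n + 1))) * 2 ^ (n + 1) =
        (τ - Pm δ p) * 2 ^ (n + 1) - ((Qn δ (n + 1) - p : ℕ) : ℝ) *
          ((1 / 2) ^ (n + 1) * 2 ^ (n + 1)) := by ring
    rw [h6, h5, mul_one] at h4
    exact h4

theorem rk8_bound (hN : Num2 μ τ n0 δ) {t : FT L} {n p h m : ℕ}
    (hg : Good2 n0 μ τ base δ t n p h m) :
    ∃ B, τ - (1 / 2 : ℝ) ^ (m + 1) < Pm δ B ∧
      (∀ X ∈ t.opens, ¬ Rich X → Run X (B + m - (p + n))) ∧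
      Pm δ p + ((Qn δ (n + 1) - p - zc t.opens + zc t.opens : ℕ) : ℝ) * (1 / 2) ^ (n + 1) <
        Pm δ B := by
  obtain ⟨B, hB, hR⟩ := hg.bd
  rcases Nat.eq_zero_or_pos (zc t.opens) with hz | hz
  · refine ⟨max B (p + (Qn δ (n + 1) - p) + 1), ?_, ?_, ?_⟩
    · exact hB.trans_le ((ru8_strictMono δ).monotone (le_max_left _ _))
    · intro X hX hX'
      exfalso
      have h1 : zi X ≤ zc t.opens := by
        unfold zc
        exact List.single_le_sum (fun _ _ => Nat.zero_le _) _ (List.mem_map_of_mem hX)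
      rw [zi_poor hX'] at h1
      omega
    · have h1 : Qn δ (n + 1) - p - zc t.opens + zc t.opens = Qn δ (n + 1) - p := by omega
      rw [h1, ← rk8_pm hN hg.used]
      exact ru8_strictMono δ (lt_of_lt_of_le (Nat.lt_succ_self _) (le_max_right _ _))
  · refine ⟨B, hB, hR, ?_⟩
    have h1 := rk8_slack hN hg.toSt2
    have h2 : (1 : ℝ) ≤ (zc t.opens : ℝ) := by exact_mod_cast hz
    set w : ℝ := ((Qn δ (n + 1) - p - zc t.opens + zc t.opens : ℕ) : ℝ) with hw
    have h5 : ((1 : ℝ) / 2) ^ (n + 1) * 2 ^ (n + 1) = 1 := by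
      rw [← mul_pow]
      norm_num
    have h6 : (0 : ℝ) < (1 / 2) ^ (n + 1) := by positivity
    have h7 : (1 / 2 : ℝ) ^ (n + 1) < τ - Pm δ p - w * (1 / 2) ^ (n + 1) := by
      have h8 : (1 / 2 : ℝ) ^ (n + 1) * 1 <
          (1 / 2 : ℝ) ^ (n + 1) * ((τ - Pm δ p) * 2 ^ (n + 1) - w) :=
        mul_lt_mul_of_pos_left (by linarith) h6
      have h9 : (1 / 2 : ℝ) ^ (n + 1) * ((τ - Pm δ p) * 2 ^ (n + 1) - w) =
          (τ - Pm δ p) * ((1 / 2) ^ (n + 1) * 2 ^ (n + 1)) - w * (1 / 2) ^ (n + 1) := by ring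
      rw [h9, h5] at h8
      linarith
    have h10 : (1 / 2 : ℝ) ^ (m + 1) ≤ (1 / 2) ^ (n + 1) :=
      pow_le_pow_of_le_one (by norm_num) (by norm_num) (by have := hg.nm; omega)
    linarith

open Classical in
theorem rk8_sum_one (Xs : List (Set L)) (D : Set (Set L)) (hD : ∀ X, X ∈ D ↔ ¬ Rich X) :
    (Xs.map (fun X => if X ∈ D then 1 else 0)).sum = zc Xs := by
  unfold zc
  congr 1
  refine List.map_congr_left fun X _ => ?_
  by_cases h : Rich X
  · rw [if_neg (fun h' => (hD X).1 h' h), zi_rich h]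
  · rw [if_pos ((hD X).2 h), zi_poor h]

theorem plain2 (hN : Num2 μ τ n0 δ) {t : FT L} {n p h m : ℕ}
    (hg : Good2 n0 μ τ base δ t n p h m) (hlt : n < h ∨ Qn δ (n + 1) ≤ p + zc t.opens) :
    ∃ t' p', Good2 n0 μ τ base δ t' (n + 1) p' h m ∧ t.Ext t' := by
  classical
  have hnm : n < m := good2_lt hN hg
  obtain ⟨B, hB, hR, hBB⟩ := rk8_bound hN hg
  set z := zc t.opens with hz
  set c := Qn δ (n + 1) - p - z with hc
  have hsd : ∀ X : Set L, ∃ s' : Bool, X ∈ t.opens → ¬ Rich X →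
      ERun s' X (B + m - (p + n)) := by
    intro X
    by_cases hX : X ∈ t.opens ∧ ¬ Rich X
    · obtain ⟨s', hs'⟩ := hR X hX.1 hX.2
      exact ⟨s', fun _ _ => hs'⟩
    · exact ⟨true, fun h1 h2 => absurd ⟨h1, h2⟩ hX⟩
  choose sd hsd using hsd
  obtain ⟨D, hD⟩ : ∃ D : Set (Set L), ∀ X, X ∈ D ↔ ¬ Rich X := ⟨{X | ¬ Rich X}, fun X => Iff.rfl⟩
  have hsp := hN.sparse' hg.nn ((hN.used_iff p n).1 hg.used)
  have hpos : 0 ≤ μ * 2 ^ n := mul_nonneg hN.mu.le (by positivity)
  have hcu : (c : ℝ) ≤ ((Qn δ (n + 1) - p : ℕ) : ℝ) := by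
    exact_mod_cast (by omega : c ≤ Qn δ (n + 1) - p)
  have hei : (t.opens.map (fun X => if X ∈ D then ei X else 0)).sum = 0 := by
    rw [List.sum_eq_zero]
    intro b hb
    obtain ⟨X, -, rfl⟩ := List.mem_map.1 hb
    by_cases hX : X ∈ D
    · rw [if_pos hX]
      unfold ei
      rw [if_neg]
      exact fun h' => (hD X).1 hX h'.1
    · rw [if_neg hX]
  have hcec : c ≤ ec t.opens := by
    have h1 : (c : ℝ) ≤ (ec t.opens : ℝ) := by
      have h2 := hg.ends
      linarith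
    exact_mod_cast h1
  obtain ⟨ι, hι1, hι2, hι3, hι4, hι5⟩ := plan t.opens (FT.wf_nodup hg.wf)
    (fun X hX => (FT.wf_open hg.wf hX).2) (B - p) D (fun X => Ins.cut (sd X))
    (fun X _ hX => (hD X).2 hX) (fun X hX hX' => (hsd X hX ((hD X).1 hX')).mono (by omega)) c
    (by rw [hei]; omega)
  have hnp : (t.opens.map (fun X => (ι X).npeel)).sum = c := by
    rw [hι4, List.sum_eq_zero, Nat.add_zero]
    intro b hb
    obtain ⟨X, -, rfl⟩ := List.mem_map.1 hb
    by_cases hX : X ∈ D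
    · rw [if_pos hX]
      rfl
    · rw [if_neg hX]
  have hnc : (t.opens.map (fun X => (ι X).ncut)).sum = z := by
    rw [hι5, hz, ← rk8_sum_one t.opens D hD]
    rfl
  obtain ⟨t', p', O, hS, hE, hpp, hpB, hPm, hop, hO⟩ := step2 hN hg.toSt0 B ι hι3 c z hnp hnc
    (by omega) (by omega) hBB
  -- the number of poor sets
  have hzc : zc t'.opens = z := by
    rw [hop, count_zc t.opens ι O (p' - p) hO D (fun X _ hX => (hD X).2 hX) hι2, hz,
      ← rk8_sum_one t.opens D hD]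
    congr 1
    refine List.map_congr_left fun X hX => ?_
    by_cases hX' : X ∈ D
    · rw [if_pos hX', if_pos hX']
      have h1 := hO X hX
      rw [hι1 X hX hX'] at h1
      rw [h1.zc_cut, zi_poor ((hD X).1 hX')]
    · rw [if_neg hX', if_neg hX']
  have hslack : (t'.opens.length : ℝ) - μ * 2 ^ (n + 1) =
      (τ - Pm δ p) * 2 ^ (n + 1) - ((c + z : ℕ) : ℝ) := by
    rw [hS.slack, hPm]
    have h5 : ((1 : ℝ) / 2) ^ (n + 1) * 2 ^ (n + 1) = 1 := by
      rw [← mul_pow]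
      norm_num
    calc (τ - (Pm δ p + ((c + z : ℕ) : ℝ) * (1 / 2) ^ (n + 1))) * 2 ^ (n + 1)
        = (τ - Pm δ p) * 2 ^ (n + 1) - ((c + z : ℕ) : ℝ) * ((1 / 2) ^ (n + 1) * 2 ^ (n + 1)) := by
          ring
      _ = _ := by rw [h5, mul_one]
  have hzlt : (z : ℝ) < t'.opens.length - μ * 2 ^ (n + 1) := by
    rw [hslack]
    exact rk8_slack hN hg.toSt2
  have hec : t.opens.length ≤ ec t'.opens + c + z := by
    have h1 := count_ec t.opens ι O (p' - p) hO D hι2
    rw [hnp, ← hop, rk8_sum_one t.opens D hD] at h1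
    exact h1
  refine ⟨t', p', ⟨⟨hS, ?_, ?_, ?_⟩, hg.hm, hnm, hg.hz, ?_, ?_, ?_⟩, hE⟩
  · rw [hzc]
    exact hzlt
  · have h1 : (t.opens.length : ℝ) ≤ ec t'.opens + c + z := by exact_mod_cast hec
    have h2 := hg.zlt
    have h3 : μ * 2 ^ (n + 1) = 2 * (μ * 2 ^ n) := by ring
    rw [h3]
    linarith
  · intro j hj
    rw [hzc]
    exact hg.capz j (by omega)
  · intro hh
    rw [hzc]
    rcases Nat.lt_or_ge n h with h1 | h1
    · have h2 : h = n + 1 := by omega
      rw [h2, Nat.sub_self, pow_zero, one_mul]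
      have h3 : (z : ℝ) < t'.opens.length := by
        have h4 : 0 ≤ μ * 2 ^ (n + 1) := mul_nonneg hN.mu.le (by positivity)
        linarith
      have h3' : z ≤ t'.opens.length := by
        have : z < t'.opens.length := by exact_mod_cast h3
        exact this.le
      have h4 := gm_le hN.mu.le (h := n + 1) (a := t'.opens.length - z) (by
        rw [Nat.cast_sub h3']
        linarith)
      rw [Nat.cast_sub h3'] at h4
      linarith
    · have h2 : Qn δ (n + 1) ≤ p + z := by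
        rcases hlt with h3 | h3
        · omega
        · exact h3
      have h3 : c = 0 := by omega
      have h4 := hg.gap h1
      have h5 : (n + 1) - h = (n - h) + 1 := by omega
      have h6 := hg.toSt0.slack
      rw [h6] at h4
      rw [hslack, h3, Nat.zero_add, h5, pow_succ]
      have h7 : (τ - Pm δ p) * 2 ^ (n + 1) = 2 * ((τ - Pm δ p) * 2 ^ n) := by ring
      rw [h7]
      linarith
  · refine ⟨B, hB, fun X' hX' hX'' => ?_⟩
    rw [hop] at hX'
    obtain ⟨X, hX, hXX⟩ := List.mem_flatMap.1 hX'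
    have hinf : X.Infinite := (FT.wf_open hg.wf hX).1
    have hOX := hO X hX
    by_cases hXD : X ∈ D
    · rw [hι1 X hX hXD] at hOX
      obtain ⟨l', Y, hl', hll, hY⟩ := hOX
      rw [hY, List.mem_singleton] at hXX
      rw [hXX]
      exact (Run.peel hinf hl' (hR X hX ((hD X).1 hXD))).mono (by omega)
    · have hrich : Rich X := by
        by_contra h'
        exact hXD ((hD X).2 h')
      exfalso
      rcases hι2 X hX hXD with ⟨A, C, hi, -, hA, hC, -⟩ | ⟨s, hi⟩
      · rw [hi] at hOX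
        have hOX' : O X = [A, C] := hOX
        rw [hOX'] at hXX
        rcases List.mem_cons.1 hXX with h1 | h1
        · exact hX'' (h1 ▸ hA)
        · rw [List.mem_singleton] at h1
          exact hX'' (h1 ▸ hC)
      · rw [hi] at hOX
        obtain ⟨x, -, hx⟩ := hOX
        rw [hx, List.mem_singleton] at hXX
        rw [hXX] at hX''
        exact hX'' (hrich.sdiff x)
  · rw [hzc]
    exact hg.cap2

theorem to_reset (hN : Num2 μ τ n0 δ) {t : FT L} {n p h m : ℕ}
    (hg : Good2 n0 μ τ base δ t n p h m) :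
    ∃ t' n' p', Good2 n0 μ τ base δ t' n' p' h m ∧ n ≤ n' ∧ h ≤ n' ∧
      p' + zc t'.opens < Qn δ (n' + 1) ∧ t.Ext t' := by
  obtain ⟨k, hk⟩ : ∃ k, k = m - n := ⟨_, rfl⟩
  induction k using Nat.strong_induction_on generalizing t n p with
  | _ k ih =>
    by_cases hs : h ≤ n ∧ p + zc t.opens < Qn δ (n + 1)
    · exact ⟨t, n, p, hg, le_rfl, hs.1, hs.2, FT.ext_refl t⟩
    · have hlt : n < h ∨ Qn δ (n + 1) ≤ p + zc t.opens := by
        by_cases h1 : h ≤ n
        · right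
          by_contra h2
          exact hs ⟨h1, not_le.1 h2⟩
        · left
          omega
      have h3 := good2_lt hN hg
      obtain ⟨t1, p1, hg1, hE1⟩ := plain2 hN hg hlt
      obtain ⟨t2, n2, p2, hg2, h4, h5, h6, hE2⟩ := ih (m - (n + 1)) (by omega) hg1 rfl
      exact ⟨t2, n2, p2, hg2, by omega, h5, h6, FT.ext_trans hE1 hE2⟩

end

end Pool.Agent.RK
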