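import Pool.Agent.RK.Rich
import Pool.Agent.RK.CapP
import Pool.Agent.RK.Count
import Pool.Agent.RK.Num
import Pool.Agent.RK.Plan
import Pool.Agent.RK.Step2
import Pool.Agent.RK.Runs2
import Pool.Agent.RU.Runs

/-!
Project RK (MP_d404c6_co), row RK-10: the refresh step.
-/

set_option autoImplicit false

open Filter

namespace Pool.Agent.RK

open Pool.Agent.RU

section
variable {L : Type} [LinearOrder L] {μ τ : ℝ} {n0 : ℕ} {base δ : ℕ → ℕ}

open Classical in
/-- the number of poor sets as a sum of indicators -/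
theorem rk10_zc (Xs : List (Set L)) (D : Set (Set L)) (hD : ∀ X, X ∈ D ↔ ¬ Rich X) :
    zc Xs = (Xs.map (fun X => if X ∈ D then 1 else 0)).sum := by
  unfold zc
  congr 1
  refine List.map_congr_left fun X _ => ?_
  by_cases h : Rich X
  · rw [if_neg (fun h1 => (hD X).1 h1 h)]
    simp [zi, h]
  · rw [if_pos ((hD X).2 h)]
    simp [zi, h]

theorem rk10_sum_zero {α : Type} (l : List α) (f : α → ℕ) (h : ∀ a ∈ l, f a = 0) :
    (l.map f).sum = 0 := by
  induction l with
  | nil => rfl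
  | cons a l ih =>
    rw [List.map_cons, List.sum_cons, h a (List.mem_cons_self ..),
      ih (fun b hb => h b (List.mem_cons_of_mem _ hb))]

theorem rk10_sum_add {α : Type} (l : List α) (f g : α → ℕ) :
    (l.map (fun a => f a + g a)).sum = (l.map f).sum + (l.map g).sum := by
  induction l with
  | nil => rfl
  | cons a l ih =>
    simp only [List.map_cons, List.sum_cons]
    rw [ih]
    omega

theorem rk10_sum_le {α : Type} (l : List α) (f g : α → ℕ) (h : ∀ a ∈ l, f a ≤ g a) :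
    (l.map f).sum ≤ (l.map g).sum := by
  induction l with
  | nil => exact le_rfl
  | cons a l ih =>
    simp only [List.map_cons, List.sum_cons]
    have h1 := h a (List.mem_cons_self ..)
    have h2 := ih (fun b hb => h b (List.mem_cons_of_mem _ hb))
    omega

/-- the mass of the next slots -/
theorem rk10_pm (hN : Num2 μ τ n0 δ) {n p : ℕ} (hp : ∀ i, p ≤ i → n < δ i) :
    Pm δ (p + (Qn δ (n + 1) - p)) =
      Pm δ p + ((Qn δ (n + 1) - p : ℕ) : ℝ) * (1 / 2) ^ (n + 1) := by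
  refine rk6_pm_const _ fun i h1 h2 => ?_
  have h3 := hp i h1
  have h4 : i < Qn δ (n + 1) := by omega
  have h5 := (hN.lt_Qn i (n + 1)).1 h4
  omega

theorem refresh2 (hN : Num2 μ τ n0 δ) (hC : ∀ K, ∃ h, CapP L (ee δ τ) K h) {t : FT L}
    {n p : ℕ} (h : St2 n0 μ τ base δ t n p) (hc : CapP L (ee δ τ) (2 * zc t.opens) n) :
    ∃ t' p' h' m', Good2 n0 μ τ base δ t' (n + 1) p' h' m' ∧ t.Ext t' := by
  classical
  set z := zc t.opens with hz
  obtain ⟨hK, hhK⟩ := hC (4 * z + 2)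
  set h' := max hK (n + 1) with hh'
  have hh1 : hK ≤ h' := le_max_left _ _
  have hh2 : n + 1 ≤ h' := le_max_right _ _
  obtain ⟨m', hm1, hm2, hm3⟩ := hN.horizon h' (n + 1)
  -- the number of unused slots of depth n + 1
  set u := Qn δ (n + 1) - p with hu
  have hused : Qn δ n ≤ p := (hN.used_iff p n).1 h.used
  have hsp : ((u : ℕ) : ℝ) ≤ μ * 2 ^ n / 32 := hN.sparse' h.nn hused
  have hslack := h.toSt0.slack
  have hzlt : (z : ℝ) < (τ - Pm δ p) * 2 ^ n := by
    rw [← hslack]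
    exact h.zlt
  have h2n : (0 : ℝ) < 2 ^ n := by positivity
  have hhalf : ((1 : ℝ) / 2) ^ (n + 1) * 2 ^ (n + 1) = 1 := by
    rw [← mul_pow]
    norm_num
  have hhp : (0 : ℝ) < (1 / 2) ^ (n + 1) := by positivity
  -- the bound B
  have hb1 : Pm δ p + (z : ℝ) * (1 / 2) ^ (n + 1) < τ := by
    have h1 : (z : ℝ) * (1 / 2) ^ (n + 1) ≤ (τ - Pm δ p) / 2 := by
      have : (z : ℝ) * (1 / 2) ^ (n + 1) ≤ ((τ - Pm δ p) * 2 ^ n) * (1 / 2) ^ (n + 1) :=
        mul_le_mul_of_nonneg_right hzlt.le hhp.le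
      refine this.trans (le_of_eq ?_)
      rw [pow_succ, one_div, inv_pow]
      field_simp
    have h2 := hN.pm_lt p
    linarith
  have hpmu := rk10_pm hN h.used
  have hb2 : Pm δ p + (u : ℝ) * (1 / 2) ^ (n + 1) < τ := by
    rw [← hpmu]
    exact hN.pm_lt _
  obtain ⟨B, hB1, hB2⟩ : ∃ B, τ - (1 / 2 : ℝ) ^ (m' + 1) < Pm δ B ∧
      Pm δ p + (max u z : ℕ) * (1 / 2) ^ (n + 1) < Pm δ B := by
    have h1 : ∀ᶠ B in atTop, τ - (1 / 2 : ℝ) ^ (m' + 1) < Pm δ B :=
      hN.lim.eventually (lt_mem_nhds (by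
        have : (0 : ℝ) < (1 / 2) ^ (m' + 1) := by positivity
        linarith))
    have h2 : ∀ᶠ B in atTop, Pm δ p + (max u z : ℕ) * (1 / 2) ^ (n + 1) < Pm δ B := by
      refine hN.lim.eventually (lt_mem_nhds ?_)
      rcases le_total u z with h3 | h3
      · rw [max_eq_right h3]
        exact hb1
      · rw [max_eq_left h3]
        exact hb2
    exact (h1.and h2).exists
  -- instructions at the poor sets
  have hq : ∀ X : Set L, ∃ i : Ins L, X ∈ t.opens → ¬ Rich X →
      (∃ s, i = Ins.cut s ∧ ERun s X (B + m')) ∨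
        ∃ A B', i = Ins.br A B' ∧ Branch X A B' ∧ Run A (B + m') ∧ Run B' (B + m') := by
    intro X
    by_cases hX : X ∈ t.opens ∧ ¬ Rich X
    · obtain ⟨h1, h2⟩ := FT.wf_open h.wf hX.1
      rcases refreshP h1 h2 hX.2 (B + m') with ⟨s, hs⟩ | ⟨A, B', hA⟩
      · exact ⟨Ins.cut s, fun _ _ => Or.inl ⟨s, rfl, hs⟩⟩
      · exact ⟨Ins.br A B', fun _ _ => Or.inr ⟨A, B', rfl, hA⟩⟩
    · exact ⟨Ins.cut true, fun h1 h2 => absurd ⟨h1, h2⟩ hX⟩
  choose q hq using hq
  obtain ⟨D, hD⟩ : ∃ D : Set (Set L), ∀ X, X ∈ D ↔ ¬ Rich X := ⟨{X | ¬ Rich X}, fun _ => Iff.rfl⟩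
  set z' := (t.opens.map (fun X => if X ∈ D then (q X).ncut else 0)).sum with hz'
  have hz'z : z' ≤ z := by
    rw [hz', hz, rk10_zc _ D hD]
    refine rk10_sum_le _ _ _ fun X hX => ?_
    by_cases h1 : X ∈ D
    · rw [if_pos h1, if_pos h1]
      rcases hq X hX ((hD X).1 h1) with ⟨s, h2, -⟩ | ⟨A, B', h2, -⟩
      · rw [h2]; exact le_rfl
      · rw [h2]; exact Nat.zero_le _
    · rw [if_neg h1]
      exact Nat.zero_le _
  have hpeel0 : (t.opens.map (fun X => if X ∈ D then (q X).npeel else 0)).sum = 0 := by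
    refine rk10_sum_zero _ _ fun X hX => ?_
    by_cases h1 : X ∈ D
    · rw [if_pos h1]
      rcases hq X hX ((hD X).1 h1) with ⟨s, h2, -⟩ | ⟨A, B', h2, -⟩
      · rw [h2]; rfl
      · rw [h2]; rfl
    · rw [if_neg h1]
  have hei0 : (t.opens.map (fun X => if X ∈ D then ei X else 0)).sum = 0 := by
    refine rk10_sum_zero _ _ fun X hX => ?_
    by_cases h1 : X ∈ D
    · rw [if_pos h1]
      unfold ei
      rw [if_neg (fun h2 => (hD X).1 h1 h2.1)]
    · rw [if_neg h1]
  set c := u - z' with hcdef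
  have hcu : c ≤ u := Nat.sub_le _ _
  have hcR : (c : ℝ) ≤ μ * 2 ^ n / 32 := (Nat.cast_le.2 hcu).trans hsp
  have hμn : 0 < μ * 2 ^ n := mul_pos hN.mu h2n
  have hcec : c + (t.opens.map (fun X => if X ∈ D then ei X else 0)).sum ≤ ec t.opens := by
    rw [hei0, add_zero]
    have h1 := h.ends
    have h2 : (c : ℝ) ≤ ec t.opens := by linarith
    exact_mod_cast h2
  obtain ⟨ι, hι1, hι2, hι3, hι4, hι5⟩ := plan t.opens (FT.wf_nodup h.wf)
    (fun X hX => (FT.wf_open h.wf hX).2) (B - p) D q (fun X _ hX => (hD X).2 hX)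
    (fun X hX h1 => by
      rcases hq X hX ((hD X).1 h1) with ⟨s, h2, h3⟩ | ⟨A, B', h2, h3, -⟩
      · rw [h2]
        exact h3.mono (by omega)
      · rw [h2]
        exact h3) c hcec
  rw [hpeel0, add_zero] at hι4
  rw [← hz'] at hι5
  have hcz : c + z' = max u z' := by omega
  obtain ⟨t', p', O, hS, hE, hp1, hp2, hp3, hO1, hO2⟩ := step2 hN h.toSt0 B ι hι3 c z' hι4 hι5
    (by omega) (by omega) (by
      refine lt_of_le_of_lt ?_ hB2
      have : ((c + z' : ℕ) : ℝ) ≤ ((max u z : ℕ) : ℝ) := by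
        exact_mod_cast (by omega : c + z' ≤ max u z)
      have := mul_le_mul_of_nonneg_right this hhp.le
      linarith)
  -- the new slack
  have hslack' := hS.slack
  have hS1 : (t'.opens.length : ℝ) - μ * 2 ^ (n + 1) =
      2 * ((τ - Pm δ p) * 2 ^ n) - ((c + z' : ℕ) : ℝ) := by
    rw [hslack', hp3]
    have h1 : (τ - (Pm δ p + ((c + z' : ℕ) : ℝ) * (1 / 2) ^ (n + 1))) * 2 ^ (n + 1) =
        2 * ((τ - Pm δ p) * 2 ^ n) - ((c + z' : ℕ) : ℝ) * ((1 / 2) ^ (n + 1) * 2 ^ (n + 1)) := by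
      ring
    rw [h1, hhalf, mul_one]
  -- the number of poor sets
  have hzc : zc t'.opens + z' = 2 * z := by
    rw [hO1, count_zc t.opens ι O (p' - p) hO2 D (fun X _ hX => (hD X).2 hX) hι2, hz', ← rk10_sum_add, hz,
      rk10_zc _ D hD, ← List.sum_map_mul_left]
    congr 1
    refine List.map_congr_left fun X hX => ?_
    by_cases h1 : X ∈ D
    · rw [if_pos h1, if_pos h1, if_pos h1, mul_one]
      have hOX := hO2 X hX
      rw [hι1 X hX h1] at hOX
      rcases hq X hX ((hD X).1 h1) with ⟨s, h2, h3⟩ | ⟨A, B', h2, h3, -⟩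
      · rw [h2] at hOX ⊢
        rw [hOX.zc_cut, zi_poor ((hD X).1 h1)]
        rfl
      · rw [h2] at hOX ⊢
        rw [hOX.zc_br, zi_branch_poor h3 ((hD X).1 h1)]
        rfl
    · rw [if_neg h1, if_neg h1, if_neg h1, mul_zero, add_zero]
  have hzc2 : zc t'.opens ≤ 2 * z := by omega
  have hcap : ∀ j, n + 1 ≤ j → (zc t'.opens : ℝ) < ee δ τ j := fun j hj =>
    CapP.apply hc hS.wf hS.car hzc2 j (by omega)
  have hzlt' : (zc t'.opens : ℝ) < t'.opens.length - μ * 2 ^ (n + 1) := by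
    rcases le_or_gt u z' with h1 | h1
    · rw [hS1]
      have h2 : c + z' = z' := by omega
      rw [h2]
      have h3 : (zc t'.opens : ℝ) + z' = 2 * z := by exact_mod_cast hzc
      linarith
    · have h2 : c + z' = u := by omega
      have h3 : Pm δ p' = Pm δ (Qn δ (n + 1)) := by
        rw [hp3, h2, ← hpmu]
        congr 1
        omega
      have h4 : (t'.opens.length : ℝ) - μ * 2 ^ (n + 1) = ee δ τ (n + 1) := by
        rw [hslack', h3]
        rfl
      rw [h4]
      exact hcap (n + 1) le_rfl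
  have hends : μ * 2 ^ (n + 1) / 8 ≤ (ec t'.opens : ℝ) := by
    have h1 := count_ec t.opens ι O (p' - p) hO2 D hι2
    rw [← hO1, hι4, ← rk10_zc _ D hD, ← hz] at h1
    have h2 : (t.opens.length : ℝ) ≤ ec t'.opens + c + z := by exact_mod_cast h1
    have h3 := h.zlt
    rw [← hz] at h3
    rw [pow_succ]
    linarith
  have hSt2 : St2 n0 μ τ base δ t' (n + 1) p' := ⟨hS, hzlt', hends, hcap⟩
  refine ⟨t', p', h', m', ⟨hSt2, hm2, hm1, hm3, ?_, ⟨B, hB1, ?_⟩, ?_⟩, hE⟩
  · intro h1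
    have h2 : h' = n + 1 := by omega
    have h3 : zc t'.opens ≤ t'.opens.length := zc_le_length _
    have h4 := gm_le (μ := μ) hN.mu.le (h := n + 1) (a := t'.opens.length - zc t'.opens) (by
      rw [Nat.cast_sub h3]
      linarith)
    rw [Nat.cast_sub h3] at h4
    rw [h2, Nat.sub_self, pow_zero, one_mul]
    linarith
  · intro X' hX' hr
    rw [hO1, List.mem_flatMap] at hX'
    obtain ⟨X, hX, hX'⟩ := hX'
    have hOX := hO2 X hX
    by_cases h1 : X ∈ D
    · rw [hι1 X hX h1] at hOX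
      rcases hq X hX ((hD X).1 h1) with ⟨s, h2, h3⟩ | ⟨A, B', h2, h3, h4, h5⟩
      · rw [h2] at hOX
        obtain ⟨l', X'', h6, h7, h8⟩ := hOX
        rw [h8, List.mem_singleton] at hX'
        subst hX'
        exact (Run.peel (FT.wf_open h.wf hX).1 h6 ⟨s, h3⟩).mono (by omega)
      · rw [h2] at hOX
        have h6 : O X = [A, B'] := hOX
        rw [h6] at hX'
        simp only [List.mem_cons, List.not_mem_nil, or_false] at hX'
        rcases hX' with h7 | h7
        · rw [h7]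
          exact h4.mono (by omega)
        · rw [h7]
          exact h5.mono (by omega)
    · exfalso
      have hXr : Rich X := not_not.1 (fun h2 => h1 ((hD X).2 h2))
      rcases hι2 X hX h1 with ⟨A, B', h2, -, h3, h4, -⟩ | ⟨s, h2⟩
      · rw [h2] at hOX
        have h6 : O X = [A, B'] := hOX
        rw [h6] at hX'
        simp only [List.mem_cons, List.not_mem_nil, or_false] at hX'
        rcases hX' with h7 | h7
        · rw [h7] at hr
          exact hr h3
        · rw [h7] at hr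
          exact hr h4
      · rw [h2] at hOX
        obtain ⟨x, -, h6⟩ := hOX
        rw [h6, List.mem_singleton] at hX'
        rw [hX'] at hr
        exact hr (hXr.sdiff x)
  · exact hhK.mono (by omega) hh1

end

end Pool.Agent.RK
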