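import Pool.Agent.RK.Rich
import Pool.Agent.RK.CapP
import Pool.Agent.RK.Num
import Pool.Agent.RK.Step2
import Pool.Agent.RK.Plan
import Pool.Agent.RK.Count
import Pool.Agent.RU.Fair

/-!
Project RK (MP_d404c6_co), row RK-9: the step at a reset, aimed at an element (helper93).
-/

set_option autoImplicit false

open Filter

namespace Pool.Agent.RK

open Pool.Agent.RU

section
variable {L : Type} [LinearOrder L] {μ τ : ℝ} {n0 : ℕ} {base δ : ℕ → ℕ}

theorem rk9_swap {α : Type} (l : List α) (hnd : l.Nodup) (F G : α → ℕ) {a : α} (ha : a ∈ l)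
    (h : ∀ x ∈ l, x ≠ a → F x = G x) : (l.map F).sum + G a = (l.map G).sum + F a := by
  induction l with
  | nil => exact absurd ha (by simp)
  | cons b l ih =>
    rw [List.nodup_cons] at hnd
    rw [List.map_cons, List.sum_cons, List.map_cons, List.sum_cons]
    rcases List.mem_cons.1 ha with rfl | ha'
    · have e : l.map F = l.map G := by
        refine List.map_congr_left fun x hx => ?_
        refine h x (List.mem_cons_of_mem _ hx) ?_
        rintro rfl
        exact hnd.1 hx
      rw [e]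
      ring
    · have e := ih hnd.2 ha' (fun x hx hne => h x (List.mem_cons_of_mem _ hx) hne)
      have e2 : F b = G b := by
        refine h b List.mem_cons_self ?_
        rintro rfl
        exact hnd.1 ha'
      omega

theorem rk9_pm (hN : Num2 μ τ n0 δ) {n p : ℕ} (hp : Qn δ n ≤ p) (k : ℕ)
    (hk : p + k ≤ Qn δ (n + 1)) :
    Pm δ (p + k) = Pm δ p + (k : ℝ) * (1 / 2) ^ (n + 1) := by
  induction k with
  | zero => simp
  | succ k ih =>
    have h1 := ih (by omega)
    have h2 : δ (p + k) ≤ n + 1 := (hN.lt_Qn _ _).1 (by omega)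
    have h3 : n < δ (p + k) := (hN.used_iff p n).2 hp (p + k) (by omega)
    have h4 : δ (p + k) = n + 1 := by omega
    rw [← Nat.add_assoc, pm_succ, h1, h4]
    push_cast
    ring

/-- a bound for the slots used in the next step, in reach of the runs -/
theorem rk9_B (hN : Num2 μ τ n0 δ) {t : FT L} {n p h m : ℕ}
    (hg : Good2 n0 μ τ base δ t n p h m) :
    ∃ B, Pm δ (Qn δ (n + 1)) < Pm δ B ∧ ∀ X ∈ t.opens, ¬ Rich X → Run X (B - p) := by
  obtain ⟨B0, hB0, hrun⟩ := hg.bd
  have hnm := hg.nm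
  refine ⟨max B0 (Qn δ (n + 1) + 1), ?_, ?_⟩
  · rw [pm_lt_iff]
    exact lt_of_lt_of_le (Nat.lt_succ_self _) (le_max_right _ _)
  · intro X hX hp
    have hz : 1 ≤ zc t.opens := by
      have : zi X ≤ zc t.opens := List.single_le_sum (by simp) _ (List.mem_map_of_mem hX)
      rw [zi_poor hp] at this
      exact this
    have h1 : (zc t.opens : ℝ) < ee δ τ (n + 1) := hg.capz (n + 1) (Nat.le_succ n)
    have h2 : (1 : ℝ) ≤ (zc t.opens : ℝ) := by exact_mod_cast hz
    have h3 : Pm δ (Qn δ (n + 1)) < Pm δ B0 := by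
      have h4 : (1 : ℝ) < (τ - Pm δ (Qn δ (n + 1))) * 2 ^ (n + 1) := lt_of_le_of_lt h2 h1
      have h5 : (1 / 2 : ℝ) ^ (n + 1) < τ - Pm δ (Qn δ (n + 1)) := by
        rw [one_div, inv_pow, ← one_div, div_lt_iff₀ (by positivity)]
        exact h4
      have h6 : (1 / 2 : ℝ) ^ (m + 1) ≤ (1 / 2 : ℝ) ^ (n + 1) :=
        pow_le_pow_of_le_one (by norm_num) (by norm_num) (by omega)
      linarith
    rw [pm_lt_iff] at h3
    have e : max B0 (Qn δ (n + 1) + 1) = B0 := max_eq_left (by omega)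
    rw [e]
    exact (hrun X hX hp).mono (by omega)

open Classical in
theorem rk9_step (hN : Num2 μ τ n0 δ) {t : FT L} {n p h m : ℕ}
    (hg : Good2 n0 μ τ base δ t n p h m) (hn : h ≤ n) (B : ℕ)
    (hB : Pm δ (Qn δ (n + 1)) < Pm δ B) (D : Set (Set L)) (q : Set L → Ins L)
    (hD : ∀ X ∈ t.opens, ¬ Rich X → X ∈ D)
    (hq : ∀ X ∈ t.opens, X ∈ D → (q X).Valid X (B - p)) (c : ℕ)
    (hsum : p + c + (t.opens.map (fun X => if X ∈ D then (q X).npeel else 0)).sum +
      (t.opens.map (fun X => if X ∈ D then (q X).ncut else 0)).sum = Qn δ (n + 1))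
    (hei : (t.opens.map (fun X => if X ∈ D then ei X else 0)).sum ≤ 1)
    (hcard : (t.opens.map (fun X => if X ∈ D then 1 else 0)).sum ≤ zc t.opens + 1)
    (hz : ∀ (O : Set L → List (Set L)) (w : ℕ),
      (∀ X ∈ t.opens, X ∈ D → Out X w (O X) (q X)) →
      (t.opens.map (fun X => if X ∈ D then zc (O X) else 0)).sum ≤ zc t.opens + 1) :
    ∃ (t' : FT L) (p' : ℕ) (O : Set L → List (Set L)) (w : ℕ),
      St2 n0 μ τ base δ t' (n + 1) p' ∧ t.Ext t' ∧ zc t'.opens ≤ zc t.opens + 1 ∧
      t'.opens = t.opens.flatMap O ∧ (∀ X ∈ t.opens, X ∈ D → Out X w (O X) (q X)) ∧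
      ∀ X ∈ t.opens, ∀ X' ∈ O X, X' ⊆ X := by
  have hQ : Qn δ n ≤ p := (hN.used_iff p n).1 hg.used
  have hx : μ * 2 ^ n0 ≤ μ * 2 ^ n :=
    mul_le_mul_of_nonneg_left (pow_le_pow_right₀ (by norm_num) hg.nn) hN.mu.le
  have hbig : (32 : ℝ) ≤ μ * 2 ^ n := hN.big.trans hx
  have hu := hN.sparse' hg.nn hQ
  have hcu : c ≤ Qn δ (n + 1) - p := by omega
  have hcu' : (c : ℝ) ≤ μ * 2 ^ n / 32 := le_trans (by exact_mod_cast hcu) hu
  have hec : c + (t.opens.map (fun X => if X ∈ D then ei X else 0)).sum ≤ ec t.opens := by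
    have h1 : ((c + 1 : ℕ) : ℝ) ≤ (ec t.opens : ℝ) := by
      have := hg.ends
      push_cast
      linarith
    have h2 : c + 1 ≤ ec t.opens := by exact_mod_cast h1
    omega
  obtain ⟨ι, hι1, hι2, hι3, hι4, hι5⟩ := plan t.opens (FT.wf_nodup hg.wf)
    (fun X hX => (FT.wf_open hg.wf hX).2) (B - p) D q hD hq c hec
  set P := (t.opens.map (fun X => if X ∈ D then (q X).npeel else 0)).sum with hP
  set R := (t.opens.map (fun X => if X ∈ D then (q X).ncut else 0)).sum with hR
  have hpm : Pm δ (Qn δ (n + 1)) = Pm δ p + ((c + P + R : ℕ) : ℝ) * (1 / 2) ^ (n + 1) := by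
    have := rk9_pm hN hQ (c + P + R) (by omega)
    rw [← this]
    congr 1
    omega
  obtain ⟨t', p', O, hS, hE, hpp, -, hPm, hO, hOut⟩ := step2 hN hg.toSt0 B ι hι3 (c + P) R hι4
    hι5 (Or.inr (by omega)) (by omega) (by rw [← hpm]; exact hB)
  have hp' : p' = Qn δ (n + 1) := by
    apply (ru8_strictMono δ).injective
    rw [hPm, hpm]
  have hOD : ∀ X ∈ t.opens, X ∈ D → Out X (p' - p) (O X) (q X) := by
    intro X hX hXD
    have := hOut X hX
    rw [hι1 X hX hXD] at this
    exact this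
  have hzc : zc t'.opens ≤ zc t.opens + 1 := by
    rw [hO, count_zc t.opens ι O (p' - p) hOut D hD hι2]
    exact hz O (p' - p) hOD
  have hcap : ∀ j, n + 1 ≤ j → (zc t'.opens : ℝ) < ee δ τ j := fun j hj =>
    hg.cap2.apply hS.wf hS.car (by omega) j (by omega)
  refine ⟨t', p', O, p' - p, ⟨hS, ?_, ?_, hcap⟩, hE, hzc, hO, hOD, ?_⟩
  · rw [hS.slack_eq hp']
    exact hcap (n + 1) le_rfl
  · have h1 := count_ec t.opens ι O (p' - p) hOut D hι2
    rw [hι4, ← hO] at h1
    have h2 : t.opens.length ≤ ec t'.opens + (Qn δ (n + 1) - p) + (zc t.opens + 1) := by omega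
    have h3 : (t.opens.length : ℝ) ≤ (ec t'.opens : ℝ) + ((Qn δ (n + 1) - p : ℕ) : ℝ) +
        ((zc t.opens : ℝ) + 1) := by exact_mod_cast h2
    have h4 := hg.zlt
    rw [pow_succ]
    linarith
  · intro X hX X' hX'
    exact (hOut X hX).sub (hι3 X hX) hX'

theorem rk9_ei {X : Set L} (h : ¬ Rich X) : ei X = 0 := by
  unfold ei
  rw [if_neg (fun h' => h h'.1)]

theorem rk9_in {t : FT L} {t' : FT L} (ht : t.WF) {O : Set L → List (Set L)}
    (hO : t'.opens = t.opens.flatMap O) (hs : ∀ X ∈ t.opens, ∀ X' ∈ O X, X' ⊆ X) {x : L}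
    {X0 X' : Set L} (hX0 : X0 ∈ t.opens) (hx : x ∈ X0) (hX' : X' ∈ t'.opens) (hx' : x ∈ X') :
    X' ∈ O X0 := by
  rw [hO, List.mem_flatMap] at hX'
  obtain ⟨Y, hY, hY'⟩ := hX'
  have e := FT.wf_open_unique ht hY hX0 (hs Y hY X' hY' hx') hx
  rw [← e]
  exact hY'

theorem rk9_sd_mono (s : Bool) {X X' : Set L} (h : X' ⊆ X) (x : L) : Sd s X' x ⊆ Sd s X x := by
  cases s
  · intro y hy
    exact ⟨h hy.1, hy.2⟩
  · intro y hy
    exact ⟨h hy.1, hy.2⟩

theorem rk9_default (hN : Num2 μ τ n0 δ) {t : FT L} {n p h m : ℕ}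
    (hg : Good2 n0 μ τ base δ t n p h m) (hn : h ≤ n) (hr : p + zc t.opens < Qn δ (n + 1))
    (B : ℕ) (hB : Pm δ (Qn δ (n + 1)) < Pm δ B)
    (hrun : ∀ X ∈ t.opens, ¬ Rich X → Run X (B - p)) :
    ∃ (t' : FT L) (p' : ℕ) (O : Set L → List (Set L)),
      St2 n0 μ τ base δ t' (n + 1) p' ∧ t.Ext t' ∧ zc t'.opens ≤ zc t.opens + 1 ∧
      t'.opens = t.opens.flatMap O ∧ ∀ X ∈ t.opens, ∀ X' ∈ O X, X' ⊆ X := by
  classical
  have hex : ∀ X : Set L, ∃ s : Bool, X ∈ t.opens → ¬ Rich X → ERun s X (B - p) := by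
    intro X
    by_cases hX : X ∈ t.opens ∧ ¬ Rich X
    · obtain ⟨s, hs⟩ := hrun X hX.1 hX.2
      exact ⟨s, fun _ _ => hs⟩
    · exact ⟨true, fun h1 h2 => absurd ⟨h1, h2⟩ hX⟩
  choose σ hσ using hex
  obtain ⟨D, hD⟩ : ∃ D : Set (Set L), ∀ X, X ∈ D ↔ ¬ Rich X := ⟨{Y | ¬ Rich Y}, fun X => Iff.rfl⟩
  have hs : ∀ k : ℕ, (t.opens.map (fun X => if X ∈ D then k else 0)).sum = zc t.opens * k := by
    intro k
    have e : (fun X : Set L => if X ∈ D then k else 0) = fun X => zi X * k := by
      funext X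
      by_cases h' : Rich X
      · rw [zi_rich h', if_neg (fun h => (hD X).1 h h'), Nat.zero_mul]
      · rw [zi_poor h', if_pos ((hD X).2 h'), Nat.one_mul]
    rw [e, List.sum_map_mul_right]
    rfl
  obtain ⟨t', p', O, w, hS, hE, hz, hO, -, hsub⟩ := rk9_step hN hg hn B hB D
    (fun X => Ins.cut (σ X)) (fun X _ hX => (hD X).2 hX)
    (fun X hX hX' => hσ X hX ((hD X).1 hX'))
    (Qn δ (n + 1) - p - zc t.opens) (by
      have e1 := hs 0
      have e2 := hs 1
      change p + (Qn δ (n + 1) - p - zc t.opens) +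
        (t.opens.map (fun X => if X ∈ D then 0 else 0)).sum +
        (t.opens.map (fun X => if X ∈ D then 1 else 0)).sum = Qn δ (n + 1)
      rw [e1, e2]
      omega)
    (by
      have e : (fun X : Set L => if X ∈ D then ei X else 0) = fun _ => 0 := by
        funext X
        by_cases hX : Rich X
        · rw [if_neg (fun h => (hD X).1 h hX)]
        · rw [rk9_ei hX, ite_self]
      rw [e]
      simp)
    (by
      rw [hs 1]
      omega)
    (by
      intro O w hO
      have e : t.opens.map (fun X => if X ∈ D then zc (O X) else 0) = t.opens.map zi := by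
        refine List.map_congr_left fun X hX => ?_
        by_cases h' : Rich X
        · rw [if_neg (fun h => (hD X).1 h h'), zi_rich h']
        · rw [if_pos ((hD X).2 h')]
          exact (hO X hX ((hD X).2 h')).zc_cut
      rw [e]
      exact Nat.le_succ _)
  exact ⟨t', p', O, hS, hE, hz, hO, hsub⟩

theorem rk9_one (hN : Num2 μ τ n0 δ) {t : FT L} {n p h m : ℕ}
    (hg : Good2 n0 μ τ base δ t n p h m) (hn : h ≤ n) (hr : p + zc t.opens < Qn δ (n + 1))
    (B : ℕ) (hB : Pm δ (Qn δ (n + 1)) < Pm δ B)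
    (hrun : ∀ X ∈ t.opens, ¬ Rich X → Run X (B - p)) {X0 : Set L} (hX0 : X0 ∈ t.opens)
    (i0 : Ins L) (hv : i0.Valid X0 (B - p)) (hc0 : i0.ncut = 0)
    (hz0 : ∀ w l, Out X0 w l i0 → zc l ≤ zi X0 + 1) :
    ∃ (t' : FT L) (p' : ℕ) (O : Set L → List (Set L)) (w : ℕ),
      St2 n0 μ τ base δ t' (n + 1) p' ∧ t.Ext t' ∧ zc t'.opens ≤ zc t.opens + 1 ∧
      t'.opens = t.opens.flatMap O ∧ Out X0 w (O X0) i0 ∧
      ∀ X ∈ t.opens, ∀ X' ∈ O X, X' ⊆ X := by
  classical
  have hex : ∀ X : Set L, ∃ s : Bool, X ∈ t.opens → ¬ Rich X → ERun s X (B - p) := by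
    intro X
    by_cases hX : X ∈ t.opens ∧ ¬ Rich X
    · obtain ⟨s, hs⟩ := hrun X hX.1 hX.2
      exact ⟨s, fun _ _ => hs⟩
    · exact ⟨true, fun h1 h2 => absurd ⟨h1, h2⟩ hX⟩
  choose σ hσ using hex
  have hnd := FT.wf_nodup hg.wf
  obtain ⟨D, hD⟩ : ∃ D : Set (Set L), ∀ X, X ∈ D ↔ (¬ Rich X ∨ X = X0) :=
    ⟨{Y | ¬ Rich Y ∨ Y = X0}, fun X => Iff.rfl⟩
  set q : Set L → Ins L := fun X => if X = X0 then i0 else Ins.cut (σ X) with hq
  have hq0 : q X0 = i0 := if_pos rfl
  have hq1 : ∀ X, X ≠ X0 → q X = Ins.cut (σ X) := fun X hX => if_neg hX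
  have hD0 : X0 ∈ D := (hD X0).2 (Or.inr rfl)
  have hD1 : ∀ X, X ≠ X0 → (X ∈ D ↔ ¬ Rich X) := fun X hX =>
    ⟨fun h => ((hD X).1 h).resolve_right hX, fun h => (hD X).2 (Or.inl h)⟩
  have hpl : i0.npeel ≤ 1 := by
    cases i0 <;> simp [Ins.npeel]
  have hzi := zi_le X0
  -- the sums
  have s1 : (t.opens.map (fun X => if X ∈ D then (q X).npeel else 0)).sum = i0.npeel := by
    have e := rk9_swap t.opens hnd (fun X => if X ∈ D then (q X).npeel else 0) (fun _ => 0) hX0
      (by
        intro X _ hne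
        change (if X ∈ D then (q X).npeel else 0) = 0
        rw [hq1 X hne]
        exact ite_self _)
    simp only [if_pos hD0, hq0] at e
    simpa using e
  have s2 : (t.opens.map (fun X => if X ∈ D then (q X).ncut else 0)).sum + zi X0 =
      zc t.opens := by
    have e := rk9_swap t.opens hnd (fun X => if X ∈ D then (q X).ncut else 0) zi hX0
      (by
        intro X _ hne
        change (if X ∈ D then (q X).ncut else 0) = zi X
        rw [hq1 X hne]
        by_cases h' : Rich X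
        · rw [if_neg (fun h => (hD1 X hne).1 h h'), zi_rich h']
        · rw [if_pos ((hD1 X hne).2 h'), zi_poor h']
          rfl)
    simp only [if_pos hD0, hq0, hc0] at e
    exact e
  have s3 : (t.opens.map (fun X => if X ∈ D then ei X else 0)).sum ≤ 1 := by
    have e := rk9_swap t.opens hnd (fun X => if X ∈ D then ei X else 0) (fun _ => 0) hX0
      (by
        intro X _ hne
        change (if X ∈ D then ei X else 0) = 0
        by_cases h' : Rich X
        · rw [if_neg (fun h => (hD1 X hne).1 h h')]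
        · rw [rk9_ei h', ite_self])
    simp only [if_pos hD0] at e
    have e2 := ei_le X0
    have e3 : (t.opens.map (fun _ => 0)).sum = 0 := by simp
    omega
  have s4 : (t.opens.map (fun X => if X ∈ D then 1 else 0)).sum + zi X0 =
      zc t.opens + 1 := by
    have e := rk9_swap t.opens hnd (fun X => if X ∈ D then 1 else 0) zi hX0
      (by
        intro X _ hne
        change (if X ∈ D then 1 else 0) = zi X
        by_cases h' : Rich X
        · rw [if_neg (fun h => (hD1 X hne).1 h h'), zi_rich h']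
        · rw [if_pos ((hD1 X hne).2 h'), zi_poor h'])
    simp only [if_pos hD0] at e
    exact e
  have s5 : ∀ (O : Set L → List (Set L)) (w : ℕ),
      (∀ X ∈ t.opens, X ∈ D → Out X w (O X) (q X)) →
      (t.opens.map (fun X => if X ∈ D then zc (O X) else 0)).sum ≤ zc t.opens + 1 := by
    intro O w hO
    have e := rk9_swap t.opens hnd (fun X => if X ∈ D then zc (O X) else 0) zi hX0
      (by
        intro X hX hne
        change (if X ∈ D then zc (O X) else 0) = zi X
        by_cases h' : Rich X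
        · rw [if_neg (fun h => (hD1 X hne).1 h h'), zi_rich h']
        · have h'' := (hD1 X hne).2 h'
          rw [if_pos h'']
          have h3 := hO X hX h''
          rw [hq1 X hne] at h3
          exact h3.zc_cut)
    simp only [if_pos hD0] at e
    have e2 := hO X0 hX0 hD0
    rw [hq0] at e2
    have e3 := hz0 w _ e2
    change _ + zi X0 = zc t.opens + zc (O X0) at e
    omega
  obtain ⟨t', p', O, w, hS, hE, hz, hO, hOut, hsub⟩ := rk9_step hN hg hn B hB D q
    (fun X _ hX => (hD X).2 (Or.inl hX))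
    (fun X hX hX' => by
      by_cases hne : X = X0
      · rw [hne, hq0]
        exact hv
      · rw [hq1 X hne]
        exact hσ X hX ((hD1 X hne).1 hX'))
    (Qn δ (n + 1) + zi X0 - p - i0.npeel - zc t.opens) (by rw [s1]; omega) s3 (by omega) s5
  refine ⟨t', p', O, w, hS, hE, hz, hO, ?_, hsub⟩
  have := hOut X0 hX0 hD0
  rw [hq0] at this
  exact this

theorem target2 (hN : Num2 μ τ n0 δ) {t : FT L} {n p h m : ℕ}
    (hg : Good2 n0 μ τ base δ t n p h m) (hn : h ≤ n) (hr : p + zc t.opens < Qn δ (n + 1))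
    (s : Bool) (x : L) :
    ∃ t' p', St2 n0 μ τ base δ t' (n + 1) p' ∧ t.Ext t' ∧
      zc t'.opens ≤ zc t.opens + 1 ∧
      (∀ X ∈ t.opens, x ∈ X → (Sd s X x).Finite → ∀ X' ∈ t'.opens, x ∈ X' →
        (Sd s X' x).ncard < (Sd s X x).ncard) ∧
      (∀ X' ∈ t'.opens, x ∈ X' → ∃ s', (Sd s' X' x).Finite) := by
  obtain ⟨B, hB, hrun⟩ := rk9_B hN hg
  by_cases hx0 : ∃ X0 ∈ t.opens, x ∈ X0
  · obtain ⟨X0, hX0, hxX0⟩ := hx0
    have huniq : ∀ X ∈ t.opens, x ∈ X → X = X0 := fun X hX hx =>
      FT.wf_open_unique hg.wf hX hX0 hx hxX0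
    by_cases h1 : (Sd s X0 x).Finite
    · -- peel at the finite side
      have h1' : (ru18_side s X0 x).Finite := h1
      obtain ⟨y, hy, hy'⟩ := ru18_end hxX0 h1'
      obtain ⟨t', p', O, w, hS, hE, hz, hO, hOut, hsub⟩ := rk9_one hN hg hn hr B hB hrun hX0
        (Ins.peel s) ⟨y, hy⟩ rfl (fun w l hl => by
          rw [hl.zc_peel]
          omega)
      have key : ∀ X' ∈ t'.opens, x ∈ X' → (Sd s X' x).ncard < (Sd s X0 x).ncard ∧
          (Sd s X' x).Finite := by
        intro X' hX' hx'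
        have h2 := rk9_in hg.wf hO hsub hX0 hxX0 hX' hx'
        obtain ⟨y', hy1, hy2⟩ := hOut
        rw [hy2, List.mem_singleton] at h2
        have e : y' = y := hy1.unique hy
        rw [e] at h2
        have hne : y ≠ x := by
          rintro rfl
          rw [h2] at hx'
          exact hx'.2 rfl
        have hys : y ∈ Sd s X0 x := hy'.resolve_left hne
        have hss : Sd s X' x ⊂ Sd s X0 x := by
          refine ⟨rk9_sd_mono s (by rw [h2]; exact Set.diff_subset) x, fun hcon => ?_⟩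
          have h3 := hcon hys
          have h4 : y ∈ X' := by
            cases s
            · exact h3.1
            · exact h3.1
          rw [h2] at h4
          exact h4.2 rfl
        exact ⟨Set.ncard_lt_ncard hss h1, h1.subset hss.1⟩
      refine ⟨t', p', hS, hE, hz, ?_, fun X' hX' hx' => ⟨s, (key X' hX' hx').2⟩⟩
      intro X hX hx _ X' hX' hx'
      rw [huniq X hX hx]
      exact (key X' hX' hx').1
    · by_cases h2 : (Sd (!s) X0 x).Finite
      · obtain ⟨t', p', O, hS, hE, hz, hO, hsub⟩ := rk9_default hN hg hn hr B hB hrun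
        refine ⟨t', p', hS, hE, hz, ?_, ?_⟩
        · intro X hX hx hf
          rw [huniq X hX hx] at hf
          exact absurd hf h1
        · intro X' hX' hx'
          refine ⟨!s, h2.subset (rk9_sd_mono _ ?_ x)⟩
          exact hsub X0 hX0 X' (rk9_in hg.wf hO hsub hX0 hxX0 hX' hx')
      · -- branch at `x`
        have h3 : {y ∈ X0 | y < x}.Infinite := by
          cases s
          · exact h1
          · exact h2
        have h4 : {y ∈ X0 | x < y}.Infinite := by
          cases s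
          · exact h2
          · exact h1
        have hbr := branch_at (FT.wf_open hg.wf hX0).2 hxX0 h3 h4
        obtain ⟨t', p', O, w, hS, hE, hz, hO, hOut, hsub⟩ := rk9_one hN hg hn hr B hB hrun hX0
          (Ins.br {y ∈ X0 | y ≤ x} {y ∈ X0 | x < y}) hbr rfl (fun w l hl => by
            rw [hl.zc_br]
            exact zi_branch hbr)
        refine ⟨t', p', hS, hE, hz, ?_, ?_⟩
        · intro X hX hx hf
          rw [huniq X hX hx] at hf
          exact absurd hf h1
        · intro X' hX' hx'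
          have h5 := rk9_in hg.wf hO hsub hX0 hxX0 hX' hx'
          have h6 : O X0 = [{y ∈ X0 | y ≤ x}, {y ∈ X0 | x < y}] := hOut
          rw [h6, List.mem_cons, List.mem_singleton] at h5
          rcases h5 with h5 | h5
          · refine ⟨true, ?_⟩
            have e : Sd true X' x = ∅ := by
              rw [h5]
              ext y
              constructor
              · rintro ⟨⟨-, h7⟩, h8⟩
                exact absurd h8 (not_lt_of_ge h7)
              · exact fun h => h.elim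
            rw [e]
            exact Set.finite_empty
          · rw [h5] at hx'
            exact absurd hx'.2 (lt_irrefl x)
  · obtain ⟨t', p', O, hS, hE, hz, hO, hsub⟩ := rk9_default hN hg hn hr B hB hrun
    refine ⟨t', p', hS, hE, hz, ?_, ?_⟩
    · intro X hX hx
      exact absurd ⟨X, hX, hx⟩ hx0
    · intro X' hX' hx'
      rw [hO, List.mem_flatMap] at hX'
      obtain ⟨Y, hY, hY'⟩ := hX'
      exact absurd ⟨Y, hY, hsub Y hY X' hY' hx'⟩ hx0

end

end Pool.Agent.RK
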