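import Pool.Agent.RK.CapP
import Pool.Agent.RK.Plain2
import Pool.Agent.RK.Target2
import Pool.Agent.RK.Refresh2

/-!
Project RK (MP_d404c6_co), row RK-11: one round of the machine, and running it until a given
element is a leaf.
-/

set_option autoImplicit false

open Filter

namespace Pool.Agent.RK

open Pool.Agent.RU

section
variable {L : Type} [LinearOrder L] {μ τ : ℝ} {n0 : ℕ} {base δ : ℕ → ℕ}

theorem rk11_sd_mono (s : Bool) {X X' : Set L} (h : X' ⊆ X) (x : L) : Sd s X' x ⊆ Sd s X x := by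
  cases s
  · intro y hy
    exact ⟨h hy.1, hy.2⟩
  · intro y hy
    exact ⟨h hy.1, hy.2⟩

omit [LinearOrder L] in
theorem rk11_leaf {t : FT L} (hc : t.car = Set.univ) {x : L} (h : ∀ X ∈ t.opens, x ∉ X) :
    ∃ u, t.Has x u := by
  have hx : x ∈ t.car := by rw [hc]; exact Set.mem_univ x
  rcases FT.mem_car hx with h1 | ⟨X, hX, hxX⟩
  · exact h1
  · exact absurd hxX (h X hX)

theorem round2 (hN : Num2 μ τ n0 δ) (hC : ∀ K, ∃ h, CapP L (ee δ τ) K h) {t : FT L}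
    {n p h m : ℕ} (hg : Good2 n0 μ τ base δ t n p h m) (s : Bool) (x : L) :
    ∃ t' n' p' h' m', Good2 n0 μ τ base δ t' n' p' h' m' ∧ n < n' ∧ t.Ext t' ∧
      (∀ X ∈ t.opens, x ∈ X → (Sd s X x).Finite → ∀ X' ∈ t'.opens, x ∈ X' →
        (Sd s X' x).Finite ∧ (Sd s X' x).ncard < (Sd s X x).ncard) ∧
      (∀ X' ∈ t'.opens, x ∈ X' → ∃ s', (Sd s' X' x).Finite) := by
  obtain ⟨t1, n1, p1, h1, hn1, hh1, hr1, e1⟩ := to_reset hN hg
  obtain ⟨t2, p2, h2, e2, hz2, hs2, hf2⟩ := target2 hN h1 hh1 hr1 s x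
  have hcap : CapP L (ee δ τ) (2 * zc t2.opens) (n1 + 1) :=
    h1.cap2.mono (by omega) (by omega)
  obtain ⟨t3, p3, h3, m3, hg3, e3⟩ := refresh2 hN hC h2 hcap
  refine ⟨t3, n1 + 1 + 1, p3, h3, m3, hg3, by omega, FT.ext_trans e1 (FT.ext_trans e2 e3),
    ?_, ?_⟩
  · intro X hX hxX hfin X' hX' hxX'
    obtain ⟨X2, hX2, h32⟩ := FT.ext_open e3 hX'
    obtain ⟨X1, hX1, h21⟩ := FT.ext_open e2 hX2
    obtain ⟨X0, hX0, h10⟩ := FT.ext_open e1 hX1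
    have e : X0 = X := FT.wf_open_unique hg.wf hX0 hX (h10 (h21 (h32 hxX'))) hxX
    rw [e] at h10
    have hfin1 : (Sd s X1 x).Finite := hfin.subset (rk11_sd_mono s h10 x)
    have hlt := hs2 X1 hX1 (h21 (h32 hxX')) hfin1 X2 hX2 (h32 hxX')
    have hfin2 : (Sd s X2 x).Finite := hfin1.subset (rk11_sd_mono s h21 x)
    have hle1 : (Sd s X1 x).ncard ≤ (Sd s X x).ncard :=
      Set.ncard_le_ncard (rk11_sd_mono s h10 x) hfin
    have hle2 : (Sd s X' x).ncard ≤ (Sd s X2 x).ncard :=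
      Set.ncard_le_ncard (rk11_sd_mono s h32 x) hfin2
    exact ⟨hfin2.subset (rk11_sd_mono s h32 x), by omega⟩
  · intro X' hX' hxX'
    obtain ⟨X2, hX2, h32⟩ := FT.ext_open e3 hX'
    obtain ⟨s', hs'⟩ := hf2 X2 hX2 (h32 hxX')
    exact ⟨s', hs'.subset (rk11_sd_mono s' h32 x)⟩

/-- induction on the size of the finite side -/
theorem rk11_ind (hN : Num2 μ τ n0 δ) (hC : ∀ K, ∃ h, CapP L (ee δ τ) K h) (s : Bool) (x : L)
    (c : ℕ) : ∀ {t : FT L} {n p h m : ℕ}, Good2 n0 μ τ base δ t n p h m →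
    (∀ X ∈ t.opens, x ∈ X → (Sd s X x).Finite ∧ (Sd s X x).ncard + 1 ≤ c) →
    ∃ t' n' p' h' m', Good2 n0 μ τ base δ t' n' p' h' m' ∧ n < n' ∧ t.Ext t' ∧
      ∃ u, t'.Has x u := by
  induction c with
  | zero =>
    intro t n p h m hg hs
    obtain ⟨t1, n1, p1, h1, m1, hg1, hn1, e1, -, -⟩ := round2 hN hC hg s x
    obtain ⟨u, hu⟩ := rk11_leaf hg.car (x := x) (fun X hX hx => by
      have := (hs X hX hx).2
      omega)
    exact ⟨t1, n1, p1, h1, m1, hg1, hn1, e1, u, FT.has_ext e1 hu⟩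
  | succ c ih =>
    intro t n p h m hg hs
    obtain ⟨t1, n1, p1, h1, m1, hg1, hn1, e1, hs1, -⟩ := round2 hN hC hg s x
    have hs2 : ∀ X ∈ t1.opens, x ∈ X → (Sd s X x).Finite ∧ (Sd s X x).ncard + 1 ≤ c := by
      intro X' hX' hx'
      obtain ⟨X, hX, hXX⟩ := FT.ext_open e1 hX'
      obtain ⟨hf, hc⟩ := hs X hX (hXX hx')
      obtain ⟨hf', hlt⟩ := hs1 X hX (hXX hx') hf X' hX' hx'
      exact ⟨hf', by omega⟩
    obtain ⟨t2, n2, p2, h2, m2, hg2, hn2, e2, hu⟩ := ih hg1 hs2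
    exact ⟨t2, n2, p2, h2, m2, hg2, by omega, FT.ext_trans e1 e2, hu⟩

theorem fair2 (hN : Num2 μ τ n0 δ) (hC : ∀ K, ∃ h, CapP L (ee δ τ) K h) {t : FT L}
    {n p h m : ℕ} (hg : Good2 n0 μ τ base δ t n p h m) (x : L) :
    ∃ t' n' p' h' m', Good2 n0 μ τ base δ t' n' p' h' m' ∧ n < n' ∧ t.Ext t' ∧
      ∃ u, t'.Has x u := by
  obtain ⟨t1, n1, p1, h1, m1, hg1, hn1, e1, -, hf⟩ := round2 hN hC hg false x
  have key : ∃ (s : Bool) (c : ℕ), ∀ X ∈ t1.opens, x ∈ X →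
      (Sd s X x).Finite ∧ (Sd s X x).ncard + 1 ≤ c := by
    by_cases hx : ∃ X ∈ t1.opens, x ∈ X
    · obtain ⟨X, hX, hxX⟩ := hx
      obtain ⟨s, hs⟩ := hf X hX hxX
      refine ⟨s, (Sd s X x).ncard + 1, fun Y hY hxY => ?_⟩
      rw [← FT.wf_open_unique hg1.wf hX hY hxX hxY]
      exact ⟨hs, le_refl _⟩
    · exact ⟨false, 0, fun X hX hxX => absurd ⟨X, hX, hxX⟩ hx⟩
  obtain ⟨s, c, hs⟩ := key
  obtain ⟨t2, n2, p2, h2, m2, hg2, hn2, e2, hu⟩ := rk11_ind hN hC s x c hg1 hs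
  exact ⟨t2, n2, p2, h2, m2, hg2, by omega, FT.ext_trans e1 e2, hu⟩

end

end Pool.Agent.RK
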