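import Pool.Agent.RK.Fillb
import Pool.Agent.RK.Rich
import Pool.Agent.RK.Split2
import Pool.Agent.RU.Runs

/-!
Project RK, row RK-15c: the left end (helper90 for helper59).
-/

set_option autoImplicit false

open Filter

namespace Pool.Agent.RK

open Pool.Agent.RU

section
variable {L : Type} [LinearOrder L] {δ pt : ℕ → ℕ} {n0 W : ℕ}

theorem rk15c_not_rich (b : List (FT L)) (hr : ∀ g ∈ b, ¬ Rich g.car)
    (hbl : b.Pairwise (fun g g' => ∀ a ∈ g.car, ∀ x ∈ g'.car, a < x)) :
    ¬ Rich {x | ∃ g ∈ b, x ∈ g.car} := by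
  induction b with
  | nil =>
    intro h
    apply h.infinite
    simp
  | cons g b ih =>
    intro h
    have h1 : {x | ∃ g' ∈ g :: b, x ∈ g'.car} = g.car ∪ {x | ∃ g' ∈ b, x ∈ g'.car} := by
      ext x
      simp
    rw [List.pairwise_cons] at hbl
    rw [h1] at h
    rcases h.union (by
      rintro a ha x ⟨g', hg', hx⟩
      exact hbl.1 g' hg' a ha x hx) with h2 | h2
    · exact hr g List.mem_cons_self h2
    · exact ih (fun g' hg' => hr g' (List.mem_cons_of_mem g hg')) hbl.2 h2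

omit [LinearOrder L] in
/-- positions are leaves or open nodes -/
theorem rk15c_pos {b : List (FT L)} {ds : List ℕ} (hlen : ds.length = b.length)
    (hb : ∀ q ∈ b.zip ds, IsPos n0 q.1 q.2) (g : FT L) (hg : g ∈ b) :
    (∃ x, g = FT.leaf x) ∨ ∃ X, g = FT.opn X := by
  obtain ⟨k, hk, rfl⟩ := List.mem_iff_getElem.1 hg
  have hk2 : k < ds.length := by omega
  have hkz : k < (b.zip ds).length := by
    rw [List.length_zip]
    omega
  have h1 : (b.zip ds)[k] ∈ b.zip ds := List.getElem_mem hkz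
  have h2 := hb _ h1
  rw [List.getElem_zip] at h2
  rcases h2 with ⟨x, hx⟩ | ⟨⟨X, hX⟩, -⟩
  · exact Or.inl ⟨x, hx⟩
  · exact Or.inr ⟨X, hX⟩

omit [LinearOrder L] in
/-- the first open position -/
theorem rk15c_split (b : List (FT L))
    (hp : ∀ g ∈ b, (∃ x, g = FT.leaf x) ∨ ∃ X, g = FT.opn X) :
    (∀ g ∈ b, ∃ x, g = FT.leaf x) ∨ ∃ (b1 : List (FT L)) (X : Set L) (b2 : List (FT L)),
      b = b1 ++ FT.opn X :: b2 ∧ ∀ g ∈ b1, ∃ x, g = FT.leaf x := by
  induction b with
  | nil =>
    left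
    intro g hg
    exact absurd hg List.not_mem_nil
  | cons g b ih =>
    rcases hp g List.mem_cons_self with ⟨x, rfl⟩ | ⟨X, rfl⟩
    · rcases ih (fun g' hg' => hp g' (List.mem_cons_of_mem _ hg')) with h | ⟨b1, X, b2, rfl, h⟩
      · left
        intro g' hg'
        rcases List.mem_cons.1 hg' with rfl | h'
        · exact ⟨x, rfl⟩
        · exact h g' h'
      · right
        refine ⟨FT.leaf x :: b1, X, b2, rfl, ?_⟩
        intro g' hg'
        rcases List.mem_cons.1 hg' with rfl | h'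
        · exact ⟨x, rfl⟩
        · exact h g' h'
    · right
      exact ⟨[], X, b, rfl, fun g' hg' => absurd hg' List.not_mem_nil⟩

omit [LinearOrder L] in
theorem rk15c_dsplit {b1 b2 : List (FT L)} {g : FT L} {ds : List ℕ}
    (h : ds.length = (b1 ++ g :: b2).length) : ∃ (ds1 : List ℕ) (e : ℕ) (ds2 : List ℕ),
      ds = ds1 ++ e :: ds2 ∧ ds1.length = b1.length ∧ ds2.length = b2.length := by
  rw [List.length_append, List.length_cons] at h
  have h1 : (ds.take b1.length).length = b1.length := by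
    rw [List.length_take]
    omega
  have h2 : (ds.drop b1.length).length = b2.length + 1 := by
    rw [List.length_drop]
    omega
  obtain ⟨e, ds2, h3⟩ := List.exists_cons_of_length_eq_add_one h2
  refine ⟨ds.take b1.length, e, ds2, ?_, h1, ?_⟩
  · rw [← h3, List.take_append_drop]
  · rw [h3, List.length_cons] at h2
    omega

theorem rk15c_self {b : List (FT L)} {ds : List ℕ}
    (hl : ∀ g ∈ b, ∃ x, g = FT.leaf x)
    (hbl : b.Pairwise (fun g g' => ∀ a ∈ g.car, ∀ x ∈ g'.car, a < x)) (i : ℕ) :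
    Rp n0 δ pt b b ds i i := by
  refine ⟨rfl, ?_, ?_, ?_, ?_, rfl, le_rfl, ?_⟩
  · intro g hg
    obtain ⟨x, rfl⟩ := hl g hg
    exact trivial
  · intro q hq
    obtain ⟨x, hx⟩ := hl q.1 (List.of_mem_zip hq).1
    rw [hx]
    exact trivial
  · apply List.Pairwise.isChain
    refine hbl.imp_of_mem ?_
    intro g g' hg _ h
    obtain ⟨x, rfl⟩ := hl g hg
    exact ⟨h, Or.inl ⟨x, Set.mem_singleton x, fun y hy => le_of_eq hy⟩⟩
  · intro d
    simp [cD]
  · intro q hq n _
    obtain ⟨x, hx⟩ := hl q.1 (List.of_mem_zip hq).1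
    rw [hx]
    rfl

theorem rk15c_one {X Z : Set L} (hZ : Z.Infinite) (hZc : Z.OrdConnected) (i : ℕ) :
    Rp n0 δ pt [FT.opn X] [FT.opn Z] [n0] i i := by
  refine ⟨rfl, ?_, ?_, List.isChain_singleton _, ?_, rfl, le_rfl, ?_⟩
  · intro g hg
    rw [List.mem_singleton.1 hg]
    exact ⟨hZ, hZc⟩
  · intro q hq
    rw [List.zip_cons_cons, List.zip_nil_right] at hq
    rw [List.mem_singleton.1 hq]
    rfl
  · intro d
    simp [sc, cD, FT.cnt]
  · intro q hq n _
    rw [List.zip_cons_cons, List.zip_nil_right] at hq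
    rw [List.mem_singleton.1 hq]
    rfl

theorem left_end (hm : Monotone δ) (hlow : ∀ i, n0 ≤ δ i)
    (hpt : ∀ i < W, pt i < pt (i + 1) ∧ Pm δ (pt (i + 1)) = Pm δ (pt i) + (1 / 2) ^ n0)
    (b : List (FT L)) (ds : List ℕ) (hlen : ds.length = b.length)
    (hb : ∀ q ∈ b.zip ds, IsPos n0 q.1 q.2)
    (hnr : ∀ X, FT.opn X ∈ b → ¬ Rich X ∧ X.Infinite)
    (hbl : b.Pairwise (fun g g' => ∀ a ∈ g.car, ∀ x ∈ g'.car, a < x))
    (hU : {x | ∃ g ∈ b, x ∈ g.car}.OrdConnected) (i : ℕ) (hi : i + no b ≤ W) :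
    ∃ (gs : List (FT L)) (R : Set L) (i' : ℕ), Rp n0 δ pt b gs ds i i' ∧
      no gs ≤ 1 ∧ (∀ X ∈ gs.flatMap FT.opens, ¬ Rich X) ∧
      {x | ∃ g ∈ b, x ∈ g.car} = {x | ∃ g ∈ gs, x ∈ g.car} ∪ R ∧
      (∀ g ∈ gs, ∀ a ∈ g.car, ∀ x ∈ R, a < x) ∧
      (∀ g ∈ gs.getLast?, ∃ x, IsGreatest g.car x) := by
  have hp := rk15c_pos hlen hb
  rcases rk15c_split b hp with hleaf | ⟨b1, X, b2, hbe, hb1⟩
  · -- only leaves
    have hcl : ∀ g ∈ b, g.opens = [] := by
      intro g hg
      obtain ⟨x, rfl⟩ := hleaf g hg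
      rfl
    refine ⟨b, ∅, i, rk15c_self hleaf hbl i, ?_, ?_, ?_, ?_, ?_⟩
    · rw [rk14_no_closed hcl]
      exact Nat.zero_le 1
    · intro Y hY
      obtain ⟨g, hg, hgY⟩ := List.mem_flatMap.1 hY
      rw [hcl g hg] at hgY
      exact absurd hgY List.not_mem_nil
    · rw [Set.union_empty]
    · intro g _ a _ x hx
      exact absurd hx (Set.notMem_empty x)
    · intro g hg
      obtain ⟨x, rfl⟩ := hleaf g (List.mem_of_getLast? hg)
      exact ⟨x, Set.mem_singleton x, fun y hy => le_of_eq hy⟩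
  -- there is an open position
  set U : Set L := {x | ∃ g ∈ b, x ∈ g.car} with hUdef
  have hUr : ¬ Rich U := by
    apply rk15c_not_rich b ?_ hbl
    intro g hg
    rcases hp g hg with ⟨x, rfl⟩ | ⟨Y, rfl⟩
    · intro h
      exact h.infinite (Set.finite_singleton x)
    · exact (hnr Y hg).1
  have hXb : FT.opn X ∈ b := by
    rw [hbe]
    exact List.mem_append_right _ List.mem_cons_self
  have hUi : U.Infinite := (hnr X hXb).2.mono fun x hx => ⟨_, hXb, hx⟩
  rcases split_left hUi hU hUr with hI | hII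
  · -- a run in the interior
    obtain ⟨ds1, e, ds2, hds, hl1, hl2⟩ := rk15c_dsplit (hbe ▸ hlen)
    have hzip : b.zip ds = b1.zip ds1 ++ (FT.opn X, e) :: b2.zip ds2 := by
      rw [hbe, hds, List.zip_append hl1.symm, List.zip_cons_cons]
    have he : e = n0 := by
      have h1 := hb (FT.opn X, e) (by
        rw [hzip]
        exact List.mem_append_right _ List.mem_cons_self)
      rcases h1 with ⟨x, hx⟩ | ⟨-, h2⟩
      · cases hx
      · exact h2
    subst he
    obtain ⟨l, hll, hls, hlU, hlz, hlinf⟩ := hI (need pt i b2 + 1)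
    obtain ⟨x0, l', rfl⟩ := List.exists_cons_of_length_eq_add_one hll
    have hll' : l'.length = need pt i b2 := by
      rw [List.length_cons] at hll
      omega
    rw [List.pairwise_cons] at hls
    rw [hbe, List.pairwise_append, List.pairwise_cons] at hbl
    obtain ⟨hbl1, ⟨hblX, hbl2⟩, hbl12⟩ := hbl
    -- elements of `U` outside the first leaves are above them
    have hab : ∀ z ∈ U, (∃ g ∈ b1, z ∈ g.car) ∨ ∀ g ∈ b1, ∀ y ∈ g.car, y < z := by
      rintro z ⟨g, hg, hz⟩
      rw [hbe] at hg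
      rcases List.mem_append.1 hg with h | h
      · exact Or.inl ⟨g, h, hz⟩
      · exact Or.inr fun g' hg' y hy => hbl12 g' hg' g h y hy z hz
    have hx0U : x0 ∈ U := hlU x0 List.mem_cons_self
    have hb1fin : {x | ∃ g ∈ b1, x ∈ g.car}.Finite := by
      have h1 : {x | ∃ g ∈ b1, x ∈ g.car} = ⋃ g ∈ {g | g ∈ b1}, g.car := by
        ext x
        simp
      rw [h1]
      refine (List.finite_toSet b1).biUnion fun g hg => ?_
      obtain ⟨x, rfl⟩ := hb1 g hg
      exact Set.finite_singleton x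
    have hx0 : ∀ g ∈ b1, ∀ y ∈ g.car, y < x0 := by
      rcases hab x0 hx0U with ⟨g, hg, hgx⟩ | h
      · exfalso
        apply hlinf
        refine hb1fin.subset ?_
        rintro z ⟨hz, hzl⟩
        rcases hab z hz with h | h
        · exact h
        · exact absurd (h g hg x0 hgx) (not_lt.2 (hzl x0 List.mem_cons_self).le)
      · exact h
    set Z : Set L := {z ∈ U | z ≤ x0 ∧ ∀ g ∈ b1, ∀ y ∈ g.car, y < z} with hZdef
    have hZU : Z ⊆ U := fun z hz => hz.1
    have hZinf : Z.Infinite := by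
      have h1 : {z ∈ U | ∀ x ∈ x0 :: l', z < x} \ {x | ∃ g ∈ b1, x ∈ g.car} ⊆ Z := by
        rintro z ⟨⟨hz, hzl⟩, hz2⟩
        exact ⟨hz, (hzl x0 List.mem_cons_self).le, (hab z hz).resolve_left hz2⟩
      exact (hlinf.sdiff hb1fin).mono h1
    have hZc : Z.OrdConnected := by
      constructor
      intro a ha c hc t ht
      exact ⟨hU.out ha.1 hc.1 ht, ht.2.trans hc.2.1, fun g hg y hy =>
        lt_of_lt_of_le (ha.2.2 g hg y hy) ht.1⟩
    have hZg : IsGreatest Z x0 := ⟨⟨hx0U, le_rfl, hx0⟩, fun z hz => hz.2.1⟩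
    have hno : no b = 1 + no b2 := by
      rw [hbe, rk14_no_append, rk14_no_closed (fun g hg => by
        obtain ⟨x, rfl⟩ := hb1 g hg
        rfl), zero_add]
      simp [no, FT.opens]
    obtain ⟨gs2, hrp2, hcl2, hcar2⟩ := fillb hm hlow hpt b2 ds2 hl2 (fun q hq => hb q (by
      rw [hzip]
      exact List.mem_append_right _ (List.mem_cons_of_mem _ hq))) i (by omega) l' hll' hls.2
    have hmem2 : ∀ x, x ∈ l' ↔ ∃ g ∈ gs2, x ∈ g.car := fun x => by
      have h1 : x ∈ {x | ∃ g ∈ gs2, x ∈ g.car} ↔ x ∈ {x | x ∈ l'} := by rw [hcar2]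
      exact h1.symm
    have hr2 : Rp e δ pt (FT.opn X :: b2) (FT.opn Z :: gs2) (e :: ds2) i (i + no b2) := by
      refine Rp.append (rk15c_one hZinf hZc i) hrp2 le_rfl
        (rk14_pt_mono hpt (Nat.le_add_right _ _) (by omega)) rfl ?_
      intro g hg g' hg'
      rw [List.getLast?_singleton, Option.mem_some_iff] at hg
      subst hg
      refine ⟨?_, Or.inl ⟨x0, hZg⟩⟩
      intro a ha x hx
      exact lt_of_le_of_lt ha.2.1 (hls.1 x ((hmem2 x).2 ⟨g', List.mem_of_mem_head? hg', hx⟩))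
    have hr1 : Rp e δ pt (b1 ++ FT.opn X :: b2) (b1 ++ FT.opn Z :: gs2) (ds1 ++ e :: ds2) i
        (i + no b2) := by
      refine Rp.append (rk15c_self hb1 hbl1 i) hr2 le_rfl
        (rk14_pt_mono hpt (Nat.le_add_right _ _) (by omega)) hl1 ?_
      intro g hg g' hg'
      rw [List.head?_cons, Option.mem_some_iff] at hg'
      subst hg'
      have hgb := List.mem_of_getLast? hg
      obtain ⟨x, rfl⟩ := hb1 g hgb
      refine ⟨fun a ha z hz => hz.2.2 _ hgb a ha, Or.inl ⟨x, Set.mem_singleton x, fun y hy => le_of_eq hy⟩⟩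
    refine ⟨b1 ++ FT.opn Z :: gs2, {z ∈ U | ∀ x ∈ x0 :: l', x < z}, i + no b2, ?_, ?_, ?_, ?_,
      ?_, ?_⟩
    · rw [hbe, hds]
      exact hr1
    · have h1 : no (FT.opn Z :: gs2) = 1 + no gs2 := by simp [no, FT.opens]
      rw [rk14_no_append, h1, rk14_no_closed hcl2, rk14_no_closed (fun g hg => by
        obtain ⟨x, rfl⟩ := hb1 g hg
        rfl)]
    · intro Y hY
      obtain ⟨g, hg, hgY⟩ := List.mem_flatMap.1 hY
      rcases List.mem_append.1 hg with h | h
      · obtain ⟨x, rfl⟩ := hb1 g h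
        exact absurd hgY List.not_mem_nil
      rcases List.mem_cons.1 h with rfl | h
      · rw [List.mem_singleton.1 hgY]
        exact fun h' => hUr (h'.mono hZU)
      · rw [hcl2 g h] at hgY
        exact absurd hgY List.not_mem_nil
    · ext z
      constructor
      · intro hz
        by_cases hzl : z ∈ x0 :: l'
        · left
          rcases List.mem_cons.1 hzl with rfl | h
          · exact ⟨FT.opn Z, List.mem_append_right _ List.mem_cons_self, hZg.1⟩
          · obtain ⟨g, hg, hgz⟩ := (hmem2 z).1 h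
            exact ⟨g, List.mem_append_right _ (List.mem_cons_of_mem _ hg), hgz⟩
        rcases hlz z hz hzl with h | h
        · left
          rcases hab z hz with ⟨g, hg, hgz⟩ | h'
          · exact ⟨g, List.mem_append_left _ hg, hgz⟩
          · exact ⟨FT.opn Z, List.mem_append_right _ List.mem_cons_self,
              ⟨hz, (h x0 List.mem_cons_self).le, h'⟩⟩
        · exact Or.inr ⟨hz, h⟩
      · rintro (⟨g, hg, hgz⟩ | hz)
        · rcases List.mem_append.1 hg with h | h
          · refine ⟨g, ?_, hgz⟩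
            rw [hbe]
            exact List.mem_append_left _ h
          rcases List.mem_cons.1 h with rfl | h
          · exact hZU hgz
          · exact hlU z (List.mem_cons_of_mem _ ((hmem2 z).2 ⟨g, h, hgz⟩))
        · exact hz.1
    · intro g hg a ha x hx
      have hx1 : x0 < x := hx.2 x0 List.mem_cons_self
      rcases List.mem_append.1 hg with h | h
      · exact (hx0 g h a ha).trans hx1
      rcases List.mem_cons.1 h with rfl | h
      · exact lt_of_le_of_lt ha.2.1 hx1
      · exact hx.2 a (List.mem_cons_of_mem _ ((hmem2 a).2 ⟨g, h, ha⟩))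
    · intro g hg
      have hg' := List.mem_of_getLast? hg
      rcases List.mem_append.1 hg' with h | h
      · obtain ⟨x, rfl⟩ := hb1 g h
        exact ⟨x, Set.mem_singleton x, fun y hy => le_of_eq hy⟩
      rcases List.mem_cons.1 h with rfl | h
      · exact ⟨x0, hZg⟩
      · exact (ends_of_closed (hrp2.wf g h) (hcl2 g h)).1
  · -- an initial run
    obtain ⟨l, U', hll, hpeel⟩ := hII (need pt i b)
    obtain ⟨gs, hrp, hcl, hcar⟩ := fillb hm hlow hpt b ds hlen hb i hi l hll hpeel.left.1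
    have hmem : ∀ x, x ∈ l ↔ ∃ g ∈ gs, x ∈ g.car := fun x => by
      have h1 : x ∈ {x | ∃ g ∈ gs, x ∈ g.car} ↔ x ∈ {x | x ∈ l} := by rw [hcar]
      exact h1.symm
    refine ⟨gs, U', i + no b, hrp, ?_, ?_, ?_, ?_, ?_⟩
    · rw [rk14_no_closed hcl]
      exact Nat.zero_le 1
    · intro Y hY
      obtain ⟨g, hg, hgY⟩ := List.mem_flatMap.1 hY
      rw [hcl g hg] at hgY
      exact absurd hgY List.not_mem_nil
    · rw [hcar, Set.union_comm]
      exact hpeel.union.symm
    · intro g hg a ha x hx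
      exact hpeel.left.2 a ((hmem a).2 ⟨g, hg, ha⟩) x hx
    · intro g hg
      have hg' := List.mem_of_getLast? hg
      exact (ends_of_closed (hrp.wf g hg') (hcl g hg')).1

end

end Pool.Agent.RK
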