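import Pool.Agent.RK.Num
import Pool.Agent.RK.Refresh2
import Pool.Agent.RK.Fair2
import Pool.Agent.RU.Limit

/-!
RK-12: the machine.
-/

set_option autoImplicit false

open Filter

namespace Pool.Agent.RK

open Pool.Agent.RU

/-- a good state -/
structure GS2 (L : Type) [LinearOrder L] (n0 : ℕ) (μ τ : ℝ) (base δ : ℕ → ℕ) : Type where
  t : FT L
  n : ℕ
  p : ℕ
  h : ℕ
  m : ℕ
  good : Good2 n0 μ τ base δ t n p h m

theorem machine2 {L : Type} [LinearOrder L] {μ τ : ℝ} {n0 : ℕ} {base δ : ℕ → ℕ}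
    [Countable L] [Nonempty L] (hN : Num2 μ τ n0 δ)
    (hC : ∀ K, ∃ h, CapP L (ee δ τ) K h) {t : FT L} {p : ℕ}
    (h : St2 n0 μ τ base δ t n0 p) (hc : CapP L (ee δ τ) (2 * zc t.opens) n0) (N : ℕ → ℕ)
    (hNd : ∀ d, N d = base d + {i | δ i = d}.ncard) :
    ∃ ad : L → List Bool, AddrOK ad ∧ ∀ d, {x | (ad x).length = d}.ncard = N d := by
  obtain ⟨t0, p0, h0, m0, hg0, -⟩ := refresh2 hN hC h hc
  obtain ⟨e, he⟩ := exists_surjective_nat L
  have hstep : ∀ (s : GS2 L n0 μ τ base δ) (x : L), ∃ s' : GS2 L n0 μ τ base δ,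
      s.n < s'.n ∧ s.t.Ext s'.t ∧ ∃ u, s'.t.Has x u := by
    intro s x
    obtain ⟨t', n', p', h', m', h1, h2, h3, h4⟩ := fair2 hN hC s.good x
    exact ⟨⟨t', n', p', h', m', h1⟩, h2, h3, h4⟩
  choose F hF using hstep
  let σ : ℕ → GS2 L n0 μ τ base δ := fun i =>
    Nat.rec ⟨t0, n0 + 1, p0, h0, m0, hg0⟩ (fun i s => F s (e i)) i
  have hσ : ∀ i, σ (i + 1) = F (σ i) (e i) := fun i => rfl
  have hn : ∀ i, i < (σ i).n := by
    intro i
    induction i with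
    | zero => exact Nat.succ_pos n0
    | succ i ih =>
      have h1 := (hF (σ i) (e i)).1
      rw [hσ]
      omega
  refine limit (fun i => (σ i).t) (fun i => (σ i).good.wf) (σ 0).good.car ?_ ?_
    (fun i => (σ i).n) (fun i => (σ i).good.opat) (fun d => ⟨d, hn d⟩) N ?_
  · intro i
    exact (hF (σ i) (e i)).2.1
  · intro x
    obtain ⟨i, rfl⟩ := he x
    exact ⟨i + 1, (hF (σ i) (e i)).2.2⟩
  · intro i d hd
    rw [(σ i).good.cnt d, hN.cD_total (σ i).good.used hd.le, hNd]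

end Pool.Agent.RK
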