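import Pool.Agent.RK.Defs
import Pool.Agent.RU.TreeNums
import Pool.Agent.RU.TreeSep

/-!
Project RK (MP_d404c6_co), row RK-17: truncation of a strongly complete tree at a level.
-/

set_option autoImplicit false

open Filter

namespace Pool.Agent.RK

open Pool.Agent.RU

/-- the words of length `n` extending `w` with the property `Q` -/
def rk17_S (Q : List Bool → Prop) (w : List Bool) (n : ℕ) : Set (List Bool) :=
  {u | w <+: u ∧ Q u ∧ u.length = n}

theorem rk17_fin (Q : List Bool → Prop) (w : List Bool) (n : ℕ) : (rk17_S Q w n).Finite :=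
  (List.finite_length_eq Bool n).subset fun _ h => h.2.2

theorem rk17_cases {w u : List Bool} (h : w <+: u) : u = w ∨ ∃ b, w ++ [b] <+: u := by
  obtain ⟨t, rfl⟩ := h
  cases t with
  | nil => exact Or.inl (List.append_nil w)
  | cons b t => exact Or.inr ⟨b, t, by simp⟩

theorem rk17_pre {w u : List Bool} {b : Bool} (h : w ++ [b] <+: u) : w <+: u :=
  (List.prefix_append w [b]).trans h

open Classical in
theorem rk17_split (Q : List Bool → Prop) (w : List Bool) (n : ℕ) :
    (rk17_S Q w n).ncard = (if w.length = n ∧ Q w then 1 else 0) +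
      (rk17_S Q (w ++ [false]) n).ncard + (rk17_S Q (w ++ [true]) n).ncard := by
  have hd : Disjoint (rk17_S Q (w ++ [false]) n) (rk17_S Q (w ++ [true]) n) := by
    rw [Set.disjoint_left]
    rintro u ⟨h1, -⟩ ⟨h2, -⟩
    exact LexLT.irrefl u ⟨w, h1, h2⟩
  have hsub : ∀ b, rk17_S Q (w ++ [b]) n ⊆ rk17_S Q w n :=
    fun b u hu => ⟨rk17_pre hu.1, hu.2⟩
  have hw : ∀ b, w ∉ rk17_S Q (w ++ [b]) n := by
    intro b hb
    have := hb.1.length_le
    rw [List.length_append] at this
    simp at this
  by_cases h : w.length = n ∧ Q w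
  · have e : rk17_S Q w n =
        insert w (rk17_S Q (w ++ [false]) n ∪ rk17_S Q (w ++ [true]) n) := by
      ext u
      constructor
      · rintro ⟨h1, h2⟩
        rcases rk17_cases h1 with rfl | ⟨b, hb⟩
        · exact Or.inl rfl
        · cases b
          · exact Or.inr (Or.inl ⟨hb, h2⟩)
          · exact Or.inr (Or.inr ⟨hb, h2⟩)
      · rintro (rfl | h1 | h1)
        · exact ⟨List.prefix_refl _, h.2, h.1⟩
        · exact hsub _ h1
        · exact hsub _ h1
    rw [e, Set.ncard_insert_of_notMem (fun h' => h'.elim (hw false) (hw true))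
      ((rk17_fin _ _ _).union (rk17_fin _ _ _)),
      Set.ncard_union_eq hd (rk17_fin _ _ _) (rk17_fin _ _ _), if_pos h]
    omega
  · have e : rk17_S Q w n = rk17_S Q (w ++ [false]) n ∪ rk17_S Q (w ++ [true]) n := by
      ext u
      constructor
      · rintro ⟨h1, h2, h3⟩
        rcases rk17_cases h1 with rfl | ⟨b, hb⟩
        · exact absurd ⟨h3, h2⟩ h
        · cases b
          · exact Or.inl ⟨hb, h2, h3⟩
          · exact Or.inr ⟨hb, h2, h3⟩
      · rintro (h1 | h1)
        · exact hsub _ h1
        · exact hsub _ h1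
    rw [e, Set.ncard_union_eq hd (rk17_fin _ _ _) (rk17_fin _ _ _), if_neg h]
    omega

section
variable {T : Set (List Bool)}

theorem rk17_oc (w : List Bool) : (Below T w).OrdConnected :=
  ⟨fun _ ha _ hb _ hy => ru5_between' hy.1 hy.2 ha hb⟩

theorem rk17_lt {w : List Bool} : ∀ a ∈ Below T (w ++ [false]), ∀ b ∈ Below T (w ++ [true]),
    a < b :=
  fun a ha b hb => (lf_lt_iff a b).2 ⟨w, ha, hb⟩

theorem rk17_below_leaf {w : List Bool} (hw : IsLeaf T w) :
    Below T w = ({⟨w, hw⟩} : Set (Lf T)) := by
  ext x
  constructor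
  · intro hx
    exact Subtype.ext (hw.eq_of_prefix x.2.1 hx).symm
  · intro hx
    have e : x = ⟨w, hw⟩ := hx
    rw [e]
    exact List.prefix_refl _

theorem rk17_below_split {w : List Bool} (hw : ¬ IsLeaf T w) :
    Below T w = Below T (w ++ [false]) ∪ Below T (w ++ [true]) := by
  ext x
  constructor
  · intro hx
    rcases rk17_cases (show w <+: x.1 from hx) with h | ⟨b, hb⟩
    · exact absurd (h ▸ x.2) hw
    · cases b
      · exact Or.inl hb
      · exact Or.inr hb
  · rintro (hx | hx)
    · exact rk17_pre (show w ++ [false] <+: x.1 from hx)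
    · exact rk17_pre (show w ++ [true] <+: x.1 from hx)

theorem rk17_below_disj (w : List Bool) :
    Disjoint (Below T (w ++ [false])) (Below T (w ++ [true])) := by
  rw [Set.disjoint_left]
  intro x h1 h2
  exact LexLT.irrefl x.1 ⟨w, h1, h2⟩

theorem rk17_below_ne (hT : StronglyComplete T) {w : List Bool} (hw : w ∈ T) :
    (Below T w).Nonempty := by
  obtain ⟨v, hv⟩ := hT.2.2 w hw
  exact ⟨⟨w ++ v, hv⟩, List.prefix_append w v⟩

theorem rk17_child (hT : StronglyComplete T) {w : List Bool} (hw : w ∈ T)
    (hl : ¬ IsLeaf T w) (b : Bool) : w ++ [b] ∈ T := by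
  have := hT.2.1 w hw hl
  cases b
  · exact this.1
  · exact this.2

/-- the finite tree below a node with finitely many leaves -/
theorem rk17_finite (hT : StronglyComplete T) (k : ℕ) : ∀ w ∈ T, (Below T w).Finite →
    (Below T w).ncard ≤ k →
    ∃ σ : FT (Lf T), Ord σ ∧ σ.car = Below T w ∧ σ.opens = [] ∧
      (∀ d, σ.cnt w.length d = (rk17_S (IsLeaf T) w d).ncard) ∧
      ∀ n, nn σ w.length n ≤ (rk17_S (fun u => u ∈ T ∧ ¬ IsLeaf T u) w n).ncard := by
  classical
  induction k with
  | zero =>
    intro w hw hf h0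
    have h1 := (Set.ncard_pos hf).2 (rk17_below_ne hT hw)
    omega
  | succ k ih =>
    intro w hw hf hk
    by_cases hl : IsLeaf T w
    · refine ⟨FT.leaf ⟨w, hl⟩, trivial, (rk17_below_leaf hl).symm, rfl, ?_, ?_⟩
      · intro d
        rw [rk17_split]
        have hz : ∀ b, (rk17_S (IsLeaf T) (w ++ [b]) d).ncard = 0 := by
          intro b
          have : rk17_S (IsLeaf T) (w ++ [b]) d = ∅ := by
            ext u
            simp only [Set.mem_empty_iff_false, iff_false]
            rintro ⟨h1, h2, -⟩
            have h3 := hl.eq_of_prefix h2.1 (rk17_pre h1)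
            have h4 := h1.length_le
            rw [h3, List.length_append] at h4
            simp at h4
          rw [this, Set.ncard_empty]
        rw [hz, hz]
        by_cases hd : w.length = d
        · simp [FT.cnt, hd, hl]
        · simp [FT.cnt, hd]
      · intro n
        simp [nn]
    · have hm : ∀ b, w ++ [b] ∈ T := rk17_child hT hw hl
      have hs := rk17_below_split hl
      have hfin : ∀ b, (Below T (w ++ [b])).Finite :=
        fun b => hf.subset fun x hx => rk17_pre (show w ++ [b] <+: x.1 from hx)
      have hcard := Set.ncard_union_eq (rk17_below_disj (T := T) w) (hfin false) (hfin true)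
      rw [← hs] at hcard
      have hpos : ∀ b, 0 < (Below T (w ++ [b])).ncard :=
        fun b => (Set.ncard_pos (hfin b)).2 (rk17_below_ne hT (hm b))
      have hp0 := hpos false
      have hp1 := hpos true
      obtain ⟨σ0, a0, b0, c0, d0, e0⟩ := ih _ (hm false) (hfin false) (by omega)
      obtain ⟨σ1, a1, b1, c1, d1, e1⟩ := ih _ (hm true) (hfin true) (by omega)
      have hlen : ∀ b : Bool, (w ++ [b]).length = w.length + 1 := by
        intro b
        simp
      rw [hlen] at d0 e0 d1 e1
      refine ⟨FT.node σ0 σ1, ⟨a0, a1, ?_⟩, ?_, ?_, ?_, ?_⟩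
      · rw [b0, b1]
        exact rk17_lt
      · show σ0.car ∪ σ1.car = _
        rw [b0, b1, hs]
      · show σ0.opens ++ σ1.opens = []
        rw [c0, c1]
        rfl
      · intro d
        show σ0.cnt (w.length + 1) d + σ1.cnt (w.length + 1) d = _
        rw [d0, d1, rk17_split (IsLeaf T) w d, if_neg (fun h => hl h.2)]
        omega
      · intro n
        show (if w.length = n then 1 else 0) + nn σ0 (w.length + 1) n +
          nn σ1 (w.length + 1) n ≤ _
        rw [rk17_split (fun u => u ∈ T ∧ ¬ IsLeaf T u) w n]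
        have h0 := e0 n
        have h1 := e1 n
        by_cases hn : w.length = n
        · rw [if_pos hn, if_pos ⟨hn, hw, hl⟩]
          omega
        · rw [if_neg hn, if_neg (fun h => hn h.1)]
          omega

theorem rk17_opAt {L : Type} {t : FT L} (h : t.opens = []) (b n : ℕ) : t.OpAt b n := by
  induction t generalizing b with
  | leaf x => exact trivial
  | opn X => exact absurd h (by simp [FT.opens])
  | node l r hl hr =>
    have h' : l.opens ++ r.opens = [] := h
    rw [List.append_eq_nil_iff] at h'
    exact ⟨hl h'.1 _, hr h'.2 _⟩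

/-- the truncated tree below a node of depth at most `j` -/
theorem rk17_main (hT : StronglyComplete T) (j : ℕ) (k : ℕ) : ∀ w ∈ T, w.length + k = j →
    ∃ σ : FT (Lf T), Ord σ ∧ σ.car = Below T w ∧ σ.OpAt w.length j ∧
      (∀ d, σ.cnt w.length d =
        (rk17_S (fun u => IsLeaf T u ∧ (Below T (u.take j)).Finite) w d).ncard) ∧
      (∃ ws : List (List Bool), ws.Nodup ∧
        (∀ v, v ∈ ws ↔ w <+: v ∧ (v ∈ T ∧ (Below T v).Infinite) ∧ v.length = j) ∧
        σ.opens = ws.map (Below T)) ∧
      ∀ n, nn σ w.length n ≤ (rk17_S (fun u => u ∈ T ∧ ¬ IsLeaf T u) w n).ncard := by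
  classical
  induction k with
  | zero =>
    intro w hw hk
    have hk : w.length = j := by omega
    have htake : ∀ u, w <+: u → u.take j = w := by
      rintro _ ⟨r, rfl⟩
      rw [← hk, List.take_left]
    by_cases hf : (Below T w).Finite
    · obtain ⟨σ, h1, h2, h3, h4, h5⟩ := rk17_finite hT _ w hw hf le_rfl
      refine ⟨σ, h1, h2, rk17_opAt h3 _ _, ?_, ⟨[], List.nodup_nil, ?_, ?_⟩, h5⟩
      · intro d
        rw [h4]
        congr 1
        ext u
        constructor
        · rintro ⟨g1, g2, g3⟩
          refine ⟨g1, ⟨g2, ?_⟩, g3⟩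
          rw [htake u g1]
          exact hf
        · rintro ⟨g1, g2, g3⟩
          exact ⟨g1, g2.1, g3⟩
      · intro v
        constructor
        · intro hv
          exact absurd hv (by simp)
        · rintro ⟨g1, ⟨-, g2⟩, g3⟩
          have e : w = v := g1.eq_of_length (by omega)
          rw [← e] at g2
          exact absurd hf g2
      · rw [h3]
        rfl
    · refine ⟨FT.opn (Below T w), ⟨hf, rk17_oc w⟩, rfl, hk, ?_, ⟨[w], List.nodup_singleton w,
        ?_, rfl⟩, ?_⟩
      · intro d
        have : rk17_S (fun u => IsLeaf T u ∧ (Below T (u.take j)).Finite) w d = ∅ := by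
          ext u
          simp only [Set.mem_empty_iff_false, iff_false]
          rintro ⟨g1, ⟨-, g2⟩, -⟩
          rw [htake u g1] at g2
          exact hf g2
        rw [this, Set.ncard_empty]
        rfl
      · intro v
        rw [List.mem_singleton]
        constructor
        · rintro rfl
          exact ⟨List.prefix_refl _, ⟨hw, hf⟩, hk⟩
        · rintro ⟨g1, -, g3⟩
          exact (g1.eq_of_length (by omega)).symm
      · intro n
        simp [nn]
  | succ k ih =>
    intro w hw hk
    by_cases hl : IsLeaf T w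
    · have hfin : (Below T w).Finite := by
        rw [rk17_below_leaf hl]
        exact Set.finite_singleton _
      have htake : w.take j = w := List.take_of_length_le (by omega)
      refine ⟨FT.leaf ⟨w, hl⟩, trivial, (rk17_below_leaf hl).symm, trivial, ?_,
        ⟨[], List.nodup_nil, ?_, rfl⟩, ?_⟩
      · intro d
        rw [rk17_split]
        have hz : ∀ b, (rk17_S (fun u => IsLeaf T u ∧ (Below T (u.take j)).Finite)
            (w ++ [b]) d).ncard = 0 := by
          intro b
          have : rk17_S (fun u => IsLeaf T u ∧ (Below T (u.take j)).Finite)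
              (w ++ [b]) d = ∅ := by
            ext u
            simp only [Set.mem_empty_iff_false, iff_false]
            rintro ⟨h1, h2, -⟩
            have h3 := hl.eq_of_prefix h2.1.1 (rk17_pre h1)
            have h4 := h1.length_le
            rw [h3, List.length_append] at h4
            simp at h4
          rw [this, Set.ncard_empty]
        rw [hz, hz]
        by_cases hd : w.length = d
        · rw [if_pos ⟨hd, hl, by rw [htake]; exact hfin⟩]
          simp [FT.cnt, hd]
        · rw [if_neg (fun h => hd h.1)]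
          simp [FT.cnt, hd]
      · intro v
        constructor
        · intro hv
          exact absurd hv (by simp)
        · rintro ⟨g1, ⟨g2, -⟩, g3⟩
          have e := hl.eq_of_prefix g2 g1
          rw [← e] at g3
          omega
      · intro n
        simp [nn]
    · have hm : ∀ b, w ++ [b] ∈ T := rk17_child hT hw hl
      have hlen : ∀ b : Bool, (w ++ [b]).length = w.length + 1 := by
        intro b
        simp
      obtain ⟨σ0, a0, b0, c0, d0, ⟨ws0, f0, g0, h0⟩, e0⟩ := ih _ (hm false) (by rw [hlen]; omega)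
      obtain ⟨σ1, a1, b1, c1, d1, ⟨ws1, f1, g1, h1⟩, e1⟩ := ih _ (hm true) (by rw [hlen]; omega)
      rw [hlen] at c0 c1 d0 e0 d1 e1
      refine ⟨FT.node σ0 σ1, ⟨a0, a1, ?_⟩, ?_, ⟨c0, c1⟩, ?_, ⟨ws0 ++ ws1, ?_, ?_, ?_⟩, ?_⟩
      · rw [b0, b1]
        exact rk17_lt
      · show σ0.car ∪ σ1.car = _
        rw [b0, b1, rk17_below_split hl]
      · intro d
        show σ0.cnt (w.length + 1) d + σ1.cnt (w.length + 1) d = _
        rw [d0, d1, rk17_split _ w d, if_neg (fun h => hl h.2.1)]
        omega
      · rw [List.nodup_append]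
        refine ⟨f0, f1, ?_⟩
        intro u hu v hv huv
        rw [← huv] at hv
        exact LexLT.irrefl u ⟨w, ((g0 u).1 hu).1, ((g1 u).1 hv).1⟩
      · intro v
        rw [List.mem_append, g0, g1]
        constructor
        · rintro (h | h)
          · exact ⟨rk17_pre h.1, h.2⟩
          · exact ⟨rk17_pre h.1, h.2⟩
        · rintro ⟨h2, h3⟩
          rcases rk17_cases h2 with rfl | ⟨b, hb⟩
          · have := h3.2
            omega
          · cases b
            · exact Or.inl ⟨hb, h3⟩
            · exact Or.inr ⟨hb, h3⟩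
      · show σ0.opens ++ σ1.opens = _
        rw [h0, h1, List.map_append]
      · intro n
        show (if w.length = n then 1 else 0) + nn σ0 (w.length + 1) n +
          nn σ1 (w.length + 1) n ≤ _
        rw [rk17_split (fun u => u ∈ T ∧ ¬ IsLeaf T u) w n]
        have h2 := e0 n
        have h3 := e1 n
        by_cases hn : w.length = n
        · rw [if_pos hn, if_pos ⟨hn, hw, hl⟩]
          omega
        · rw [if_neg hn, if_neg (fun h => hn h.1)]
          omega

end

theorem trunc {T : Set (List Bool)} (hT : StronglyComplete T) (j : ℕ) :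
    ∃ σ : FT (Lf T), Ord σ ∧ σ.car = Set.univ ∧ σ.OpAt 0 j ∧
      (∀ d, σ.cnt 0 d = baseN T j d) ∧
      (∃ ws : List (List Bool), ws.Nodup ∧
        (∀ w, w ∈ ws ↔ (w ∈ T ∧ (Below T w).Infinite) ∧ w.length = j) ∧
        σ.opens = ws.map (Below T)) ∧
      ∀ n < j, nn σ 0 n ≤ nodeCount T n := by
  obtain ⟨σ, h1, h2, h3, h4, ⟨ws, h5, h6, h7⟩, h8⟩ := rk17_main hT j j [] hT.1.1 (by simp)
  refine ⟨σ, h1, ?_, h3, ?_, ⟨ws, h5, ?_, h7⟩, ?_⟩
  · rw [h2]
    ext x
    exact ⟨fun _ => trivial, fun _ => List.nil_prefix⟩
  · intro d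
    have := h4 d
    rw [List.length_nil] at this
    rw [this, baseN]
    congr 1
    ext u
    exact ⟨fun h => ⟨h.2.1.1, h.2.2, h.2.1.2⟩,
      fun h => ⟨List.nil_prefix, ⟨h.1, h.2.2⟩, h.2.1⟩⟩
  · intro w
    rw [h6]
    exact ⟨fun h => h.2, fun h => ⟨List.nil_prefix, h⟩⟩
  · intro n _
    have := h8 n
    rw [List.length_nil] at this
    refine this.trans (le_of_eq ?_)
    rw [nodeCount]
    congr 1
    ext u
    exact ⟨fun h => h.2, fun h => ⟨List.nil_prefix, h⟩⟩

end Pool.Agent.RK
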