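import Pool.Agent.RK.TreeMass
import Pool.Agent.RK.Trunc

/-!
Project RK (MP_d404c6_co), row RK-18b: the leaves below nodes with infinitely many leaves.
-/

set_option autoImplicit false

open Filter

namespace Pool.Agent.RK

open Pool.Agent.RU

theorem slotN_add (T : Set (List Bool)) (j d : ℕ) :
    baseN T j d + slotN T j d = leafCount T d := by
  have hd : Disjoint {u | IsLeaf T u ∧ u.length = d ∧ (Below T (u.take j)).Finite}
      {u | IsLeaf T u ∧ u.length = d ∧ (Below T (u.take j)).Infinite} := by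
    rw [Set.disjoint_left]
    rintro u ⟨-, -, h1⟩ ⟨-, -, h2⟩
    exact h2 h1
  have hf : ∀ P : List Bool → Prop, {u | IsLeaf T u ∧ u.length = d ∧ P u}.Finite :=
    fun P => (List.finite_length_eq Bool d).subset fun _ h => h.2.1
  rw [baseN, slotN, leafCount, ← Set.ncard_union_eq hd (hf _) (hf _)]
  congr 1
  ext u
  constructor
  · rintro (h | h)
    · exact ⟨h.1, h.2.1⟩
    · exact ⟨h.1, h.2.1⟩
  · rintro ⟨h1, h2⟩
    by_cases h : (Below T (u.take j)).Finite
    · exact Or.inl ⟨h1, h2, h⟩
    · exact Or.inr ⟨h1, h2, h⟩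

theorem slotN_zero (T : Set (List Bool)) {j d : ℕ} (h : d ≤ j) : slotN T j d = 0 := by
  have e : {u | IsLeaf T u ∧ u.length = d ∧ (Below T (u.take j)).Infinite} = ∅ := by
    ext u
    simp only [Set.mem_empty_iff_false, iff_false]
    rintro ⟨h1, h2, h3⟩
    rw [List.take_of_length_le (by omega), rk17_below_leaf h1] at h3
    exact h3 (Set.finite_singleton _)
  rw [slotN, e, Set.ncard_empty]

theorem slotN_anti (T : Set (List Bool)) {j j' : ℕ} (h : j ≤ j') (d : ℕ) :
    slotN T j' d ≤ slotN T j d := by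
  refine Set.ncard_le_ncard ?_ ((List.finite_length_eq Bool d).subset fun _ h => h.2.1)
  rintro u ⟨h1, h2, h3⟩
  refine ⟨h1, h2, h3.mono ?_⟩
  intro x hx
  have h4 : u.take j <+: u.take j' := List.take_prefix_take_left h
  exact h4.trans hx

theorem slotN_inf {T : Set (List Bool)} (hT : StronglyComplete T)
    (hinf : (Set.univ : Set (Lf T)).Infinite) (j n : ℕ) : ∃ d, n < d ∧ 0 < slotN T j d := by
  have hlow : {x : Lf T | x.1.length ≤ n}.Finite := by
    have : (Subtype.val ⁻¹' {u : List Bool | u.length ≤ n} : Set (Lf T)).Finite :=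
      (List.finite_length_le Bool n).preimage Subtype.val_injective.injOn
    exact this
  by_contra hc
  push Not at hc
  have hfin : ∀ x : Lf T, n < x.1.length → (Below T (x.1.take j)).Finite := by
    intro x hx
    by_contra hb
    have h0 := hc x.1.length hx
    have h1 : 0 < slotN T j x.1.length := by
      rw [slotN, Set.ncard_pos ((List.finite_length_eq Bool _).subset fun _ h => h.2.1)]
      exact ⟨x.1, x.2, rfl, hb⟩
    omega
  apply hinf
  have hW : {w : List Bool | w.length ≤ j ∧ (Below T w).Finite}.Finite :=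
    (List.finite_length_le Bool j).subset fun _ h => h.1
  refine (hlow.union (hW.biUnion fun w hw => hw.2)).subset ?_
  intro x _
  by_cases hx : x.1.length ≤ n
  · exact Or.inl hx
  · right
    have hx' : n < x.1.length := by omega
    rw [Set.mem_iUnion₂]
    refine ⟨x.1.take j, ⟨?_, hfin x hx'⟩, List.take_prefix _ _⟩
    rw [List.length_take]
    exact min_le_left _ _

section
variable {T : Set (List Bool)} {μ : ℝ}

theorem rk18_infN {j : ℕ} {ws : List (List Bool)} (hn : ws.Nodup)
    (hw : ∀ w, w ∈ ws ↔ (w ∈ T ∧ (Below T w).Infinite) ∧ w.length = j) :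
    InfN T j = ws.length := by
  classical
  have e : {w | (w ∈ T ∧ (Below T w).Infinite) ∧ w.length = j} =
      (ws.toFinset : Set (List Bool)) := by
    ext w
    rw [List.coe_toFinset]
    exact (hw w).symm
  rw [InfN, e, Set.ncard_coe_finset, List.toFinset_card_of_nodup hn]

theorem slot_sum (hT : StronglyComplete T)
    (hμ : HasSum (fun d => (leafCount T d : ℝ) / 2 ^ d) (1 - μ)) (j : ℕ) :
    HasSum (fun d => (slotN T j d : ℝ) / 2 ^ d) ((InfN T j : ℝ) / 2 ^ j - μ) := by
  obtain ⟨σ, -, -, h3, h4, ⟨ws, h5, h6, h7⟩, -⟩ := trunc hT j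
  have h8 := ft_kraft σ 0 j h3
  rw [h7, List.length_map, ← rk18_infN h5 h6] at h8
  have h9 := hμ.sub h8
  have e1 : (fun d => (leafCount T d : ℝ) / 2 ^ d - (σ.cnt 0 d : ℝ) / 2 ^ d) =
      fun d => (slotN T j d : ℝ) / 2 ^ d := by
    funext d
    rw [h4, ← slotN_add T j d]
    push_cast
    ring
  have e2 : (1 - μ) - ((1 / 2 : ℝ) ^ 0 - (InfN T j : ℝ) * (1 / 2) ^ j) =
      (InfN T j : ℝ) / 2 ^ j - μ := by
    rw [one_div_pow, one_div_pow]
    ring
  rw [e1, e2] at h9
  exact h9

end

end Pool.Agent.RK
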