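import Pool.Agent.RK.Num
import Pool.Agent.RU.Slots

/-!
Project RK, row RK-20: the list of slots of a profile and its tail masses (helper75 for helper59).
-/

set_option autoImplicit false

open Filter

namespace Pool.Agent.RK

open Pool.Agent.RU

theorem rk20_segment {δ : ℕ → ℕ} (hm : Monotone δ) (hf : ∀ n, {i | δ i ≤ n}.Finite)
    (i n : ℕ) : i < Qn δ n ↔ δ i ≤ n := by
  obtain ⟨q, hq⟩ := ru10_segment (hf n) (fun a b hab hb => (hm hab).trans hb)
  have h1 : {i | δ i ≤ n} = (Finset.range q : Set ℕ) := by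
    ext a
    rw [← hq a]
    simp
  have h2 : Qn δ n = q := by
    unfold Qn
    rw [h1, Set.ncard_coe_finset, Finset.card_range]
  rw [h2, hq i]
  rfl

theorem rk20_pm_Qn {s : ℕ → ℕ} {δ : ℕ → ℕ} (hm : Monotone δ)
    (hc : ∀ d, {i | δ i = d}.ncard = s d) (hf : ∀ n, {i | δ i ≤ n}.Finite) (n : ℕ) :
    Pm δ (Qn δ n) = ∑ d ∈ Finset.range (n + 1), (s d : ℝ) / 2 ^ d := by
  unfold Pm
  rw [← Finset.sum_fiberwise_of_maps_to (s := Finset.range (Qn δ n))
    (t := Finset.range (n + 1)) (g := δ)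
    (fun i hi => by
      rw [Finset.mem_range] at hi ⊢
      have := (rk20_segment hm hf i n).1 hi
      omega)]
  refine Finset.sum_congr rfl fun d hd => ?_
  rw [Finset.mem_range] at hd
  have h1 : ((Finset.range (Qn δ n)).filter (fun i => δ i = d)).card = s d := by
    rw [← hc d, ← Set.ncard_coe_finset]
    congr 1
    ext i
    simp only [Finset.coe_filter, Finset.mem_range, Set.mem_setOf_eq]
    constructor
    · exact fun h => h.2
    · intro h
      exact ⟨(rk20_segment hm hf i n).2 (by omega), h⟩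
  have h2 : ∀ i ∈ (Finset.range (Qn δ n)).filter (fun i => δ i = d),
      (1 / 2 : ℝ) ^ δ i = (1 / 2 : ℝ) ^ d := by
    intro i hi
    rw [Finset.mem_filter] at hi
    rw [hi.2]
  rw [Finset.sum_congr rfl h2, Finset.sum_const, h1, nsmul_eq_mul, one_div, inv_pow,
    div_eq_mul_inv]

theorem slots2 (s : ℕ → ℕ) (hinf : ∀ n, ∃ d, n < d ∧ 0 < s d) (τ : ℝ)
    (hs : HasSum (fun d => (s d : ℝ) / 2 ^ d) τ) :
    ∃ δ : ℕ → ℕ, Monotone δ ∧ (∀ d, {i | δ i = d}.ncard = s d) ∧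
      (∀ n, {i | δ i ≤ n}.Finite) ∧ Tendsto (Pm δ) atTop (nhds τ) := by
  obtain ⟨δ, hm, hδ⟩ := ru9_delta s hinf
  have hc : ∀ d, {i | δ i = d}.ncard = s d := fun d => (hδ d).2
  have hf : ∀ n, {i | δ i ≤ n}.Finite := by
    intro n
    have h1 : {i | δ i ≤ n} = ⋃ d ∈ Finset.range (n + 1), {i | δ i = d} := by
      ext i
      simp only [Set.mem_setOf_eq, Set.mem_iUnion, Finset.mem_range, exists_prop,
        exists_eq_right']
      omega
    rw [h1]
    exact Set.Finite.biUnion (Finset.finite_toSet _) fun d _ => (hδ d).1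
  refine ⟨δ, hm, hc, hf, ?_⟩
  have hpos : ∀ d, 0 ≤ (s d : ℝ) / 2 ^ d := fun d => by positivity
  have hup : ∀ p, Pm δ p ≤ τ := by
    intro p
    have h1 : p < Qn δ (δ p) := (rk20_segment hm hf p (δ p)).2 le_rfl
    have h2 : Pm δ p ≤ Pm δ (Qn δ (δ p)) := (ru10_pm_strict δ).monotone h1.le
    refine h2.trans ?_
    rw [rk20_pm_Qn hm hc hf]
    exact sum_le_hasSum _ (fun d _ => hpos d) hs
  rw [tendsto_order]
  constructor
  · intro a ha
    have h1 := (tendsto_order.1 hs.tendsto_sum_nat).1 a ha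
    obtain ⟨N, hN1, hN2⟩ := (h1.and (eventually_ge_atTop 1)).exists
    obtain ⟨n, rfl⟩ : ∃ n, N = n + 1 := ⟨N - 1, by omega⟩
    filter_upwards [eventually_ge_atTop (Qn δ n)] with p hp
    rw [← rk20_pm_Qn hm hc hf] at hN1
    exact hN1.trans_le ((ru10_pm_strict δ).monotone hp)
  · intro a ha
    exact Eventually.of_forall fun p => (hup p).trans_lt ha

theorem ee_ge (s s' : ℕ → ℕ) (τ τ' : ℝ) (hs : HasSum (fun d => (s d : ℝ) / 2 ^ d) τ)
    (hs' : HasSum (fun d => (s' d : ℝ) / 2 ^ d) τ') (j : ℕ) (h0 : ∀ d, d ≤ j → s' d = 0)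
    (hle : ∀ d, s' d ≤ s d) {δ : ℕ → ℕ} (hm : Monotone δ)
    (hc : ∀ d, {i | δ i = d}.ncard = s d) (hf : ∀ n, {i | δ i ≤ n}.Finite) :
    τ' * 2 ^ j ≤ ee δ τ j := by
  unfold ee
  refine mul_le_mul_of_nonneg_right ?_ (by positivity)
  rw [rk20_pm_Qn hm hc hf]
  have h1 := hs.sub hs'
  have h2 : ∑ d ∈ Finset.range (j + 1), ((s d : ℝ) / 2 ^ d - (s' d : ℝ) / 2 ^ d) ≤ τ - τ' := by
    refine sum_le_hasSum _ (fun d _ => ?_) h1
    rw [← sub_div]
    have h3 : (s' d : ℝ) ≤ (s d : ℝ) := by exact_mod_cast hle d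
    exact div_nonneg (by linarith) (by positivity)
  have h4 : ∑ d ∈ Finset.range (j + 1), ((s d : ℝ) / 2 ^ d - (s' d : ℝ) / 2 ^ d) =
      ∑ d ∈ Finset.range (j + 1), (s d : ℝ) / 2 ^ d := by
    refine Finset.sum_congr rfl fun d hd => ?_
    rw [Finset.mem_range] at hd
    rw [h0 d (by omega)]
    simp
  rw [h4] at h2
  linarith

end Pool.Agent.RK
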