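import Pool.Agent.RK.AsmA
import Pool.Agent.RK.AsmB
import Pool.Agent.RK.Fillb
import Pool.Agent.RK.Rich
import Pool.Agent.RK.LeftEnd
import Pool.Agent.RK.Core

/-!
Project RK (MP_d404c6_co), row RK-16b: the starting state (helper6).
-/

set_option autoImplicit false

open Filter

namespace Pool.Agent.RK

open Pool.Agent.RU

section
variable {L : Type}

theorem rk16b_no_append (a b : List (FT L)) : no (a ++ b) = no a + no b := by
  simp [no]

theorem rk16b_no_cons (g : FT L) (b : List (FT L)) : no (g :: b) = g.opens.length + no b := by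
  simp [no]

theorem rk16b_no_eq (b : List (FT L)) : (b.flatMap FT.opens).length = no b := by
  simp [no, List.length_flatMap]

theorem rk16b_nn_zero (n : ℕ) : ∀ (a : List (FT L)) (d : List ℕ) (b : List (FT L)) (e : List ℕ),
    d.length = a.length → sc (a ++ b) (d ++ e) n = sc a d n + sc b e n := by
  intro a d b e h
  unfold sc
  rw [List.zipWith_append h.symm, List.sum_append]

end

section
variable {L : Type} [LinearOrder L] {δ pt : ℕ → ℕ} {n0 W : ℕ}

theorem rk16b_zc_append (a b : List (Set L)) : zc (a ++ b) = zc a + zc b := by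
  simp [zc]

theorem rk16b_zc_poor (a : List (Set L)) (h : ∀ X ∈ a, ¬ Rich X) : zc a = a.length := by
  induction a with
  | nil => simp [zc]
  | cons X a ih =>
    have h1 : zc (X :: a) = zi X + zc a := by simp [zc]
    rw [h1, zi_poor (h X List.mem_cons_self), ih fun Y hY => h Y (List.mem_cons_of_mem _ hY),
      List.length_cons, Nat.add_comm]

/-- the first rich position -/
theorem rk16b_first : ∀ l : List (FT L), (∃ X, FT.opn X ∈ l ∧ Rich X) →
    ∃ (b : List (FT L)) (P : Set L) (its : List (FT L)), l = b ++ FT.opn P :: its ∧ Rich P ∧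
      ∀ X, FT.opn X ∈ b → ¬ Rich X := by
  intro l
  induction l with
  | nil =>
    rintro ⟨X, hX, -⟩
    simp at hX
  | cons g l ih =>
    rintro ⟨X, hX, hR⟩
    by_cases hg : ∃ P, g = FT.opn P ∧ Rich P
    · obtain ⟨P, rfl, hP⟩ := hg
      exact ⟨[], P, l, rfl, hP, fun X hX => by simp at hX⟩
    · have hX' : FT.opn X ∈ l := by
        rcases List.mem_cons.1 hX with h | h
        · exact absurd ⟨X, h.symm, hR⟩ hg
        · exact h
      obtain ⟨b, P, its, rfl, hP, hb⟩ := ih ⟨X, hX', hR⟩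
      refine ⟨g :: b, P, its, rfl, hP, ?_⟩
      intro Y hY hRY
      rcases List.mem_cons.1 hY with h | h
      · exact hg ⟨Y, h.symm, hRY⟩
      · exact hb Y h hRY

/-- positions with their open sets -/
theorem rk16b_pos_opens {b : List (FT L)} {ds : List ℕ} (hlen : ds.length = b.length)
    (hb : ∀ q ∈ b.zip ds, IsPos n0 q.1 q.2) {X : Set L} (hX : X ∈ b.flatMap FT.opens) :
    FT.opn X ∈ b := by
  rw [List.mem_flatMap] at hX
  obtain ⟨g, hg, hX⟩ := hX
  obtain ⟨i, hi, rfl⟩ := List.getElem_of_mem hg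
  have hq : (b[i], ds[i]'(hlen ▸ hi)) ∈ b.zip ds := by
    rw [List.mem_iff_getElem]
    exact ⟨i, by simpa [hlen] using hi, by simp⟩
  rcases hb _ hq with ⟨x, hx⟩ | ⟨⟨Y, hY⟩, -⟩
  · simp only at hx
    rw [hx] at hX
    simp [FT.opens] at hX
  · simp only at hY
    rw [hY] at hX
    have hXY : X = Y := by simpa [FT.opens] using hX
    rw [hXY, ← hY]
    exact hg

theorem rk16b_swap {P P' : Set L} {its gs : List (FT L)} {ds : List ℕ} {i i' : ℕ}
    (h : Rp n0 δ pt (FT.opn P' :: its) gs ds i i') : Rp n0 δ pt (FT.opn P :: its) gs ds i i' := by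
  refine ⟨by simpa using h.len, h.wf, h.opat, h.chain, ?_, ?_, h.le, h.nz⟩
  · intro d
    rw [h.cnt d]
    congr 1
    cases ds with
    | nil => simp [sc]
    | cons e ds => simp [sc, FT.cnt]
  · have := h.num
    simpa [no, FT.opens] using this

theorem rk16b_pt (hpt : ∀ i < W, pt i < pt (i + 1) ∧
    Pm δ (pt (i + 1)) = Pm δ (pt i) + (1 / 2) ^ n0) :
    ∀ {j i : ℕ}, i ≤ j → j ≤ W → pt i ≤ pt j := by
  intro j
  induction j with
  | zero =>
    intro i hi _
    rw [Nat.le_zero.1 hi]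
  | succ j ih =>
    intro i hi hj
    rcases Nat.lt_or_ge i (j + 1) with h | h
    · exact (ih (Nat.lt_succ_iff.1 h) (by omega)).trans (hpt j (by omega)).1.le
    · rw [le_antisymm hi h]

theorem rk16b_pm (h0 : pt 0 = 0) (hpt : ∀ i < W, pt i < pt (i + 1) ∧
    Pm δ (pt (i + 1)) = Pm δ (pt i) + (1 / 2) ^ n0) :
    ∀ j ≤ W, Pm δ (pt j) = (j : ℝ) * (1 / 2) ^ n0 := by
  intro j
  induction j with
  | zero =>
    intro _
    rw [h0]
    simp [Pm]
  | succ j ih =>
    intro hj
    rw [(hpt j (by omega)).2, ih (by omega)]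
    push_cast
    ring

theorem start {σ : FT L} (hσ : Ord σ) (hcar : σ.car = Set.univ) (hO : σ.OpAt 0 n0)
    (hrich : ∃ X ∈ σ.opens, Rich X) (hm : Monotone δ) (hlow : ∀ i, n0 ≤ δ i) (q : ℕ)
    (hq : (zc σ.opens : ℝ) * (1 / 2) ^ n0 ≤ Pm δ q) :
    ∃ (t : FT L) (p : ℕ), t.WF ∧ t.car = Set.univ ∧ t.OpAt 0 n0 ∧
      (∀ d, t.cnt 0 d = σ.cnt 0 d + cD δ 0 p d) ∧
      Pm δ p + (t.opens.length : ℝ) * (1 / 2) ^ n0 = (σ.opens.length : ℝ) * (1 / 2) ^ n0 ∧
      zc t.opens ≤ 2 ∧ t.opens.length + zc σ.opens = zc t.opens + σ.opens.length ∧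
      ∀ n < n0, nn t 0 n = nn σ 0 n := by
  obtain ⟨pt, hpt0, hpt⟩ := pt_exists hm hlow (zc σ.opens) q hq
  have hpos := fr_isPos hO
  have hlen := dps_length σ 0
  have hop := fr_opens σ
  have hchain := ord_chain hσ
  have hinf := fun X hX => (ord_pos hσ X hX).1
  have hfcar := fr_car σ
  have hfirst : ∃ X, FT.opn X ∈ fr σ ∧ Rich X := by
    obtain ⟨X, hX, hR⟩ := hrich
    rw [hop] at hX
    exact ⟨X, rk16b_pos_opens hlen hpos hX, hR⟩
  obtain ⟨b, P, its, hfr, hP, hnr⟩ := rk16b_first _ hfirst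
  -- split the depths
  have hl1 : (dps σ 0).length = b.length + (its.length + 1) := by
    rw [hlen, hfr]; simp
  obtain ⟨db, e, dits, hds, hdb, hdits⟩ : ∃ (db : List ℕ) (e : ℕ) (dits : List ℕ),
      dps σ 0 = db ++ e :: dits ∧ db.length = b.length ∧ dits.length = its.length := by
    have h1 : ((dps σ 0).drop b.length).length = its.length + 1 := by
      rw [List.length_drop, hl1]; omega
    obtain ⟨e, dits, h2⟩ : ∃ e dits, (dps σ 0).drop b.length = e :: dits := by
      cases h : (dps σ 0).drop b.length with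
      | nil => rw [h] at h1; simp at h1
      | cons e d => exact ⟨e, d, rfl⟩
    refine ⟨(dps σ 0).take b.length, e, dits, ?_, ?_, ?_⟩
    · rw [← h2, List.take_append_drop]
    · rw [List.length_take, hl1]; omega
    · rw [h2] at h1
      simpa using h1
  have hzip : (fr σ).zip (dps σ 0) = b.zip db ++ (FT.opn P, e) :: its.zip dits := by
    rw [hfr, hds, List.zip_append hdb.symm]
    rfl
  have he : e = n0 := by
    have := hpos (FT.opn P, e) (by rw [hzip]; simp)
    rcases this with ⟨x, hx⟩ | ⟨-, h⟩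
    · simp at hx
    · exact h
  subst he
  rw [hzip] at hpos
  have hposb : ∀ q ∈ b.zip db, IsPos e q.1 q.2 := fun q hq => hpos q (by simp [hq])
  have hposi : ∀ q ∈ its.zip dits, IsPos e q.1 q.2 := fun q hq => hpos q (by simp [hq])
  rw [hfr, List.pairwise_append, List.pairwise_cons] at hchain
  obtain ⟨hcb, ⟨hcP, hci⟩, hcx⟩ := hchain
  have hbP : ∀ g ∈ b, ∀ a ∈ g.car, ∀ x ∈ P, a < x := fun g hg =>
    hcx g hg (FT.opn P) List.mem_cons_self
  have hbi : ∀ g ∈ b, ∀ g' ∈ its, ∀ a ∈ g.car, ∀ x ∈ g'.car, a < x := fun g hg g' hg' =>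
    hcx g hg g' (List.mem_cons_of_mem _ hg')
  have huniv : ∀ x : L, (∃ g ∈ b, x ∈ g.car) ∨ x ∈ P ∨ ∃ g ∈ its, x ∈ g.car := by
    intro x
    have hx : x ∈ σ.car := by rw [hcar]; exact Set.mem_univ x
    rw [hfcar, hfr] at hx
    obtain ⟨g, hg, hx⟩ := hx
    rw [List.mem_append, List.mem_cons] at hg
    rcases hg with hg | rfl | hg
    · exact Or.inl ⟨g, hg, hx⟩
    · exact Or.inr (Or.inl hx)
    · exact Or.inr (Or.inr ⟨g, hg, hx⟩)
  -- counts of the open sets
  have hzb : zc (b.flatMap FT.opens) = no b := by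
    rw [rk16b_zc_poor _ fun X hX => hnr X (rk16b_pos_opens hdb hposb hX), rk16b_no_eq]
  have hW : zc σ.opens = no b + zc (its.flatMap FT.opens) := by
    rw [hop, hfr, List.flatMap_append, rk16b_zc_append, hzb, List.flatMap_cons, rk16b_zc_append]
    have : zc (FT.opn P).opens = 0 := by
      simp [zc, FT.opens, zi_rich hP]
    rw [this, Nat.zero_add]
  -- the left end
  have hUb : {x | ∃ g ∈ b, x ∈ g.car}.OrdConnected := by
    refine ⟨?_⟩
    rintro x ⟨g, hg, hx⟩ y ⟨g', hg', hy⟩ z ⟨hz1, hz2⟩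
    rcases huniv z with h | h | ⟨g'', hg'', h⟩
    · exact h
    · exact absurd hz2 (not_le.2 (hbP g' hg' y hy z h))
    · exact absurd hz2 (not_le.2 (hbi g' hg' g'' hg'' y hy z h))
  obtain ⟨gsL, R, i1, hRp1, hno1, hpoor1, hU1, hlt1, hmax1⟩ := left_end hm hlow hpt b db hdb hposb
    (fun X hX => ⟨hnr X hX, hinf X (by rw [hfr]; simp [hX])⟩) hcb hUb 0 (by rw [hW]; omega)
  have hRb : ∀ x ∈ R, ∃ g ∈ b, x ∈ g.car := fun x hx => by
    have : x ∈ {x | ∃ g ∈ b, x ∈ g.car} := by rw [hU1]; exact Or.inr hx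
    exact this
  have hLb : ∀ g ∈ gsL, ∀ x ∈ g.car, ∃ g ∈ b, x ∈ g.car := fun g hg x hx => by
    have : x ∈ {x | ∃ g ∈ b, x ∈ g.car} := by rw [hU1]; exact Or.inl ⟨g, hg, hx⟩
    exact this
  have hi1 : i1 ≤ no b := by
    have := hRp1.num
    omega
  -- everything in `gsL` is below the rest
  have hrest : ∀ g ∈ gsL, ∀ a ∈ g.car, ∀ x, (x ∈ (R ∪ P) ∪ {x | ∃ g ∈ its, x ∈ g.car}) → a < x := by
    intro g hg a ha x hx
    rcases hx with (hx | hx) | ⟨g', hg', hx⟩
    · exact hlt1 g hg a ha x hx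
    · obtain ⟨g'', hg'', ha⟩ := hLb g hg a ha
      exact hbP g'' hg'' a ha x hx
    · obtain ⟨g'', hg'', ha⟩ := hLb g hg a ha
      exact hbi g'' hg'' g' hg' a ha x hx
  have hall : ∀ x : L, (∃ g ∈ gsL, x ∈ g.car) ∨ x ∈ (R ∪ P) ∪ {x | ∃ g ∈ its, x ∈ g.car} := by
    intro x
    rcases huniv x with h | h | h
    · have : x ∈ {x | ∃ g ∈ b, x ∈ g.car} := h
      rw [hU1] at this
      rcases this with h | h
      · exact Or.inl h
      · exact Or.inr (Or.inl (Or.inl h))
    · exact Or.inr (Or.inl (Or.inr h))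
    · exact Or.inr (Or.inr h)
  obtain ⟨E, gs, i2, hRp2, hU2, hz2, hcount⟩ := core hm hlow hpt its (R ∪ P)
    (hP.mono Set.subset_union_right) dits hdits hposi
    (fun X hX => hinf X (by rw [hfr]; simp [hX]))
    (by
      rintro g hg a (ha | ha) x hx
      · obtain ⟨g', hg', ha⟩ := hRb a ha
        exact hbi g' hg' g hg a ha x hx
      · exact hcP g hg a ha x hx)
    hci
    (by
      refine ⟨?_⟩
      intro x hx y hy z hz
      rcases hall z with ⟨g, hg, h⟩ | h
      · exact absurd hz.1 (not_le.2 (hrest g hg z h x hx))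
      · exact h) i1 (by rw [hW]; omega)
  have hnum2 := hRp2.num
  rw [rk16b_no_cons (FT.opn (R ∪ P)) its] at hnum2
  rw [rk16b_no_eq, rk16b_no_eq] at hcount
  have hopn1 : (FT.opn (R ∪ P) : FT L).opens.length = 1 := rfl
  rw [hopn1] at hnum2
  have hi2 : i2 ≤ zc σ.opens := by rw [hW]; omega
  have hRp := Rp.append hRp1 (rk16b_swap (P := P) hRp2) (rk16b_pt hpt (Nat.zero_le _) (by omega))
    (rk16b_pt hpt hRp2.le hi2) hdb (by
      intro g hg g' hg'
      have hg'' : g' = FT.opn E := by simpa using hg'.symm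
      subst hg''
      have hgL : g ∈ gsL := List.mem_of_getLast? hg
      refine ⟨fun a ha x hx => hrest g hgL a ha x ?_, Or.inl (hmax1 g hg)⟩
      rw [hU2]
      exact ⟨FT.opn E, List.mem_cons_self, hx⟩)
  rw [← hfr, ← hds] at hRp
  have hlenA : (gsL ++ FT.opn E :: gs).length = (fr σ).length := hRp.len
  have hcarA : (asm σ (gsL ++ FT.opn E :: gs)).car = Set.univ := by
    rw [asm_car _ _ hlenA, Set.eq_univ_iff_forall]
    intro x
    rcases hall x with ⟨g, hg, h⟩ | h
    · exact ⟨g, by simp [hg], h⟩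
    · rw [hU2] at h
      obtain ⟨g, hg, h⟩ := h
      exact ⟨g, List.mem_append_right _ hg, h⟩
  have hopA : (asm σ (gsL ++ FT.opn E :: gs)).opens = (gsL ++ FT.opn E :: gs).flatMap FT.opens :=
    asm_opens _ _ hlenA
  have hlenO : (asm σ (gsL ++ FT.opn E :: gs)).opens.length
      = no gsL + no (FT.opn E :: gs) := by
    rw [hopA, rk16b_no_eq, rk16b_no_append]
  have hlenS : σ.opens.length = no b + (1 + no its) := by
    rw [hop, rk16b_no_eq, hfr, rk16b_no_append, rk16b_no_cons]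
    rfl
  have hzL : zc (gsL.flatMap FT.opens) = no gsL := by
    rw [rk16b_zc_poor _ hpoor1, rk16b_no_eq]
  have hzA : zc (asm σ (gsL ++ FT.opn E :: gs)).opens
      = no gsL + zc ((FT.opn E :: gs).flatMap FT.opens) := by
    rw [hopA, List.flatMap_append, rk16b_zc_append, hzL]
  have hnum1 := hRp1.num
  refine ⟨asm σ (gsL ++ FT.opn E :: gs), pt i2, asm_wf _ _ hlenA hRp.wf hRp.chain, hcarA,
    asm_opAt _ _ hlenA _ _ hRp.opat, ?_, ?_, ?_, ?_, ?_⟩
  · intro d
    rw [asm_cnt _ _ hlenA, hRp.cnt d, ← fr_cnt, hpt0]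
  · rw [rk16b_pm hpt0 hpt i2 hi2, hlenO, hlenS, ← add_mul]
    congr 1
    norm_cast
    omega
  · rw [hzA]
    omega
  · rw [hlenO, hlenS, hzA, hW]
    omega
  · intro n hn
    exact asm_nn _ _ hlenA _ _ fun q hq => hRp.nz q hq n hn

end

end Pool.Agent.RK
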