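import Pool.Agent.RK.Defs
import Pool.Agent.RU.TreeNums

/-!
Project RK (MP_d404c6_co), row RK-18a: masses of finite partial trees and of trees.
-/

set_option autoImplicit false

open Filter

namespace Pool.Agent.RK

open Pool.Agent.RU

theorem ft_kraft {L : Type} (t : FT L) (b n : ℕ) (hO : t.OpAt b n) :
    HasSum (fun d => (t.cnt b d : ℝ) / 2 ^ d)
      ((1 / 2) ^ b - (t.opens.length : ℝ) * (1 / 2) ^ n) := by
  induction t generalizing b with
  | leaf x =>
    have h1 : HasSum (fun d => ((FT.leaf x : FT L).cnt b d : ℝ) / 2 ^ d)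
        (((FT.leaf x : FT L).cnt b b : ℝ) / 2 ^ b) := by
      refine hasSum_single b fun d hd => ?_
      have : (FT.leaf x : FT L).cnt b d = 0 := if_neg (fun h => hd h.symm)
      rw [this, Nat.cast_zero, zero_div]
    have h2 : (FT.leaf x : FT L).cnt b b = 1 := if_pos rfl
    rw [h2] at h1
    have h3 : ((1 / 2 : ℝ) ^ b - (((FT.leaf x : FT L).opens.length : ℕ) : ℝ) * (1 / 2) ^ n) =
        ((1 : ℕ) : ℝ) / 2 ^ b := by
      have : (FT.leaf x : FT L).opens.length = 0 := rfl
      rw [this, Nat.cast_zero, zero_mul, sub_zero, Nat.cast_one, one_div_pow]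
    rw [h3]
    exact h1
  | opn X =>
    have hb : b = n := hO
    subst hb
    have h3 : ((1 / 2 : ℝ) ^ b - (((FT.opn X : FT L).opens.length : ℕ) : ℝ) * (1 / 2) ^ b) =
        0 := by
      have : (FT.opn X : FT L).opens.length = 1 := rfl
      rw [this, Nat.cast_one, one_mul, sub_self]
    rw [h3]
    have h4 : (fun d => (((FT.opn X : FT L).cnt b d : ℕ) : ℝ) / 2 ^ d) = fun _ => 0 := by
      funext d
      have : (FT.opn X : FT L).cnt b d = 0 := rfl
      rw [this, Nat.cast_zero, zero_div]
    rw [h4]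
    exact hasSum_zero
  | node l r ihl ihr =>
    have h1 := (ihl (b + 1) hO.1).add (ihr (b + 1) hO.2)
    have h2 : (fun d => ((FT.node l r).cnt b d : ℝ) / 2 ^ d) =
        fun d => (l.cnt (b + 1) d : ℝ) / 2 ^ d + (r.cnt (b + 1) d : ℝ) / 2 ^ d := by
      funext d
      have : (FT.node l r).cnt b d = l.cnt (b + 1) d + r.cnt (b + 1) d := rfl
      rw [this, Nat.cast_add, add_div]
    have h3 : ((FT.node l r).opens.length : ℝ) = (l.opens.length : ℝ) + r.opens.length := by
      have : (FT.node l r).opens = l.opens ++ r.opens := rfl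
      rw [this, List.length_append, Nat.cast_add]
    rw [h2, h3]
    convert h1 using 1
    rw [pow_succ]
    ring

theorem rk18_key {T : Set (List Bool)} (hT : StronglyComplete T) (n : ℕ) :
    (nodeCount T n : ℝ) / 2 ^ n =
      1 - ∑ d ∈ Finset.range (n + 1), (leafCount T d : ℝ) / 2 ^ d := by
  induction n with
  | zero =>
    have := count_zero hT
    have h2 : (nodeCount T 0 : ℝ) + leafCount T 0 = 1 := by exact_mod_cast this
    simp
    linarith
  | succ n ih =>
    have := count_succ hT n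
    have h2 : (nodeCount T (n + 1) : ℝ) + leafCount T (n + 1) = 2 * nodeCount T n := by
      exact_mod_cast this
    rw [Finset.sum_range_succ]
    have h3 : (nodeCount T (n + 1) : ℝ) / 2 ^ (n + 1) =
        (nodeCount T n : ℝ) / 2 ^ n - (leafCount T (n + 1) : ℝ) / 2 ^ (n + 1) := by
      rw [pow_succ]
      have hp : (2 : ℝ) ^ n ≠ 0 := by positivity
      field_simp
      linarith
    rw [h3, ih]
    ring

section
variable {T : Set (List Bool)} {μ : ℝ}

theorem node_tendsto (hT : StronglyComplete T)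
    (hμ : HasSum (fun d => (leafCount T d : ℝ) / 2 ^ d) (1 - μ)) :
    Tendsto (fun n => (nodeCount T n : ℝ) / 2 ^ n) atTop (nhds μ) := by
  have h2 : Tendsto (fun n => ∑ d ∈ Finset.range (n + 1), (leafCount T d : ℝ) / 2 ^ d)
      atTop (nhds (1 - μ)) := (tendsto_add_atTop_iff_nat 1).2 hμ.tendsto_sum_nat
  have h3 : Tendsto (fun n => 1 - ∑ d ∈ Finset.range (n + 1), (leafCount T d : ℝ) / 2 ^ d)
      atTop (nhds (1 - (1 - μ))) := tendsto_const_nhds.sub h2
  rw [sub_sub_cancel] at h3
  exact h3.congr fun n => (rk18_key hT n).symm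

theorem leaf_tendsto (hμ : HasSum (fun d => (leafCount T d : ℝ) / 2 ^ d) (1 - μ)) :
    Tendsto (fun d => (leafCount T d : ℝ) / 2 ^ d) atTop (nhds 0) :=
  hμ.summable.tendsto_atTop_zero

end

end Pool.Agent.RK
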