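import Pool.Agent.RK.Defs
import Pool.Agent.RK.TreeMass
import Pool.Agent.RU.ScatMass
import Pool.Agent.RU.Subtree

/-!
Project RK (MP_d404c6_co), row RK-19a: the number of rich nodes of a tree.
-/

set_option autoImplicit false

open Filter

namespace Pool.Agent.RK

open Pool.Agent.RU

/-- the mass of the whole tree -/
theorem rk19a_root {T : Set (List Bool)} {μ : ℝ} (hT : StronglyComplete T)
    (hμ : HasSum (fun d => (leafCount T d : ℝ) / 2 ^ d) (1 - μ)) : ru21_m T [] = μ := by
  have h0 := ru21_tendsto hT.1 []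
  have hsub : sub T [] = T := by
    ext v
    simp [sub]
  have ha : ru21_a T [] = fun n => (nodeCount T n : ℝ) / 2 ^ n := by
    funext n
    unfold ru21_a
    rw [hsub]
  rw [ha] at h0
  exact tendsto_nhds_unique h0 (node_tendsto hT hμ)

/-- a node of positive mass is rich -/
theorem rk19a_rich {T : Set (List Bool)} (hT : StronglyComplete T) {w : List Bool}
    (h : 0 < ru21_m T w) : Rich (Below T w) := by
  by_contra hr
  have hw : w ∈ T := ru21_mem hT.1 h
  have hs : Scattered (sub T w) := by
    rintro ⟨f, hf, hlt⟩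
    apply hr
    refine ⟨fun q => ⟨w ++ f q, (isLeaf_sub T w (f q)).1 (hf q)⟩, fun q r hqr => ?_,
      fun q => ⟨f q, rfl⟩⟩
    rw [lf_lt_iff]
    exact (ru3_append_left w (f q) (f r)).2 (hlt q r hqr)
  have h1 := mass_zero (stronglyComplete_sub hT hw) hs
  have h2 : ru21_m T w = 0 := tendsto_nhds_unique (ru21_tendsto hT.1 w) h1
  rw [h2] at h
  exact lt_irrefl _ h

/-- the mass of a node is smaller than one, because there is a leaf below it -/
theorem rk19a_lt_one {T : Set (List Bool)} (hT : StronglyComplete T) (v : List Bool) :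
    ∀ w : List Bool, IsLeaf T (w ++ v) → ru21_m T w < 1 := by
  induction v with
  | nil =>
    intro w h
    rw [List.append_nil] at h
    have h1 : ∀ b, ru21_m T (w ++ [b]) = 0 := by
      intro b
      by_contra hb
      have h2 : 0 < ru21_m T (w ++ [b]) := lt_of_le_of_ne (ru21_m_nonneg T _) (Ne.symm hb)
      exact h.2 [b] (by simp) (ru21_mem hT.1 h2)
    rw [ru21_m_succ hT.1, h1, h1]
    norm_num
  | cons b v ih =>
    intro w h
    have h1 : ru21_m T (w ++ [b]) < 1 := ih (w ++ [b]) (by rwa [List.append_assoc])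
    have h2 := ru21_m_le hT.1 (w ++ [false])
    have h3 := ru21_m_le hT.1 (w ++ [true])
    rw [ru21_m_succ hT.1]
    cases b
    · linarith
    · linarith

/-- the number of rich nodes `j` levels below `w` -/
noncomputable def rk19a_R (T : Set (List Bool)) (w : List Bool) (j : ℕ) : ℕ :=
  {v | (w ++ v ∈ T ∧ Rich (Below T (w ++ v))) ∧ v.length = j}.ncard

theorem rk19a_R_succ (T : Set (List Bool)) (w : List Bool) (j : ℕ) :
    rk19a_R T w (j + 1) = rk19a_R T (w ++ [false]) j + rk19a_R T (w ++ [true]) j := by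
  unfold rk19a_R
  have hinj : ∀ b : Bool, Function.Injective (fun v : List Bool => b :: v) :=
    fun b u v h => (List.cons.inj h).2
  have h1 : {v | (w ++ v ∈ T ∧ Rich (Below T (w ++ v))) ∧ v.length = j + 1} =
      (fun v => false :: v) '' {v | (w ++ [false] ++ v ∈ T ∧
        Rich (Below T (w ++ [false] ++ v))) ∧ v.length = j} ∪
      (fun v => true :: v) '' {v | (w ++ [true] ++ v ∈ T ∧
        Rich (Below T (w ++ [true] ++ v))) ∧ v.length = j} := by
    ext u
    constructor
    · rintro ⟨⟨h1, h2⟩, h3⟩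
      cases u with
      | nil => simp at h3
      | cons b v =>
        have e : w ++ b :: v = w ++ [b] ++ v := by simp
        rw [e] at h1 h2
        have h5 : v.length = j := by simpa using h3
        cases b
        · exact Or.inl ⟨v, ⟨⟨h1, h2⟩, h5⟩, rfl⟩
        · exact Or.inr ⟨v, ⟨⟨h1, h2⟩, h5⟩, rfl⟩
    · rintro (⟨v, ⟨⟨h1, h2⟩, h3⟩, rfl⟩ | ⟨v, ⟨⟨h1, h2⟩, h3⟩, rfl⟩)
      · rw [List.append_assoc] at h1 h2
        exact ⟨⟨h1, h2⟩, by simp [h3]⟩
      · rw [List.append_assoc] at h1 h2
        exact ⟨⟨h1, h2⟩, by simp [h3]⟩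
  have hd : Disjoint ((fun v => false :: v) '' {v | (w ++ [false] ++ v ∈ T ∧
        Rich (Below T (w ++ [false] ++ v))) ∧ v.length = j})
      ((fun v => true :: v) '' {v | (w ++ [true] ++ v ∈ T ∧
        Rich (Below T (w ++ [true] ++ v))) ∧ v.length = j}) := by
    rw [Set.disjoint_left]
    rintro _ ⟨v, -, rfl⟩ ⟨v', -, h⟩
    exact Bool.noConfusion (List.cons.inj h).1
  have hf : ∀ P : List Bool → Prop, {u | P u ∧ u.length = j}.Finite := fun P => ru4_fin P j
  rw [h1, Set.ncard_union_eq hd ((hf _).image _) ((hf _).image _),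
    Set.ncard_image_of_injective _ (hinj false), Set.ncard_image_of_injective _ (hinj true)]

theorem rk19a_main {T : Set (List Bool)} (hT : StronglyComplete T) (j : ℕ) :
    ∀ w : List Bool, 0 < ru21_m T w → ru21_m T w * 2 ^ j < rk19a_R T w j := by
  induction j with
  | zero =>
    intro w hw
    have hwT : w ∈ T := ru21_mem hT.1 hw
    obtain ⟨v, hv⟩ := hT.2.2 w hwT
    have h1 := rk19a_lt_one hT v w hv
    have h2 : {v | (w ++ v ∈ T ∧ Rich (Below T (w ++ v))) ∧ v.length = 0} = {[]} := by
      ext u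
      simp only [Set.mem_ofPred_eq, Set.mem_singleton_iff]
      constructor
      · rintro ⟨-, h⟩
        exact List.length_eq_zero_iff.1 h
      · rintro rfl
        rw [List.append_nil]
        exact ⟨⟨hwT, rk19a_rich hT hw⟩, rfl⟩
    have h3 : rk19a_R T w 0 = 1 := by
      unfold rk19a_R
      rw [h2, Set.ncard_singleton]
    rw [h3]
    simpa using h1
  | succ j ih =>
    intro w hw
    have h1 := ru21_m_succ hT.1 w
    have hle : ∀ u, ru21_m T u * 2 ^ j ≤ rk19a_R T u j := by
      intro u
      rcases (ru21_m_nonneg T u).eq_or_lt with h | h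
      · rw [← h, zero_mul]
        exact Nat.cast_nonneg _
      · exact (ih u h).le
    rw [rk19a_R_succ, Nat.cast_add, pow_succ]
    have h2 := hle (w ++ [false])
    have h3 := hle (w ++ [true])
    rcases (ru21_m_nonneg T (w ++ [false])).eq_or_lt with h | h
    · have h4 : 0 < ru21_m T (w ++ [true]) := by linarith
      have h5 := ih _ h4
      rw [h1]
      linarith
    · have h5 := ih _ h
      rw [h1]
      linarith

section
variable {T : Set (List Bool)} {μ : ℝ}

theorem rich_nodes (hT : StronglyComplete T)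
    (hμ : HasSum (fun d => (leafCount T d : ℝ) / 2 ^ d) (1 - μ)) (h0 : 0 < μ) (j : ℕ) :
    μ * 2 ^ j < RichN T j := by
  have h1 := rk19a_root hT hμ
  have h2 := rk19a_main hT j [] (by rw [h1]; exact h0)
  rw [h1] at h2
  have h3 : rk19a_R T [] j = RichN T j := rfl
  rwa [h3] at h2

end

end Pool.Agent.RK
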