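import Pool.Agent.RK.Rich
import Pool.Agent.RK.TreeRich
import Pool.Agent.RU.TreeSep

/-!
Project RK (MP_d404c6_co), row RK-19b (helper29): separated families of poor sets are counted by
nodes which have infinitely many leaves below but are not rich.
-/

set_option autoImplicit false

open Filter

namespace Pool.Agent.RK

open Pool.Agent.RU

section

variable {T : Set (List Bool)} {μ : ℝ}

theorem rk19b_lo {A : Set (Lf T)} (hoc : A.OrdConnected) (hlo : LoB A) :
    ∃ J : ℕ, ∀ w : List Bool, J ≤ w.length → ∀ a ∈ A, a ∈ Below T w → ∀ z ∈ Below T w,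
      z < a → z ∈ A := by
  have hlt : ∀ z a : Lf T, a ∈ A → z < a → z ∉ A → ∀ x ∈ A, z < x := by
    intro z a ha hza hz x hx
    by_contra hcon
    exact hz (hoc.out hx ha ⟨not_lt.1 hcon, hza.le⟩)
  rcases hlo with ⟨x, hx⟩ | h0 | ⟨y, hy⟩
  · refine ⟨x.1.length + 1, fun w hw a ha haw z hzw hza => ?_⟩
    by_contra hz
    have h1 := hlt z a ha hza hz x hx.1
    have h2 := ru5_between' h1.le (hx.2 ha) hzw haw
    have := h2.length_le
    omega
  · refine ⟨0, fun w hw a ha haw z hzw hza => ?_⟩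
    by_contra hz
    have h1 : z ∈ {y | ∀ x ∈ A, y < x} := hlt z a ha hza hz
    rw [h0] at h1
    exact h1
  · refine ⟨y.1.length + 1, fun w hw a ha haw z hzw hza => ?_⟩
    by_contra hz
    have h1 : z ∈ {y | ∀ x ∈ A, y < x} := hlt z a ha hza hz
    have h2 := ru5_between' (hy.2 h1) (hy.1 a ha).le hzw haw
    have := h2.length_le
    omega

theorem rk19b_hi {A : Set (Lf T)} (hoc : A.OrdConnected) (hhi : HiB A) :
    ∃ J : ℕ, ∀ w : List Bool, J ≤ w.length → ∀ a ∈ A, a ∈ Below T w → ∀ z ∈ Below T w,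
      a < z → z ∈ A := by
  have hlt : ∀ z a : Lf T, a ∈ A → a < z → z ∉ A → ∀ x ∈ A, x < z := by
    intro z a ha hza hz x hx
    by_contra hcon
    exact hz (hoc.out ha hx ⟨hza.le, not_lt.1 hcon⟩)
  rcases hhi with ⟨x, hx⟩ | h0 | ⟨y, hy⟩
  · refine ⟨x.1.length + 1, fun w hw a ha haw z hzw hza => ?_⟩
    by_contra hz
    have h1 := hlt z a ha hza hz x hx.1
    have h2 := ru5_between' (hx.2 ha) h1.le haw hzw
    have := h2.length_le
    omega
  · refine ⟨0, fun w hw a ha haw z hzw hza => ?_⟩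
    by_contra hz
    have h1 : z ∈ {y | ∀ x ∈ A, x < y} := hlt z a ha hza hz
    rw [h0] at h1
    exact h1
  · refine ⟨y.1.length + 1, fun w hw a ha haw z hzw hza => ?_⟩
    by_contra hz
    have h1 : z ∈ {y | ∀ x ∈ A, x < y} := hlt z a ha hza hz
    have h2 := ru5_between' (hy.1 a ha).le (hy.2 h1) haw hzw
    have := h2.length_le
    omega

theorem rk19b_sub {A : Set (Lf T)} (hA : Poor A) :
    ∃ J : ℕ, ∀ w : List Bool, J ≤ w.length → (Below T w ∩ A).Nonempty → Below T w ⊆ A := by
  obtain ⟨J1, h1⟩ := rk19b_lo hA.oc hA.lo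
  obtain ⟨J2, h2⟩ := rk19b_hi hA.oc hA.hi
  refine ⟨max J1 J2, ?_⟩
  rintro w hw ⟨a, haw, ha⟩ z hz
  rcases lt_trichotomy z a with h | h | h
  · exact h1 w (le_trans (le_max_left _ _) hw) a ha haw z hz h
  · rw [h]; exact ha
  · exact h2 w (le_trans (le_max_right _ _) hw) a ha haw z hz h

theorem rk19b_inf {A : Set (Lf T)} (hA : A.Infinite) (j : ℕ) :
    ∃ w : List Bool, w.length = j ∧ (Below T w ∩ A).Infinite := by
  by_contra hcon
  push Not at hcon
  apply hA
  have h1 : {a : Lf T | a.1.length < j}.Finite := by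
    have hfin : {u : List Bool | u.length < j}.Finite :=
      (List.finite_length_le Bool j).subset fun u (hu : u.length < j) =>
        show u.length ≤ j from hu.le
    exact hfin.preimage (Subtype.val_injective.injOn)
  have h2 : (⋃ w ∈ {w : List Bool | w.length = j}, Below T w ∩ A).Finite := by
    refine Set.Finite.biUnion (List.finite_length_eq Bool j) fun w hw => ?_
    exact hcon w hw
  refine (h1.union h2).subset fun a ha => ?_
  by_cases hj : a.1.length < j
  · exact Or.inl hj
  · right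
    rw [Set.mem_iUnion₂]
    refine ⟨a.1.take j, ?_, List.take_prefix _ _, ha⟩
    show (a.1.take j).length = j
    rw [List.length_take]
    omega

theorem rk19b_mem (hT : StronglyComplete T) {w : List Bool} (h : (Below T w).Nonempty) :
    w ∈ T := by
  obtain ⟨a, r, hr⟩ := h
  exact hT.1.2 w r (by rw [hr]; exact a.2.1)

theorem tree_cap (hT : StronglyComplete T)
    (hμ : HasSum (fun d => (leafCount T d : ℝ) / 2 ^ d) (1 - μ)) (h0 : 0 < μ)
    (l : List (Set (Lf T))) (hl : ∀ A ∈ l, Poor A) (hs : l.Pairwise Sepd) :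
    ∃ J, ∀ j, J ≤ j → (l.length : ℝ) < (InfN T j : ℝ) - μ * 2 ^ j := by
  choose J hJ using fun i : Fin l.length => rk19b_sub (hl (l.get i) (List.get_mem l i))
  refine ⟨Finset.univ.sup J, fun j hj => ?_⟩
  choose w hwj hwi using fun i : Fin l.length =>
    rk19b_inf (hl (l.get i) (List.get_mem l i)).inf j
  have hsub : ∀ i, Below T (w i) ⊆ l.get i := by
    intro i
    refine hJ i (w i) ?_ (hwi i).nonempty
    rw [hwj]
    exact le_trans (Finset.le_sup (f := J) (Finset.mem_univ i)) hj
  have hinf : ∀ i, (Below T (w i)).Infinite := fun i => (hwi i).mono Set.inter_subset_left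
  have hne : ∀ i i', i < i' → w i ≠ w i' := by
    intro i i' hii he
    obtain ⟨hlt, -⟩ := List.pairwise_iff_get.1 hs i i' hii
    obtain ⟨a, ha⟩ := (hinf i).nonempty
    have ha' : a ∈ Below T (w i') := he ▸ ha
    exact lt_irrefl a (hlt a (hsub i ha) a (hsub i' ha'))
  have hinj : Function.Injective w := by
    intro i i' he
    rcases lt_trichotomy i i' with h | h | h
    · exact absurd he (hne i i' h)
    · exact h
    · exact absurd he.symm (hne i' i h)
  have hfin : ∀ P : List Bool → Prop, {u : List Bool | P u ∧ u.length = j}.Finite := fun P =>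
    (List.finite_length_eq Bool j).subset fun _ h => h.2
  have hdisj : Disjoint {u | (u ∈ T ∧ Rich (Below T u)) ∧ u.length = j} (Set.range w) := by
    rw [Set.disjoint_left]
    rintro _ ⟨⟨-, hr⟩, -⟩ ⟨i, rfl⟩
    exact (hl (l.get i) (List.get_mem l i)).scat (hr.mono (hsub i))
  have hunion : {u | (u ∈ T ∧ Rich (Below T u)) ∧ u.length = j} ∪ Set.range w ⊆
      {u | (u ∈ T ∧ (Below T u).Infinite) ∧ u.length = j} := by
    rintro u (⟨⟨h1, h2⟩, h3⟩ | ⟨i, rfl⟩)
    · exact ⟨⟨h1, h2.infinite⟩, h3⟩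
    · exact ⟨⟨rk19b_mem hT (hinf i).nonempty, hinf i⟩, hwj i⟩
  have hcard : (Set.range w).ncard = l.length := by
    rw [← Set.image_univ, Set.ncard_image_of_injective _ hinj, Set.ncard_univ,
      Nat.card_eq_fintype_card, Fintype.card_fin]
  have h1 : RichN T j + l.length ≤ InfN T j := by
    rw [RichN, InfN, ← hcard, ← Set.ncard_union_eq hdisj (hfin _) (Set.finite_range w)]
    exact Set.ncard_le_ncard hunion (hfin _)
  have h2 := rich_nodes hT hμ h0 j
  have h3 : (RichN T j : ℝ) + l.length ≤ InfN T j := by exact_mod_cast h1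
  linarith

end

end Pool.Agent.RK
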