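import Pool.Agent.RK.Rich
import Pool.Agent.RK.CapP
import Pool.Agent.RK.Machine2
import Pool.Agent.RK.AsmB
import Pool.Agent.RK.Start
import Pool.Agent.RK.Trunc
import Pool.Agent.RK.TreeMass
import Pool.Agent.RK.SlotN
import Pool.Agent.RK.TreeRich
import Pool.Agent.RK.TreeCap
import Pool.Agent.RK.Slots2
import Pool.Agent.RU.AddrTree

/-!
RK-21: trees with Kraft sum below one.
-/

set_option autoImplicit false

open Filter

namespace Pool.Agent.RK

open Pool.Agent.RU

section
variable {T : Set (List Bool)} {μ : ℝ}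

/-- the open sets of the truncation which are not rich -/
theorem rk21_zc {T : Set (List Bool)} {j : ℕ} {ws : List (List Bool)} (hn : ws.Nodup)
    (hw : ∀ w, w ∈ ws ↔ (w ∈ T ∧ (Below T w).Infinite) ∧ w.length = j) :
    zc (ws.map (Below T)) + RichN T j = ws.length := by
  classical
  have h1 : {w | (w ∈ T ∧ Rich (Below T w)) ∧ w.length = j} =
      ((ws.filter (fun w => Rich (Below T w))).toFinset : Set (List Bool)) := by
    ext w
    rw [Finset.mem_coe, List.mem_toFinset, List.mem_filter, hw]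
    simp only [Set.mem_ofPred_eq, decide_eq_true_eq]
    constructor
    · rintro ⟨⟨h2, h3⟩, h4⟩
      exact ⟨⟨⟨h2, h3.infinite⟩, h4⟩, h3⟩
    · rintro ⟨⟨⟨h2, -⟩, h4⟩, h3⟩
      exact ⟨⟨h2, h3⟩, h4⟩
  have h2 : RichN T j = (ws.filter (fun w => Rich (Below T w))).length := by
    rw [RichN, h1, Set.ncard_coe_finset, List.toFinset_card_of_nodup (hn.filter _)]
  rw [h2]
  clear h1 h2 hw hn
  induction ws with
  | nil => rfl
  | cons w ws ih =>
    rw [List.map_cons, List.filter_cons, List.length_cons]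
    have h3 : zc (Below T w :: ws.map (Below T)) = zi (Below T w) + zc (ws.map (Below T)) := by
      rw [zc, List.map_cons, List.sum_cons]
      rfl
    rw [h3]
    by_cases hr : Rich (Below T w)
    · rw [if_pos (by simpa using hr), zi_rich hr, List.length_cons]
      omega
    · rw [if_neg (by simpa using hr), zi_poor hr]
      omega

theorem rk21_inf {T : Set (List Bool)} {j : ℕ} {ws : List (List Bool)} (hn : ws.Nodup)
    (hw : ∀ w, w ∈ ws ↔ (w ∈ T ∧ (Below T w).Infinite) ∧ w.length = j) :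
    InfN T j = ws.length := by
  classical
  have h1 : {w | (w ∈ T ∧ (Below T w).Infinite) ∧ w.length = j} =
      (ws.toFinset : Set (List Bool)) := by
    ext w
    rw [Finset.mem_coe, List.mem_toFinset, hw]
    rfl
  rw [InfN, h1, Set.ncard_coe_finset, List.toFinset_card_of_nodup hn]

theorem main_kraft (hT : StronglyComplete T)
    (hμ : HasSum (fun d => (leafCount T d : ℝ) / 2 ^ d) (1 - μ)) (h0 : 0 < μ) :
    ∃ S, IsSearchTree S ∧ SameType S T := by
  -- basic facts on the leaves
  have hcount : Countable (Lf T) := by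
    unfold Lf
    infer_instance
  have hinf : (Set.univ : Set (Lf T)).Infinite := by
    have h1 := rich_nodes hT hμ h0 0
    have h2 : RichN T 0 ≠ 0 := by
      intro h2
      rw [h2] at h1
      have : (0 : ℝ) < μ * 2 ^ 0 := by positivity
      push_cast at h1
      linarith
    have h3 : {w | (w ∈ T ∧ Rich (Below T w)) ∧ w.length = 0}.Nonempty := by
      by_contra h4
      rw [Set.not_nonempty_iff_eq_empty] at h4
      apply h2
      rw [RichN, h4, Set.ncard_empty]
    obtain ⟨w, ⟨-, h4⟩, -⟩ := h3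
    exact h4.infinite.mono (Set.subset_univ _)
  have hne : Nonempty (Lf T) := hinf.nonempty.to_type
  -- the capacity for four sets
  obtain ⟨h4, hcap⟩ := capP_exists (L := Lf T) (e := fun j => (InfN T j : ℝ) - μ * 2 ^ j)
    (fun l h1 h2 => tree_cap hT hμ h0 l h1 h2) 4
  -- the choice of the level
  obtain ⟨n0, hn4, hn1, hbig, hleaf, hnode⟩ : ∃ n0, h4 ≤ n0 ∧ 1 ≤ n0 ∧ 32 ≤ μ * 2 ^ n0 ∧
      (∀ m, n0 < m → (leafCount T m : ℝ) ≤ μ * 2 ^ m / 64) ∧
      (nodeCount T (n0 - 1) : ℝ) ≤ 3 / 2 * μ * 2 ^ (n0 - 1) := by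
    have e1 : ∀ᶠ n in atTop, (32 : ℝ) ≤ μ * 2 ^ n := by
      have : Tendsto (fun n : ℕ => μ * (2 : ℝ) ^ n) atTop atTop :=
        (tendsto_pow_atTop_atTop_of_one_lt (by norm_num)).const_mul_atTop h0
      exact this.eventually_ge_atTop 32
    have e2 : ∀ᶠ n in atTop, (leafCount T n : ℝ) / 2 ^ n < μ / 64 :=
      (leaf_tendsto hμ).eventually_lt_const (by positivity)
    have e3 : ∀ᶠ n in atTop, (nodeCount T n : ℝ) / 2 ^ n < 3 / 2 * μ :=
      (node_tendsto hT hμ).eventually_lt_const (by linarith)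
    rw [eventually_atTop] at e1 e2 e3
    obtain ⟨a1, e1⟩ := e1
    obtain ⟨a2, e2⟩ := e2
    obtain ⟨a3, e3⟩ := e3
    refine ⟨h4 + 1 + a1 + a2 + a3, by omega, by omega, e1 _ (by omega), ?_, ?_⟩
    · intro m hm
      have h5 := e2 m (by omega)
      rw [div_lt_iff₀ (by positivity)] at h5
      linarith
    · have h5 := e3 (h4 + 1 + a1 + a2 + a3 - 1) (by omega)
      rw [div_lt_iff₀ (by positivity)] at h5
      exact h5.le
  -- the slots
  set τ : ℝ := (InfN T n0 : ℝ) / 2 ^ n0 - μ with hτ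
  obtain ⟨δ, hm, hcard, hfin, hlim⟩ := slots2 (slotN T n0) (slotN_inf hT hinf n0) τ
    (slot_sum hT hμ n0)
  have hlow : ∀ i, n0 < δ i := by
    intro i
    by_contra hcon
    have h5 := hcard (δ i)
    have hf : ({k | δ k = δ i} : Set ℕ).Finite :=
      (hfin (δ i)).subset (fun k (hk : δ k = δ i) => le_of_eq hk)
    rw [slotN_zero T (not_lt.1 hcon), Set.ncard_eq_zero hf] at h5
    have : i ∈ ({k | δ k = δ i} : Set ℕ) := rfl
    rw [h5] at this
    exact this
  have hN : Num2 μ τ n0 δ := ⟨h0, hbig, hm, hlow, hfin, hlim, by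
    intro m hm'
    rw [hcard]
    refine le_trans ?_ (hleaf m hm')
    have := slotN_add T n0 m
    exact_mod_cast (by omega : slotN T n0 m ≤ leafCount T m)⟩
  have hee : ∀ j, n0 ≤ j → (InfN T j : ℝ) - μ * 2 ^ j ≤ ee δ τ j := by
    intro j hj
    have h5 := ee_ge (slotN T n0) (slotN T j) τ ((InfN T j : ℝ) / 2 ^ j - μ)
      (slot_sum hT hμ n0) (slot_sum hT hμ j) j (fun d hd => slotN_zero T hd)
      (fun d => slotN_anti T hj d) hm hcard hfin
    have h6 : ((InfN T j : ℝ) / 2 ^ j - μ) * 2 ^ j = (InfN T j : ℝ) - μ * 2 ^ j := by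
      have : (2 : ℝ) ^ j ≠ 0 := by positivity
      field_simp
    rw [h6] at h5
    exact h5
  have hC : ∀ K, ∃ h, CapP (Lf T) (ee δ τ) K h := by
    refine capP_exists ?_
    intro l h5 h6
    obtain ⟨J, hJ⟩ := tree_cap hT hμ h0 l h5 h6
    exact ⟨max J n0, fun j hj => (hJ j (by omega)).trans_le (hee j (by omega))⟩
  have hcap4 : CapP (Lf T) (ee δ τ) 4 n0 := (hcap.mono le_rfl hn4).le hee
  -- the truncation
  obtain ⟨σ, hOrd, hσc, hσO, hσn, ⟨ws, hws, hws', hσo⟩, hσnn⟩ := trunc hT n0
  have hlenσ : InfN T n0 = σ.opens.length := by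
    rw [hσo, List.length_map]
    exact rk21_inf hws hws'
  have hzcσ : zc σ.opens + RichN T n0 = σ.opens.length := by
    rw [hσo, List.length_map]
    exact rk21_zc hws hws'
  have hrich := rich_nodes hT hμ h0 n0
  have h2n : (0 : ℝ) < 2 ^ n0 := by positivity
  have hrich' : ∃ X ∈ σ.opens, Rich X := by
    by_contra hcon
    push Not at hcon
    have h5 : zc σ.opens = σ.opens.length := by
      have : ∀ Xs : List (Set (Lf T)), (∀ X ∈ Xs, ¬ Rich X) → zc Xs = Xs.length := by
        intro Xs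
        induction Xs with
        | nil => intro _; rfl
        | cons X Xs ih =>
          intro hX
          rw [List.length_cons, ← ih (fun Y hY => hX Y (List.mem_cons_of_mem _ hY)), zc,
            List.map_cons, List.sum_cons, zi_poor (hX X List.mem_cons_self), add_comm]
          rfl
      exact this _ hcon
    have h6 : RichN T n0 = 0 := by omega
    rw [h6] at hrich
    have : 0 < μ * 2 ^ n0 := by positivity
    push_cast at hrich
    linarith
  have hτz : (zc σ.opens : ℝ) * (1 / 2) ^ n0 < τ := by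
    have h5 : (zc σ.opens : ℝ) + RichN T n0 = InfN T n0 := by
      rw [hlenσ]
      exact_mod_cast hzcσ
    rw [hτ, one_div, inv_pow, ← div_eq_mul_inv, lt_sub_iff_add_lt, ← lt_sub_iff_add_lt',
      ← sub_div, lt_div_iff₀ h2n]
    linarith
  obtain ⟨q, hq⟩ : ∃ q, (zc σ.opens : ℝ) * (1 / 2) ^ n0 ≤ Pm δ q := by
    have := (hlim.eventually_const_lt hτz).exists
    obtain ⟨q, hq⟩ := this
    exact ⟨q, hq.le⟩
  obtain ⟨t, p, htw, htc, htO, htn, htm, htz, htl, htnn⟩ := start hOrd hσc hσO hrich' hm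
    (fun i => (hlow i).le) q hq
  have hlt : (t.opens.length : ℝ) = zc t.opens + RichN T n0 := by
    have : t.opens.length = zc t.opens + RichN T n0 := by omega
    exact_mod_cast this
  have hSt0 : St0 n0 μ τ (baseN T n0) δ t n0 p := by
    refine ⟨htw, htc, htO, le_rfl, ?_, ?_, fun i _ => hlow i⟩
    · intro d
      rw [htn d, hσn d]
    · rw [htm, hτ, hlenσ, one_div, inv_pow, ← div_eq_mul_inv]
      ring
  have hSt2 : St2 n0 μ τ (baseN T n0) δ t n0 p := by
    refine ⟨hSt0, ?_, ?_, ?_⟩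
    · rw [hlt]
      linarith
    · have h5 := ec_bound htw (b := 0) (n := n0 - 1)
        (by rw [show n0 - 1 + 1 = n0 by omega]; exact htO) (by omega)
      rw [htnn (n0 - 1) (by omega)] at h5
      have h6 := hσnn (n0 - 1) (by omega)
      have h7 : (t.opens.length : ℝ) ≤ ec t.opens + zc t.opens + nodeCount T (n0 - 1) := by
        exact_mod_cast h5.trans (by omega)
      have h8 : (2 : ℝ) ^ n0 = 2 * 2 ^ (n0 - 1) := by
        rw [← pow_succ', show n0 - 1 + 1 = n0 by omega]
      rw [hlt] at h7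
      rw [h8] at hrich ⊢
      have h9 : 0 < μ * 2 ^ (n0 - 1) := by positivity
      nlinarith
    · intro j hj
      exact hcap4.apply htw htc (by omega) j hj
  obtain ⟨ad, had, hadc⟩ := machine2 hN hC hSt2 (hcap4.mono (by omega) le_rfl) (leafCount T)
    (fun d => by rw [hcard, slotN_add])
  exact sameType_addr T ad had hadc

end

end Pool.Agent.RK
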